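import Pool.Agent.P.MP_8d2e9f_nt.G.Iface

/-! Steps SPL, PAD, PER, HEN, SP. -/

namespace Pool.Agent.P.MP_8d2e9f_nt.G

open Polynomial Finset NumberField
open scoped Classical

section sSPL

lemma spl_prime (μ : ℤ[X]) (hd : 0 < μ.natDegree) (n : ℕ) :
    ∃ (p : ℕ) (k : ℤ), p.Prime ∧ n < p ∧ (p : ℤ) ∣ μ.eval k := by
  by_cases hc : μ.eval 0 = 0
  · obtain ⟨p, h1, h2⟩ := Nat.exists_infinite_primes (n + 1)
    exact ⟨p, 0, h2, h1, by simp [hc]⟩
  have ne : ∀ c : ℤ, μ - C c ≠ 0 := fun c e => by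
    have := natDegree_sub_C (p := μ) (a := c)
    rw [e, natDegree_zero] at this
    omega
  have inj : Function.Injective fun t : ℤ => μ.eval 0 * n.factorial * t :=
    mul_right_injective₀ (mul_ne_zero hc (Nat.cast_ne_zero.2 n.factorial_ne_zero))
  obtain ⟨t, ht⟩ := Infinite.exists_notMem_finset
    (((μ - C (μ.eval 0)) * (μ - C (-μ.eval 0))).roots.toFinset.preimage _ inj.injOn)
  rw [mem_preimage, Multiset.mem_toFinset, mem_roots (mul_ne_zero (ne _) (ne _)), IsRoot,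
    eval_mul, mul_eq_zero, not_or, eval_sub, eval_sub, eval_C, eval_C] at ht
  obtain ⟨w, hw⟩ := sub_dvd_eval_sub (μ.eval 0 * n.factorial * t) 0 μ
  have e : μ.eval (μ.eval 0 * n.factorial * t) = μ.eval 0 * (1 + n.factorial * (t * w)) := by
    linear_combination hw
  obtain ⟨p, h1, h2⟩ := Nat.exists_prime_and_dvd (n := (1 + n.factorial * (t * w)).natAbs) fun h => by
    rcases Int.natAbs_eq_iff.1 h with h | h <;> rw [e, h] at ht <;> simp at ht
  have h3 : (p : ℤ) ∣ 1 + n.factorial * (t * w) := Int.natCast_dvd.2 h2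
  refine ⟨p, _, h1, not_le.1 fun h => ?_, e ▸ h3.mul_left _⟩
  have h4 : (p : ℤ) ∣ n.factorial * (t * w) :=
    (Int.natCast_dvd_natCast.2 (Nat.dvd_factorial h1.pos h)).mul_right _
  exact h1.one_lt.ne' (Nat.dvd_one.1 (Int.natCast_dvd_natCast.1 ((dvd_add_left h4).1 h3)))

lemma spl_root (μ : ℤ[X]) (hd : 0 < μ.natDegree) (hs : (μ.map (Int.castRingHom ℚ)).Separable)
    (n : ℕ) : ∃ (p : ℕ) (_ : Fact p.Prime) (z : ℤ_[p]), n < p ∧ aeval z μ = 0 := by
  obtain ⟨U, V, -, -, h⟩ := exists_mul_add_mul_eq_C_resultant μ (derivative μ) le_rfl le_rfl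
    (Or.inl hd.ne')
  have h0 : resultant μ (derivative μ) ≠ 0 := fun e => by
    have i : Function.Injective (Int.castRingHom ℚ) := Int.cast_injective
    have := resultant_ne_zero _ _ hs
    rw [derivative_map, natDegree_map_eq_of_injective i, natDegree_map_eq_of_injective i,
      resultant_map_map, e, map_zero] at this
    exact this rfl
  obtain ⟨p, k, h1, h2, h3⟩ := spl_prime μ hd (n + (resultant μ (derivative μ)).natAbs)
  have : Fact p.Prime := ⟨h1⟩
  have a : ∀ q : ℤ[X], aeval (k : ℤ_[p]) q = ((q.eval k : ℤ) : ℤ_[p]) := fun q =>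
    aeval_algebraMap_apply_eq_algebraMap_eval k q
  have h4 : ¬ (p : ℤ) ∣ (derivative μ).eval k := fun h4 => by
    have h5 := congrArg (eval k) h
    rw [eval_add, eval_mul, eval_mul, eval_C] at h5
    have := Nat.le_of_dvd (Int.natAbs_pos.2 h0)
      (Int.natCast_dvd.1 (h5 ▸ dvd_add (h3.mul_right _) (h4.mul_right _)))
    omega
  obtain ⟨z, hz, -⟩ := hensels_lemma (F := μ) (a := (k : ℤ_[p])) (by
    rw [a, a, le_antisymm (PadicInt.norm_le_one _)
      (not_lt.1 (mt (PadicInt.norm_int_lt_one_iff_dvd _).1 h4)), one_pow]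
    exact (PadicInt.norm_int_lt_one_iff_dvd _).2 h3)
  exact ⟨p, this, z, by omega, hz⟩

theorem p_SPL :
    S_SPL := by
  intro M N fM
  obtain ⟨θ, hθ⟩ := Field.exists_primitive_element ℚ M
  have hi : IsIntegral ℚ θ := Algebra.IsIntegral.isIntegral θ
  obtain ⟨b, hb0, hb⟩ := IsLocalization.integerNormalization_spec (nonZeroDivisors ℤ) (minpoly ℚ θ)
  obtain ⟨μ, hμ⟩ : ∃ μ, μ = IsLocalization.integerNormalization (nonZeroDivisors ℤ) (minpoly ℚ θ) :=
    ⟨_, rfl⟩
  have b0 : (b : ℚ) ≠ 0 := Int.cast_ne_zero.2 (nonZeroDivisors.ne_zero hb0)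
  have e : μ.map (Int.castRingHom ℚ) = C (b : ℚ) * minpoly ℚ θ := by
    rw [hμ, ← smul_eq_C_mul]
    exact hb.trans (by rw [Int.cast_smul_eq_zsmul])
  have hd : 0 < μ.natDegree := by
    refine lt_of_lt_of_le ?_ (natDegree_map_le (f := Int.castRingHom ℚ))
    rw [e, natDegree_C_mul b0]
    exact minpoly.natDegree_pos hi
  obtain ⟨p, _, z, h1, h2⟩ := spl_root μ hd (by
    rw [e]
    exact .unit_mul (isUnit_C.2 b0.isUnit) (minpoly.irreducible hi).separable) N
  have h3 : aeval (zo p z) (minpoly ℚ θ) = 0 := by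
    have a1 : aeval (zo p z) (μ.map (algebraMap ℤ ℚ)) = 0 := by
      rw [aeval_map_algebraMap]
      exact (aeval_algHom_apply (zo p).toIntAlgHom z μ).trans (by rw [h2, map_zero])
    rw [show algebraMap ℤ ℚ = Int.castRingHom ℚ from rfl, e, map_mul, aeval_C] at a1
    exact (mul_eq_zero.1 a1).resolve_left ((_root_.map_ne_zero _).2 b0)
  let pb := (IntermediateField.adjoin.powerBasis hi).map
    ((IntermediateField.equivOfEq hθ).trans IntermediateField.topEquiv)
  have h4 : aeval (z : ℚ_[p]) (minpoly ℚ pb.gen) = 0 := by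
    apply (algebraMap ℚ_[p] (Om p)).injective
    rw [map_zero, ← aeval_algebraMap_apply]
    exact h3
  let i : M →+* Om p := (algebraMap ℚ_[p] (Om p)).comp (pb.lift _ h4 : M →+* ℚ_[p])
  let _ := i.toAlgebra
  have : Algebra.IsAlgebraic M Qbar := Algebra.IsAlgebraic.tower_top (K := ℚ) M
  have : Module.IsTorsionFree M (Om p) := DivisionSemiring.to_moduleIsTorsionFree
  let j : Qbar →ₐ[M] Om p := IsAlgClosed.lift
  exact ⟨p, _, j, h1, fun x hx => ⟨_, (j.commutes ⟨x, hx⟩).symm⟩⟩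

end sSPL

section sPAD

lemma pad_rat {p : ℕ} [Fact p.Prime] (hodd : Odd p) (G1 G2 : ℤ_[p][X]) (t : ℕ → ℤ_[p])
    (hu : ∀ c, IsUnit (G2.eval (t c))) (ht : ∀ c, t (c + 1) * G2.eval (t c) = G1.eval (t c))
    {k : ℕ} (hk : 0 < k) (h0 : t k = t 0) : t ((p ^ 2).factorial * (p - 1)) = t 0 := by
  have per : Function.Periodic t k := fun c => by
    induction c with
    | zero => rw [zero_add, h0]
    | succ c ih =>
      refine mul_right_cancel₀ (hu c).ne_zero ?_
      rw [ht c, ← ih, add_right_comm, ht]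
  obtain ⟨W, hW⟩ : ∃ W : ℤ_[p][X], W = ∏ c ∈ range k, (C (G2.eval (t c)) - X) := ⟨_, rfl⟩
  have hU : IsUnit (W.coeff 0) := by
    rw [coeff_zero_eq_eval_zero, hW, eval_prod]
    exact IsUnit.prod_iff.2 fun c _ => by simpa using hu c
  obtain ⟨U, hU'⟩ := hU.exists_right_inv
  have h1 : ∀ c, W.eval (G2.eval (t c)) = 0 := fun c => by
    rw [hW, eval_prod]
    exact prod_eq_zero (mem_range.2 (Nat.mod_lt c hk)) (by simp [per.map_mod_nat])
  obtain ⟨H, hH⟩ : ∃ H : ℤ_[p][X], ∀ c, H.eval (t c) = t (c + 1) :=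
    ⟨-(G1 * W.divX.comp G2 * C U), fun c => by
      have h2 := h1 c
      rw [← W.divX_mul_X_add, eval_add, eval_mul, eval_X, eval_C] at h2
      rw [eval_neg, eval_mul, eval_mul, eval_C, eval_comp, ← ht c]
      linear_combination -(t (c + 1) * U) * h2 + t (c + 1) * hU'⟩
  have h3 : ∀ n, (fun x => H.eval x)^[n] (t 0) = t n := fun n => by
    induction n with
    | zero => rfl
    | succ n ih => rw [Function.iterate_succ_apply', ih, hH]
  rw [← h3]
  exact period_bound_padicInt hodd H (t 0) hk ((h3 k).trans h0)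

lemma pad_chart {p : ℕ} [Fact p.Prime] (hodd : Odd p) (Φ : ℤ_[p] × ℤ_[p] → ℤ_[p] × ℤ_[p]) (D : ℕ)
    (hom : ∀ (c : ℤ_[p]) v, Φ (c • v) = c ^ D • Φ v) (G1 G2 : ℤ_[p][X])
    (hG : ∀ u, Φ (u, 1) = (G1.eval u, G2.eval u)) (w : ℕ → ℤ_[p] × ℤ_[p])
    (hw : ∀ c, w (c + 1) = Φ (w c)) (hu : ∀ c, IsUnit (w c).2) {k : ℕ} (hk : 0 < k)
    (h0 : (w k).1 * (w 0).2 = (w k).2 * (w 0).1) :
    (w ((p ^ 2).factorial * (p - 1))).1 * (w 0).2 =
      (w ((p ^ 2).factorial * (p - 1))).2 * (w 0).1 := by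
  choose t ht using fun c => (hu c).dvd (a := (w c).1)
  have h1 : ∀ c, w (c + 1) = (w c).2 ^ D • (G1.eval (t c), G2.eval (t c)) := fun c => by
    rw [hw, ← hG, ← hom]
    exact congrArg Φ (Prod.ext (ht c) (mul_one _).symm)
  have h2 : ∀ c, (w (c + 1)).2 = (w c).2 ^ D * G2.eval (t c) := fun c => by rw [h1]; rfl
  have h3 : ∀ c, (w (c + 1)).1 = (w c).2 ^ D * G1.eval (t c) := fun c => by rw [h1]; rfl
  have h4 := pad_rat hodd G1 G2 t (fun c => isUnit_of_mul_isUnit_right (h2 c ▸ hu (c + 1)))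
    (fun c => mul_left_cancel₀ ((hu c).pow D).ne_zero (by
      rw [← h3, ht (c + 1), h2]; ring)) hk
    (mul_left_cancel₀ ((hu k).mul (hu 0)).ne_zero (by
      rw [ht k, ht 0] at h0; linear_combination h0))
  rw [ht, ht 0, h4]
  ring

lemma pad_semi {R S : Type} [CommRing R] [CommRing S] (f : R →+* S) (A B : R[X]) (d n : ℕ)
    (v : R × R) : Prod.map f f ((vm A B d)^[n] v) =
      (vm (A.map f) (B.map f) d)^[n] (Prod.map f f v) :=
  Function.Semiconj.iterate_right (map_vm f A B d) n v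

lemma pad_hom {R : Type} [CommRing R] (A B : R[X]) (d n : ℕ) (c : R) (v : R × R) :
    (vm A B d)^[n] (c • v) = c ^ d ^ n • (vm A B d)^[n] v := by
  induction n with
  | zero => simp
  | succ n ih =>
    rw [Function.iterate_succ_apply', Function.iterate_succ_apply', ih, vm_smul, ← pow_mul,
      pow_succ]

lemma pad_poly {R : Type} [CommRing R] (A B : R[X]) (d n : ℕ) (P : R[X] × R[X]) :
    ∃ G : R[X] × R[X], ∀ u, (vm A B d)^[n] (P.1.eval u, P.2.eval u) = (G.1.eval u, G.2.eval u) := by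
  refine ⟨(vm (A.map C) (B.map C) d)^[n] P, fun u => ?_⟩
  have h := pad_semi (evalRingHom u) (A.map C) (B.map C) d n P
  have e : (evalRingHom u).comp (C : R →+* R[X]) = RingHom.id R := by ext; simp
  rw [Polynomial.map_map, Polynomial.map_map, e, Polynomial.map_id, Polynomial.map_id] at h
  exact h.symm

lemma pad_iter {R F : Type} [CommRing R] [Field F] (f : R →+* F) (A B : R[X]) (d : ℕ) (v : R × R)
    (h : ∀ n, Prod.map f f ((vm A B d)^[n] v) ≠ 0) (n : ℕ) :
    Function.IsPeriodicPt (im (A.map f) (B.map f) d) n (pt (Prod.map f f v)) ↔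
      f ((vm A B d)^[n] v).1 * f v.2 = f ((vm A B d)^[n] v).2 * f v.1 := by
  have : (im (A.map f) (B.map f) d)^[n] (pt (Prod.map f f v)) =
      pt (Prod.map f f ((vm A B d)^[n] v)) := by
    induction n with
    | zero => rfl
    | succ n ih =>
      rw [Function.iterate_succ_apply', Function.iterate_succ_apply', ih, im_pt _ _ _ (h n), map_vm]
  rw [Function.IsPeriodicPt, Function.IsFixedPt, this]
  exact pt_eq_iff (h n) (h 0)

lemma pad_prim {p : ℕ} [Fact p.Prime] (x : Option ℚ_[p]) : ∃ v : ℤ_[p] × ℤ_[p],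
    Prod.map (PadicInt.toZMod (p := p)) PadicInt.toZMod v ≠ 0 ∧
      x = pt (Prod.map (algebraMap ℤ_[p] ℚ_[p]) (algebraMap ℤ_[p] ℚ_[p]) v) := by
  rcases x with _ | y
  · exact ⟨(1, 0), by simp, by simp [pt]⟩
  by_cases h : ‖y‖ ≤ 1
  · exact ⟨(⟨y, h⟩, 1), by simp, by simp [pt]⟩
  · have h0 : y ≠ 0 := fun e => h (by simp [e])
    exact ⟨(1, ⟨y⁻¹, by rw [norm_inv]; exact inv_le_one_of_one_le₀ (not_le.1 h).le⟩), by simp,
      by simp [pt, h0]⟩

theorem p_PAD :
    S_PAD := by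
  intro p _ hodd
  have hp : p.Prime := Fact.out
  obtain ⟨m, hm⟩ : ∃ m, m = (Fintype.card (Option (ZMod p))).factorial := ⟨_, rfl⟩
  refine ⟨m * ((p ^ 2).factorial * (p - 1)), Nat.mul_pos (hm ▸ Nat.factorial_pos _)
    (Nat.mul_pos (Nat.factorial_pos _) (Nat.sub_pos_of_lt hp.one_lt)),
    fun A B d hd hA hB hR x hx => ?_⟩
  obtain ⟨v, hv0, rfl⟩ := pad_prim x
  have r0 : ∀ n, Prod.map (PadicInt.toZMod (p := p)) PadicInt.toZMod ((vm A B d)^[n] v) ≠ 0 :=
    fun n => by
      induction n with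
      | zero => exact hv0
      | succ n ih =>
        rw [Function.iterate_succ_apply', map_vm]
        exact vm_ne hd hA hB _ (hR.map _).ne_zero ih
  have inj := FaithfulSMul.algebraMap_injective ℤ_[p] ℚ_[p]
  have q0 : ∀ n, Prod.map (algebraMap ℤ_[p] ℚ_[p]) (algebraMap ℤ_[p] ℚ_[p])
      ((vm A B d)^[n] v) ≠ 0 := fun n e => r0 n (by
    rw [(inj.prodMap inj) (a₂ := 0) (e.trans (Prod.ext (map_zero _).symm (map_zero _).symm))]
    exact Prod.ext (map_zero _) (map_zero _))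
  have key : ∀ n, Function.IsPeriodicPt (im (A.map (algebraMap ℤ_[p] ℚ_[p]))
      (B.map (algebraMap ℤ_[p] ℚ_[p])) d) n
      (pt (Prod.map (algebraMap ℤ_[p] ℚ_[p]) (algebraMap ℤ_[p] ℚ_[p]) v)) ↔
      ((vm A B d)^[n] v).1 * v.2 = ((vm A B d)^[n] v).2 * v.1 := fun n => by
    rw [pad_iter _ A B d v q0, ← map_mul, ← map_mul, inj.eq_iff]
  obtain ⟨k, hk, hper⟩ := hx
  have red : ∀ c, PadicInt.toZMod ((vm A B d)^[m * c] v).1 * PadicInt.toZMod v.2 =
      PadicInt.toZMod ((vm A B d)^[m * c] v).2 * PadicInt.toZMod v.1 := fun c => by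
    refine (pad_iter _ A B d v r0 _).1 (Function.IsPeriodicPt.mul_const ?_ c)
    rw [hm]
    refine Function.isPeriodicPt_factorial_card_of_mem_periodicPts
      ⟨k, hk, (pad_iter _ A B d v r0 _).2 ?_⟩
    rw [← map_mul, ← map_mul, (key k).1 hper]
  have unit : ∀ z : ℤ_[p], PadicInt.toZMod z ≠ 0 → IsUnit z := fun z hz => by
    by_contra h
    exact hz ((RingHom.mem_ker).1 (PadicInt.ker_toZMod (p := p) ▸ h))
  have hw : ∀ c, (vm A B d)^[m * (c + 1)] v = (vm A B d)^[m] ((vm A B d)^[m * c] v) := fun c => by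
    rw [mul_add, mul_one, add_comm, Function.iterate_add_apply]
  have h0 := (key _).1 (hper.const_mul m)
  refine (key _).2 ?_
  by_cases h2 : PadicInt.toZMod v.2 = 0
  · have h1 : PadicInt.toZMod v.1 ≠ 0 := fun e => hv0 (Prod.ext e h2)
    obtain ⟨G, hG⟩ := pad_poly A B d m (1, X)
    simp only [eval_one, eval_X] at hG
    have := pad_chart hodd (fun z => ((vm A B d)^[m] z.swap).swap) (d ^ m)
      (fun c z => congrArg Prod.swap (pad_hom A B d m c z.swap)) G.2 G.1
      (fun u => congrArg Prod.swap (hG u)) (fun c => ((vm A B d)^[m * c] v).swap)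
      (fun c => congrArg Prod.swap (hw c)) (fun c => unit _ fun e => r0 (m * c) (Prod.ext e (by
        have := red c
        rw [h2, mul_zero, eq_comm, mul_eq_zero, or_iff_left h1] at this
        exact this))) hk h0.symm
    exact this.symm
  · obtain ⟨G, hG⟩ := pad_poly A B d m (X, 1)
    simp only [eval_one, eval_X] at hG
    exact pad_chart hodd (vm A B d)^[m] (d ^ m) (pad_hom A B d m) G.1 G.2 hG
      (fun c => (vm A B d)^[m * c] v) hw (fun c => unit _ fun e => r0 (m * c) (Prod.ext (by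
        have := red c
        rw [e, zero_mul, mul_eq_zero, or_iff_left h2] at this
        exact this) e)) hk h0

end sPAD

section sPER

lemma per_conj {U V W : Type} {f : U → U} {g : V → V} {h : W → W} {a : U → W} {b : V → W}
    (ha : Function.Semiconj a f h) (hb : Function.Semiconj b g h) (ia : Function.Injective a)
    {x : U} {y : V} (e : a x = b y) {n : ℕ} (hy : g^[n] y = y) : f^[n] x = x :=
  ia (by rw [ha.iterate_right n x, e, ← hb.iterate_right n y, hy])

theorem p_PER (hCOMP : S_COMP) (hFIB : S_FIB) (hMOD : S_MOD) (hPAD : S_PAD) :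
    S_PER := by
  intro d φ hd h
  obtain ⟨E, hE, h1⟩ := hMOD.2 d φ h
  obtain ⟨A, B, D, m⟩ := hMOD.1 E d φ hE h1
  refine ⟨E, D + 2, hE, fun p hp j hN hK => ?_⟩
  obtain ⟨ι, hι⟩ := exists_lift (j := j) E.val fun x => hK x.2
  obtain ⟨N, N0, hP⟩ := hPAD p (hp.out.odd_of_ne_two (by omega))
  have hu : IsUnit (resultant (A.map ι) (B.map ι) d d) := by
    rw [resultant_map_map]
    have h2 := map_dvd ι m.dvd
    rw [map_natCast] at h2
    refine isUnit_of_dvd_unit h2 (PadicInt.isUnit_iff.2 (PadicInt.norm_natCast_eq_one_iff.2 ?_))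
    exact (Nat.coprime_of_lt_prime m.pos.ne' (by omega) hp.out)
  have hP' := hP _ _ d (by omega) (natDegree_map_le.trans m.dA) (natDegree_map_le.trans m.dB) hu
  have e : (algebraMap ℚ_[p] (Om p)).comp ((algebraMap ℤ_[p] ℚ_[p]).comp ι) =
      j.comp (ie E.val) := RingHom.ext hι
  have s1 : Function.Semiconj (Option.map j) φ
      (im (A.map (j.comp (ie E.val))) (B.map (j.comp (ie E.val))) d) := fun x => by
    rw [m.eq, map_im, Polynomial.map_map, Polynomial.map_map]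
  have s2 : Function.Semiconj (Option.map (algebraMap ℚ_[p] (Om p)))
      (im ((A.map ι).map (algebraMap ℤ_[p] ℚ_[p])) ((B.map ι).map (algebraMap ℤ_[p] ℚ_[p])) d)
      (im (A.map (j.comp (ie E.val))) (B.map (j.comp (ie E.val))) d) := fun x => by
    rw [map_im, ← e]
    simp only [Polynomial.map_map]
  have i1 := Option.map_injective j.injective
  have i2 := Option.map_injective (algebraMap ℚ_[p] (Om p)).injective
  have h2 : 2 ≤ d ^ N := hd.trans (Nat.le_self_pow N0.ne' d)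
  refine ((hFIB E _ _ ((hCOMP E d φ h1).2 N)).2 h2).subset ?_
  rintro x ⟨hx, n, n0, hn⟩
  obtain ⟨y, hy⟩ : ∃ y : Option ℚ_[p], x.map j = y.map (algebraMap ℚ_[p] (Om p)) := by
    rcases x with _ | x
    · exact ⟨none, rfl⟩
    · obtain ⟨z, hz⟩ := mem_TT.1 (some_mem_pts.1 hx)
      exact ⟨some z, congrArg some hz.symm⟩
  exact per_conj s1 s2 i1 hy (hP' y ⟨n, n0, per_conj s2 s1 i2 hy.symm hn⟩)

end sPER

section sHEN

lemma hen_dvd {p : ℕ} [Fact p.Prime] {x y : ℤ_[p]} (h : x ∣ y) : ‖y‖ ≤ ‖x‖ := by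
  obtain ⟨c, rfl⟩ := h
  rw [norm_mul]
  exact mul_le_of_le_one_right (norm_nonneg _) c.norm_le_one

lemma hen_cg {p : ℕ} [Fact p.Prime] {P T : ℤ_[p][X]} :
    Cg p P T ↔ P.map PadicInt.toZMod = T.map PadicInt.toZMod := by
  rw [cg_iff, Polynomial.ext_iff]
  refine forall_congr' fun i => ?_
  rw [coeff_map, coeff_map, ← sub_eq_zero, ← map_sub, ← RingHom.mem_ker, PadicInt.ker_toZMod,
    PadicInt.maximalIdeal_eq_span_p, Ideal.mem_span_singleton]

theorem p_HEN :
    S_HEN := by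
  intro p hp P E s N hN h H
  obtain ⟨R, hR⟩ := id h
  rw [sub_eq_iff_eq_add] at hR
  have key : ∀ a ∈ s, ∃ z : ℤ_[p], P.eval z = 0 ∧
      ‖z - a‖ < ‖E.eval (a : ℤ_[p]) * ∏ c ∈ s.erase a, ((a : ℤ_[p]) - c)‖ := fun a ha => by
    have h1 := H a ha
    generalize hD : E.eval (a : ℤ_[p]) * ∏ c ∈ s.erase a, ((a : ℤ_[p]) - c) = D at h1
    have h2 : ∀ r : ℤ_[p], ‖(p : ℤ_[p]) ^ N * r‖ < ‖D‖ ^ 2 := fun r => by
      refine (hen_dvd (dvd_mul_right _ r)).trans_lt ?_
      rwa [PadicInt.norm_p_pow, zpow_neg, zpow_natCast, inv_lt_iff_one_lt_mul₀'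
        (pow_pos (Nat.cast_pos.2 hp.out.pos) N)]
    have h3 : ‖D‖ ^ 2 ≤ ‖D‖ := pow_le_of_le_one (norm_nonneg _) D.norm_le_one two_ne_zero
    have e1 : P.aeval (a : ℤ_[p]) = p ^ N * R.eval (a : ℤ_[p]) := by
      rw [hR, ← mul_prod_erase s _ ha]
      simp
    have e2 : ‖P.derivative.aeval (a : ℤ_[p])‖ = ‖D‖ := by
      rw [show P.derivative.aeval (a : ℤ_[p]) = p ^ N * R.derivative.eval (a : ℤ_[p]) + D by
        rw [hR, ← mul_prod_erase s _ ha, ← hD, derivative_add, derivative_C_mul]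
        simp [eval_prod], PadicInt.norm_add_eq_max_of_ne ((h2 _).trans_le h3).ne,
        max_eq_right ((h2 _).trans_le h3).le]
    obtain ⟨z, z1, z2, -⟩ := hensels_lemma (F := P) (a := (a : ℤ_[p])) (by rw [e1, e2]; exact h2 _)
    exact ⟨z, by simpa using z1, e2 ▸ z2⟩
  choose! z z1 z2 using key
  have z3 : ∀ a ∈ s, ∀ b ∈ s, a ≠ b → ‖z a - a‖ < ‖(a : ℤ_[p]) - b‖ := fun a ha b hb e =>
    (z2 a ha).trans_le (hen_dvd ((dvd_prod_of_mem _ (mem_erase.2 ⟨e.symm, hb⟩)).mul_left _))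
  have inj : Set.InjOn z s := fun a ha b hb e => by_contra fun n => by
    have h1 := PadicInt.nonarchimedean (z b - (b : ℤ_[p])) (-(z a - (a : ℤ_[p])))
    rw [norm_neg, show z b - (b : ℤ_[p]) + -(z a - (a : ℤ_[p])) = a - b by rw [e]; ring] at h1
    exact h1.not_gt (max_lt ((z3 b hb a ha (Ne.symm n)).trans_eq (norm_sub_rev _ _))
      (z3 a ha b hb n))
  obtain ⟨Q, hQ⟩ : ∏ a ∈ s, (X - C (z a)) ∣ P := by
    rcases eq_or_ne P 0 with rfl | h0
    · exact dvd_zero _
    have := (Multiset.prod_X_sub_C_dvd_iff_le_roots h0 (s.val.map z)).2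
      ((Multiset.le_iff_subset (s.nodup.map_on inj)).2 fun x hx => by
        obtain ⟨a, ha, rfl⟩ := Multiset.mem_map.1 hx
        exact (mem_roots h0).2 (z1 a ha))
    rwa [Multiset.map_map] at this
  refine ⟨z, Q, hQ.trans (mul_comm _ _), hen_cg.2 ?_⟩
  have h1 := hen_cg.1 (h.of_dvd (dvd_pow_self p hN.ne'))
  have h2 : (∏ a ∈ s, (X - C (z a))).map PadicInt.toZMod =
      (∏ a ∈ s, (X - C (a : ℤ_[p]))).map PadicInt.toZMod := by
    rw [Polynomial.map_prod, Polynomial.map_prod]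
    refine prod_congr rfl fun a ha => ?_
    have : PadicInt.toZMod (z a) = PadicInt.toZMod (a : ℤ_[p]) := by
      rw [← sub_eq_zero, ← map_sub, ← RingHom.mem_ker, PadicInt.ker_toZMod,
        PadicInt.maximalIdeal_eq_span_p, Ideal.mem_span_singleton, ← PadicInt.norm_lt_one_iff_dvd]
      exact (z2 a ha).trans_le (PadicInt.norm_le_one _)
    simp [this]
  rw [hQ, Polynomial.map_mul, Polynomial.map_mul, h2, mul_comm] at h1
  exact mul_right_cancel₀ ((monic_prod_of_monic _ _ fun a _ => monic_X_sub_C _).map _).ne_zero h1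

end sHEN

section sSP

lemma sp_prod {R : Type} [CommRing R] (a k : ℕ) :
    ∏ c ∈ (range (a + 1 + k)).erase a, ((a : R) - c) =
      (-1) ^ k * ((a.factorial * k.factorial : ℕ) : R) := by
  induction k with
  | zero =>
    rw [add_zero, range_add_one, erase_insert notMem_range_self, prod_range_natCast_sub,
      ← Nat.descFactorial_eq_prod_range, Nat.descFactorial_self]
    simp
  | succ k ih =>
    rw [← add_assoc, range_add_one, erase_insert_of_ne (by omega), prod_insert (by simp), ih,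
      Nat.factorial_succ]
    push_cast
    ring

lemma sp_norm (p : ℕ) [Fact p.Prime] (m : ℕ) :
    (p : ℝ) ^ (-((m / (p - 1) : ℕ) : ℤ)) ≤ ‖((m.factorial : ℕ) : ℤ_[p])‖ := by
  have hp : 1 < p := (Fact.out : p.Prime).one_lt
  by_contra h
  have h1 := (PadicInt.norm_le_pow_iff_norm_lt_pow_add_one ((m.factorial : ℕ) : ℤ_[p])
    (-((m / (p - 1) + 1 : ℕ) : ℤ))).2 (by
      rw [show -((m / (p - 1) + 1 : ℕ) : ℤ) + 1 = -((m / (p - 1) : ℕ) : ℤ) by push_cast; ring]
      exact not_le.1 h)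
  have h2 := (PadicInt.norm_int_le_pow_iff_dvd (p := p) (k := (m.factorial : ℤ))).1
    (by rw [Int.cast_natCast]; exact h1)
  have h3 := (padicValNat_dvd_iff_le m.factorial_ne_zero).1 (Int.natCast_dvd_natCast.1
    (by exact_mod_cast h2 : ((p ^ (m / (p - 1) + 1) : ℕ) : ℤ) ∣ m.factorial))
  have h4 : padicValNat p m.factorial ≤ m / (p - 1) := (Nat.le_div_iff_mul_le (by omega)).2 (by
    rw [mul_comm, sub_one_mul_padicValNat_factorial]
    exact Nat.sub_le _ _)
  omega

theorem p_SP (hHEN : S_HEN) :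
    S_SP := by
  intro p _ P n N hP hN hC z hz
  have hp : (1 : ℝ) < p := by exact_mod_cast (Fact.out : p.Prime).one_lt
  obtain ⟨r, Q, e, hQ⟩ := hHEN p P 1 (range n) N (by omega) (by rwa [one_mul]) fun a ha => by
    obtain ⟨k, rfl⟩ := Nat.exists_eq_add_of_le (show a + 1 ≤ n from mem_range.1 ha)
    obtain ⟨c, hc⟩ := Nat.factorial_mul_factorial_dvd_factorial_add a k
    have h1 := sp_norm p (a + k)
    rw [hc, Nat.cast_mul, norm_mul] at h1
    have h2 := h1.trans (mul_le_of_le_one_right (norm_nonneg _) (PadicInt.norm_le_one _))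
    rw [eval_one, one_mul, sp_prod, norm_mul, norm_pow, norm_neg, norm_one, one_pow, one_mul]
    refine lt_of_lt_of_le ?_ (mul_le_mul_of_nonneg_left (pow_le_pow_left₀ (by positivity) h2 2)
      (by positivity))
    rw [← zpow_natCast, ← zpow_natCast, ← zpow_mul, ← zpow_add₀ (by positivity)]
    refine one_lt_zpow₀ hp ?_
    rw [show a + 1 + k - 1 = a + k by omega] at hN
    omega
  have q0 : Q ≠ 0 := fun h => by
    have := cg_iff.1 hQ 0
    rw [h, coeff_zero, coeff_one_zero, zero_sub, dvd_neg] at this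
    exact PadicInt.prime_p.not_dvd_one this
  have m1 : (∏ a ∈ range n, (X - C (r a))).Monic := monic_prod_of_monic _ _ fun _ _ =>
    monic_X_sub_C _
  rw [e, natDegree_mul q0 m1.ne_zero, natDegree_finsetProd_X_sub_C_eq_card, card_range] at hP
  rw [eq_C_of_natDegree_eq_zero (show Q.natDegree = 0 by omega)] at e q0
  rw [e, Polynomial.map_mul, map_C, Polynomial.map_prod, eval_mul, eval_C, eval_prod,
    mul_eq_zero, prod_eq_zero_iff] at hz
  rcases hz with h | ⟨a, -, h⟩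
  · exact absurd (by rw [zo_inj (h.trans (map_zero _).symm), C_0]) q0
  · refine ⟨r a, ?_⟩
    rw [Polynomial.map_sub, map_X, map_C, eval_sub, eval_X, eval_C, sub_eq_zero] at h
    exact h.symm

end sSP

end Pool.Agent.P.MP_8d2e9f_nt.G
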