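import Pool.Agent.P.MP_8d2e9f_nt.G.Iface

/-! Steps EIS, SWP, LOC, RA, RC, SYM, DIS, CG, CORE. -/

namespace Pool.Agent.P.MP_8d2e9f_nt.G

open Polynomial Finset NumberField
open scoped Classical

section sEIS

theorem p_EIS :
    S_EIS := by
  intro p hp Q n hn hd hc h0
  have hP : Prime (p : ℤ_[p]) := PadicInt.prime_p
  have hc' := cg_iff.1 hc
  have ht : ¬ (p : ℤ_[p]) ∣ Q.coeff n := fun h => by
    have h1 := dvd_sub h (hc' n)
    rw [coeff_X_pow, if_pos rfl, sub_sub_cancel] at h1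
    exact hP.not_dvd_one h1
  have hn' : Q.natDegree = n :=
    le_antisymm hd (le_natDegree_of_ne_zero fun h => ht (h ▸ dvd_zero _))
  have hu : IsUnit (Q.coeff n) := by
    by_contra h
    exact ht ((PadicInt.norm_lt_one_iff_dvd _).1 (PadicInt.not_isUnit_iff.1 h))
  have hpr : Q.IsPrimitive := fun r hr =>
    isUnit_of_dvd_unit ((C_dvd_iff_dvd_coeff r Q).1 hr n) hu
  refine ⟨hpr.irreducible_iff_irreducible_map_fraction_map.1 ?_, hn'⟩
  refine irreducible_of_eisenstein_criterion (P := Ideal.span {(p : ℤ_[p])})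
    ((Ideal.span_singleton_prime hP.ne_zero).2 hP) ?_ (fun i hi => ?_) ?_ ?_ hpr
  · rwa [Ideal.mem_span_singleton, leadingCoeff, hn']
  · have h1 := hc' i
    have h2 : i < n := hn' ▸ coe_lt_degree.1 hi
    rwa [coeff_X_pow, if_neg h2.ne, sub_zero, ← Ideal.mem_span_singleton] at h1
  · exact natDegree_pos_iff_degree_pos.1 (hn' ▸ hn)
  · rwa [Ideal.span_singleton_pow, Ideal.mem_span_singleton]

end sEIS

section sSWP

lemma swp_unit {p : ℕ} [Fact p.Prime] {k : ℤ} (h : ¬ (p : ℤ) ∣ k) : ‖(k : ℤ_[p])‖ = 1 :=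
  le_antisymm (PadicInt.norm_le_one _) (not_lt.1 fun e =>
    h ((PadicInt.norm_int_lt_one_iff_dvd k).1 e))

lemma swp_nd {p a : ℕ} (ha : a ∈ Ico 1 (p - 1)) : ¬ (p : ℤ) ∣ a := fun h => by
  have h1 := mem_Ico.1 ha
  have := Nat.le_of_dvd (by omega) (Int.natCast_dvd_natCast.1 h)
  omega

theorem p_SWP (hHEN : S_HEN) (hEIS : S_EIS) :
    S_SWP := by
  intro p hp P hd hc
  have hp2 : 2 ≤ p := hp.out.two_le
  have hpi : Prime (p : ℤ) := Nat.prime_iff_prime_int.1 hp.out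
  obtain ⟨z, Q0, hP, hQ⟩ := hHEN p P (X ^ 2 - C (p : ℤ_[p])) (Ico 1 (p - 1)) 2 two_pos hc
    fun a ha => by
      have h1 : ‖(X ^ 2 - C (p : ℤ_[p])).eval (a : ℤ_[p])‖ = 1 := by
        have : (X ^ 2 - C (p : ℤ_[p])).eval (a : ℤ_[p]) = (((a : ℤ) ^ 2 - p : ℤ) : ℤ_[p]) := by
          simp
        rw [this]
        refine swp_unit fun h => swp_nd ha (hpi.dvd_of_dvd_pow (n := 2) ?_)
        simpa using dvd_add h (dvd_refl (p : ℤ))
      have h2 : ‖∏ c ∈ (Ico 1 (p - 1)).erase a, ((a : ℤ_[p]) - c)‖ = 1 := by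
        rw [norm_prod]
        refine prod_eq_one fun c hc => ?_
        have : (a : ℤ_[p]) - c = (((a : ℤ) - c : ℤ) : ℤ_[p]) := by simp
        rw [this]
        refine swp_unit fun h => ?_
        have h3 := mem_Ico.1 ha
        have h4 := mem_erase.1 hc
        have h5 := mem_Ico.1 h4.2
        have h6 := Int.eq_zero_of_abs_lt_dvd h (abs_lt.2 ⟨by omega, by omega⟩)
        omega
      rw [norm_mul, h1, h2]
      have : (2 : ℝ) ≤ p := by exact_mod_cast hp2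
      nlinarith
  have hm : (∏ a ∈ Ico 1 (p - 1), (X - C (z a))).Monic :=
    monic_prod_of_monic _ _ fun _ _ => monic_X_sub_C _
  have hdm : (∏ a ∈ Ico 1 (p - 1), (X - C (z a))).natDegree = p - 2 := by
    rw [natDegree_prod_of_monic _ _ fun _ _ => monic_X_sub_C _]
    simp
    omega
  have hd0 : Q0.natDegree ≤ 2 := by
    rcases eq_or_ne Q0 0 with e | e
    · simp [e]
    · have := hm.natDegree_mul' e
      rw [mul_comm, ← hP, hdm] at this
      omega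
  have hc0 : Cg p Q0 (X ^ 2) := hQ.trans (by simp [Cg])
  have hn : ¬ (p : ℤ_[p]) ^ 2 ∣ Q0.coeff 0 := fun h => by
    have h1 : (p : ℤ_[p]) ^ 2 ∣ P.coeff 0 := by
      rw [hP, mul_coeff_zero]
      exact h.mul_right _
    have h2 := cg_iff.1 hc 0
    rw [Nat.cast_pow] at h2
    have h3 : (p : ℤ_[p]) ^ 2 ∣ (T2 ℤ_[p] p).coeff 0 := by simpa using dvd_sub h1 h2
    have h4 : (T2 ℤ_[p] p).coeff 0 = p * -∏ a ∈ Ico 1 (p - 1), (-(a : ℤ_[p])) := by
      rw [coeff_zero_eq_eval_zero, T2, eval_mul, eval_prod]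
      simp
    rw [h4, sq, mul_dvd_mul_iff_left PadicInt.prime_p.ne_zero, dvd_neg,
      PadicInt.prime_p.dvd_finsetProd_iff] at h3
    obtain ⟨a, ha, h5⟩ := h3
    have h6 : ‖((a : ℤ) : ℤ_[p])‖ = 1 := swp_unit (swp_nd ha)
    rw [dvd_neg, ← PadicInt.norm_lt_one_iff_dvd] at h5
    rw [Int.cast_natCast] at h6
    exact h5.ne h6
  obtain ⟨hi, hdq⟩ := hEIS p Q0 2 two_pos hd0 hc0 hn
  refine ⟨Q0.map (algebraMap ℤ_[p] ℚ_[p]), hi, ?_, ?_, fun w hw => ?_⟩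
  · rw [natDegree_map_eq_of_injective (FaithfulSMul.algebraMap_injective _ _), hdq]
  · rw [hP, Polynomial.map_mul]
    exact dvd_mul_right _ _
  · rw [hP, Polynomial.map_mul, eval_mul, mul_eq_zero] at hw
    rcases hw with hw | hw
    · right
      rw [aeval_def, eval₂_map, ← eval_map]
      exact hw
    · left
      rw [Polynomial.map_prod, eval_prod, prod_eq_zero_iff] at hw
      obtain ⟨a, -, ha⟩ := hw
      refine ⟨z a, ?_⟩
      simp only [Polynomial.map_sub, map_X, map_C, eval_sub, eval_X, eval_C] at ha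
      exact (sub_eq_zero.1 ha).symm

end sSWP

section sLOC

theorem p_LOC :
    S_LOC := by
  intro p _ j Q a b hQ ha hb
  have hc : IsConjRoot ℚ_[p] (j b) (j a) := by
    rw [isConjRoot_def, ← minpoly.eq_of_irreducible hQ ha, ← minpoly.eq_of_irreducible hQ hb]
  obtain ⟨t, ht⟩ := hc.exists_algEquiv
  let _ : Algebra Qbar (Om p) := j.toAlgebra
  have : IsScalarTower ℚ Qbar (Om p) :=
    IsScalarTower.of_algebraMap_eq' (Subsingleton.elim _ _)
  have key : ∀ x : Qbar, j (((t.restrictScalars ℚ).restrictNormal Qbar) x) = t (j x) := fun x =>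
    AlgEquiv.restrictNormal_commutes (t.restrictScalars ℚ) Qbar x
  refine ⟨(t.restrictScalars ℚ).restrictNormal Qbar, j.injective (by rw [key, ht]), ?_⟩
  rintro x ⟨z, hz⟩
  refine j.injective ?_
  have hz' : algebraMap ℚ_[p] (Om p) z = j x := hz
  rw [key, ← hz', t.commutes]

end sLOC

section sRA

lemma ra_eis {p : ℕ} [Fact p.Prime] {Q : ℤ_[p][X]} {n : ℕ} (hn : 0 < n)
    (h : Cg (p ^ 2) Q (T1 _ n p)) : Cg p Q (X ^ n) ∧ ¬ (p : ℤ_[p]) ^ 2 ∣ Q.coeff 0 := by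
  refine ⟨(h.of_dvd (dvd_pow_self p two_ne_zero)).trans (by simp [Cg, T1]), fun e => ?_⟩
  have h1 := cg_iff.1 h 0
  rw [T1, coeff_sub, coeff_X_pow, if_neg hn.ne, coeff_C_zero, zero_sub, sub_neg_eq_add,
    Nat.cast_pow, dvd_add_right e, pow_two] at h1
  have p0 : (p : ℤ_[p]) ≠ 0 := PadicInt.irreducible_p.ne_zero
  exact PadicInt.irreducible_p.not_isUnit (isUnit_of_dvd_one
    ((mul_dvd_mul_iff_left p0).1 (h1.trans (mul_one _).symm.dvd)))

theorem p_RA (hEIS : S_EIS) (hLOC : S_LOC) :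
    S_RA := by
  intro p _ j K τ ι P n hι hn hP hc
  obtain ⟨a1, a2⟩ := ra_eis hn hc
  obtain ⟨b1, b2⟩ := hEIS p _ n hn (natDegree_map_le.trans hP) a1 a2
  have e : (P.map (ie τ)).map j =
      ((P.map ι).map (algebraMap ℤ_[p] ℚ_[p])).map (algebraMap ℚ_[p] (Om p)) := by
    simp only [Polynomial.map_map]
    exact congrArg P.map (RingHom.ext fun x => (hι x).symm)
  have s : (P.map (ie τ)).Separable := (separable_map j).1 (e ▸ b1.separable.map)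
  have d : (P.map (ie τ)).natDegree = n := by
    rw [← natDegree_map j, e, natDegree_map,
      natDegree_map_eq_of_injective (FaithfulSMul.algebraMap_injective _ _), b2]
  have r : ∀ a ∈ rts P τ, aeval (j a) ((P.map ι).map (algebraMap ℤ_[p] ℚ_[p])) = 0 := fun a ha => by
    rw [← eval_map_algebraMap, ← e, eval_map_apply, (mem_rts.1 ha).2, map_zero]
  refine ⟨s.ne_zero, ?_, fun a ha b hb => hLOC p j _ a b b1 (r a ha) (r b hb)⟩
  rw [rts, Multiset.toFinset_card_of_nodup (nodup_roots s), ← d]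
  exact (IsAlgClosed.splits _).natDegree_eq_card_roots.symm

end sRA

section sRC

theorem p_RC (hSWP : S_SWP) (hLOC : S_LOC) :
    S_RC := by
  intro p _ j K τ ι P hι h0 hd hc
  obtain ⟨Q, hQ, hQ2, hQP, hz⟩ := hSWP p (P.map ι) (natDegree_map_le.trans hd) hc
  have e : (P.map ι).map (zo p) = (P.map (ie τ)).map j := by
    rw [Polynomial.map_map, Polynomial.map_map]
    exact congrArg P.map (RingHom.ext hι)
  have hcard : #(Q.aroots (Om p)).toFinset = 2 := by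
    rw [Multiset.toFinset_card_of_nodup (nodup_roots hQ.separable.map),
      ← (IsAlgClosed.splits _).natDegree_eq_card_roots, natDegree_map, hQ2]
  obtain ⟨a', b', hab, h2⟩ := card_eq_two.1 hcard
  have h3 : ∀ z, aeval z Q = 0 ↔ z = a' ∨ z = b' := fun z => by
    rw [← mem_singleton (a := b'), ← mem_insert, ← h2, Multiset.mem_toFinset, mem_aroots,
      and_iff_right hQ.ne_zero]
  have h4 : ∀ z, aeval z Q = 0 → ∃ x ∈ rts P τ, j x = z := fun z hzQ => by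
    have h5 : z ∈ ((P.map (ie τ)).map j).roots := by
      rw [mem_roots (map_ne_zero h0), ← e, IsRoot, zo, ← Polynomial.map_map, eval_map_algebraMap]
      exact aeval_eq_zero_of_dvd_aeval_eq_zero hQP hzQ
    rw [(IsAlgClosed.splits _).roots_map, Multiset.mem_map] at h5
    obtain ⟨x, hx, h6⟩ := h5
    exact ⟨x, Multiset.mem_toFinset.2 hx, h6⟩
  obtain ⟨a, ha, rfl⟩ := h4 a' ((h3 _).2 (Or.inl rfl))
  obtain ⟨b, hb, rfl⟩ := h4 b' ((h3 _).2 (Or.inr rfl))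
  obtain ⟨σ, h5, h6⟩ := hLOC p j Q a b hQ ((h3 _).2 (Or.inl rfl)) ((h3 _).2 (Or.inr rfl))
  refine ⟨σ, h6, a, ha, b, hb, fun h => hab (congrArg j h), h5, fun x hx hxa hxb => h6 x ?_⟩
  rcases hz (j x) (by rw [e, eval_map, eval₂_at_apply, (mem_rts.1 hx).2, map_zero]) with h | h
  · exact mem_TT.2 h
  · exact absurd ((h3 _).1 h) (not_or.2 ⟨fun h => hxa (j.injective h), fun h => hxb (j.injective h)⟩)

end sRC

section sSYM

section

variable {Γ X : Type} [Group Γ] [MulAction Γ X]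

/-- The permutations of `R` induced by `K`. -/
def sym_im (K : Subgroup Γ) (R : Finset X) : Subgroup (Equiv.Perm R) where
  carrier := {π | ∃ σ ∈ K, ∀ x : R, σ • (x : X) = π x}
  one_mem' := ⟨1, K.one_mem, fun _ => one_smul _ _⟩
  mul_mem' := fun ⟨σ, a, b⟩ ⟨τ, c, d⟩ => ⟨σ * τ, K.mul_mem a c, fun x => by
    rw [mul_smul, d, b, Equiv.Perm.mul_apply]⟩
  inv_mem' := fun {π} ⟨σ, a, b⟩ => ⟨σ⁻¹, K.inv_mem a, fun x => by
    rw [inv_smul_eq_iff, b]; simp⟩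

lemma sym_ex {R : Finset X} {σ : Γ} (h : ∀ x ∈ R, σ • x ∈ R) :
    ∃ π : Equiv.Perm R, ∀ x : R, σ • (x : X) = π x :=
  ⟨Equiv.ofBijective (fun x => ⟨σ • (x : X), h _ x.2⟩) (Finite.injective_iff_bijective.1
    fun _ _ e => Subtype.ext (MulAction.injective σ (congrArg Subtype.val e))), fun _ => rfl⟩

lemma sym_one {H : Subgroup Γ} {R : Finset X} {S : Set X} (hp : (#R).Prime)
    (hR : ∀ σ ∈ H, ∀ x ∈ R, σ • x ∈ R) (hS : ∀ σ ∈ H, ∀ x ∈ S, σ • x ∈ S)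
    (ht : ∀ a ∈ R, ∀ b ∈ R, ∃ σ ∈ H, σ • a = b) {σ : Γ} (hσ : σ ∈ H) (h0 : ∀ x ∈ S, σ • x = x)
    {a b : X} (ha : a ∈ R) (hb : b ∈ R) (ab : a ≠ b) (h1 : σ • a = b)
    (h2 : ∀ x ∈ R, x ≠ a → x ≠ b → σ • x = x) (π : Equiv.Perm R) :
    ∃ τ ∈ H, (∀ x ∈ S, τ • x = x) ∧ ∀ x : R, τ • (x : X) = π x := by
  have ab' : (⟨a, ha⟩ : R) ≠ ⟨b, hb⟩ := fun e => ab (congrArg Subtype.val e)
  have h3 : σ • b = a := by
    by_contra e
    have n : σ • b ≠ b := fun e => ab (MulAction.injective σ (h1.trans e.symm))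
    exact n (MulAction.injective σ (h2 _ (hR σ hσ b hb) e n))
  have sw : ∀ x : R, σ • (x : X) = Equiv.swap (⟨a, ha⟩ : R) ⟨b, hb⟩ x := fun x => by
    rw [Equiv.swap_apply_def]
    split_ifs with e1 e2
    · rw [e1, h1]
    · rw [e2, h3]
    · exact h2 _ x.2 (fun e => e1 (Subtype.ext e)) fun e => e2 (Subtype.ext e)
  have : MulAction.IsPretransitive (sym_im H R) R := ⟨fun x y => by
    obtain ⟨τ, c, d⟩ := ht _ x.2 _ y.2
    obtain ⟨ρ, e⟩ := sym_ex (hR τ c)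
    exact ⟨⟨ρ, τ, c, e⟩, Subtype.ext ((e x).symm.trans d)⟩⟩
  have top : sym_im H R = ⊤ := Equiv.Perm.subgroup_eq_top_of_isPreprimitive_of_isSwap_mem
    (.of_prime_card (by simpa using hp)) _ ⟨_, _, ab', rfl⟩ ⟨σ, hσ, sw⟩
  have le : Subgroup.closure {π : Equiv.Perm R | π.IsSwap} ≤
      sym_im (H ⊓ fixingSubgroup Γ S) R := by
    rw [Subgroup.closure_le]
    rintro _ ⟨x, y, xy, rfl⟩
    obtain ⟨ρ, e⟩ := isConj_iff.1 (Equiv.Perm.isConj_swap ab' xy)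
    obtain ⟨τ, c, d⟩ := top.ge (Subgroup.mem_top ρ)
    refine ⟨τ * σ * τ⁻¹, ⟨H.mul_mem (H.mul_mem c hσ) (H.inv_mem c),
      (mem_fixingSubgroup_iff Γ).2 fun z hz => ?_⟩, fun z => ?_⟩
    · rw [mul_smul, mul_smul, h0 _ (hS _ (H.inv_mem c) z hz), smul_inv_smul]
    · have : τ⁻¹ • (z : X) = ρ⁻¹ z := by rw [inv_smul_eq_iff, d]; simp
      rw [mul_smul, mul_smul, this, sw, d, ← e, Equiv.Perm.mul_apply, Equiv.Perm.mul_apply]
  obtain ⟨τ, c, d⟩ := le (Equiv.Perm.closure_isSwap.ge (Subgroup.mem_top π))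
  exact ⟨τ, c.1, (mem_fixingSubgroup_iff Γ).1 c.2, d⟩

end

theorem p_SYM :
    S_SYM := by
  intro H I _ R hp hR ht hs s h
  have one : ∀ i, ∃ τ ∈ H, (∀ k, k ≠ i → ∀ x ∈ R k, τ x = x) ∧ ∀ x ∈ R i, τ x = s x := fun i => by
    obtain ⟨σ, hσ, h0, a, ha, b, hb, ab, h1, h2⟩ := hs i
    obtain ⟨π, e⟩ := sym_ex (σ := s) (h i)
    obtain ⟨τ, c, d, f⟩ := sym_one (S := {x | ∃ k, k ≠ i ∧ x ∈ R k}) (hp i)
      (fun σ hσ => hR σ hσ i) (fun σ hσ x ⟨k, c, d⟩ => ⟨k, c, hR σ hσ k x d⟩) (ht i) hσ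
      (fun x ⟨k, c, d⟩ => h0 k c x d) ha hb ab h1 h2 π
    exact ⟨τ, c, fun k hk x hx => d x ⟨k, hk, hx⟩, fun x hx => (f ⟨x, hx⟩).trans (e ⟨x, hx⟩).symm⟩
  have key : ∀ t : Finset I, ∃ σ ∈ H, (∀ i ∈ t, ∀ x ∈ R i, σ x = s x) ∧
      ∀ i, i ∉ t → ∀ x ∈ R i, σ x = x := fun t => by
    induction t using Finset.induction_on with
    | empty => exact ⟨1, H.one_mem, by simp, fun _ _ _ _ => rfl⟩
    | insert j t hj ih =>
      obtain ⟨σ, a, b, c⟩ := ih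
      obtain ⟨τ, d, e, f⟩ := one j
      refine ⟨σ * τ, H.mul_mem a d, fun i hi x hx => ?_, fun i hi x hx => ?_⟩ <;>
        rw [AlgEquiv.mul_apply]
      · rcases mem_insert.1 hi with rfl | hi
        · rw [f x hx, c i hj _ (h i x hx)]
        · rw [e i (fun e => hj (e ▸ hi)) x hx, b i hi x hx]
      · rw [mem_insert, not_or] at hi
        rw [e i hi.1 x hx, c i hi.2 x hx]
  obtain ⟨σ, a, b, -⟩ := key univ
  exact ⟨σ, a, fun i => b i (mem_univ i)⟩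

end sSYM

section sDIS

theorem p_DIS :
    S_DIS := by
  intro E M S hEM h x hx
  obtain ⟨hx1, hx2⟩ := IntermediateField.mem_inf.1 hx
  rw [← InfiniteGalois.fixedField_fixingSubgroup E, IntermediateField.mem_fixedField_iff]
  intro s hs
  obtain ⟨σ, hσ, hS⟩ := h s hs
  rw [IntermediateField.mem_fixingSubgroup_iff] at hs hσ
  have key : ∀ y, σ y = s y → y ∈ IntermediateField.fixedField (Subgroup.zpowers (σ⁻¹ * s)) := by
    intro y hy
    rw [IntermediateField.mem_fixedField_iff]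
    intro g hg
    refine MulAction.mem_stabilizer_iff.1
      ((Subgroup.zpowers_le (H := MulAction.stabilizer Gam y)).2 ?_ hg)
    rw [MulAction.mem_stabilizer_iff, mul_smul, inv_smul_eq_iff]
    exact hy.symm
  have hle : E ⊔ IntermediateField.adjoin ℚ S ≤
      IntermediateField.fixedField (Subgroup.zpowers (σ⁻¹ * s)) :=
    sup_le (fun y hy => key y (by rw [hσ y (hEM hy), hs y hy]))
      (IntermediateField.adjoin_le_iff.2 fun y hy => key y (hS y hy))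
  have h1 := (IntermediateField.mem_fixedField_iff _ _).1 (hle hx1) _ (Subgroup.mem_zpowers _)
  have h2 : s x = σ x := by
    have : σ⁻¹ • s • x = x := by rw [← mul_smul]; exact h1
    exact inv_smul_eq_iff.1 this
  rw [h2, hσ x hx2]

end sDIS

section sCG

lemma cg_ext {K : IF} (τ τ' : K →ₐ[ℚ] Qbar) : ∃ s : Gam, ∀ x, s (τ x) = τ' x := by
  have key : ∀ τ : K →ₐ[ℚ] Qbar, ∃ s : Gam, ∀ x : K, s x = τ x := fun τ =>
    ⟨AlgEquiv.ofBijective (τ.liftNormal Qbar) (Algebra.IsAlgebraic.algHom_bijective _),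
      fun x => τ.liftNormal_commutes Qbar x⟩
  obtain ⟨s, hs⟩ := key τ
  obtain ⟨t, ht⟩ := key τ'
  exact ⟨s.symm.trans t, fun x => by rw [← hs, AlgEquiv.trans_apply, s.symm_apply_apply, ht]⟩

lemma cg_mem {K : IF} (h : Normal ℚ K) (s : Gam) {x : Qbar} (hx : x ∈ K) : s x ∈ K :=
  IntermediateField.normal_iff_forall_map_le'.1 h s ⟨x, hx, rfl⟩

lemma cg_mem' {K : IF} (h : Normal ℚ K) (τ : K →ₐ[ℚ] Qbar) (x : K) : τ x ∈ K := by
  obtain ⟨s, hs⟩ := cg_ext K.val τ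
  exact hs x ▸ cg_mem h s x.2

lemma cg_rts {K : IF} (P : (𝓞 K)[X]) (s : Gam) (τ : K →ₐ[ℚ] Qbar) {x : Qbar} (hx : x ∈ rts P τ) :
    s x ∈ rts P ((s : Qbar →ₐ[ℚ] Qbar).comp τ) := by
  have e : P.map (ie ((s : Qbar →ₐ[ℚ] Qbar).comp τ)) = (P.map (ie τ)).map (s : Qbar →+* Qbar) := by
    rw [Polynomial.map_map]
    rfl
  rw [mem_rts] at hx ⊢
  rw [e]
  refine ⟨(Polynomial.map_ne_zero_iff s.injective).2 hx.1, ?_⟩
  rw [eval_map, show s x = (s : Qbar →+* Qbar) x from rfl, eval₂_at_apply, hx.2, map_zero]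

lemma cg_split (hSP : S_SP) {p : ℕ} [Fact p.Prime] {j : Qbar →+* Om p} {K : IF}
    {τ : K →ₐ[ℚ] Qbar} {ι : 𝓞 K →+* ℤ_[p]} {P : (𝓞 K)[X]} {n N : ℕ}
    (h : ∀ x, zo p (ι x) = j (ie τ x)) (hP : P.natDegree ≤ n) (hN : 2 * ((n - 1) / (p - 1)) < N)
    (hc : Cg (p ^ N) (P.map ι) (T0 _ n)) : ∀ x ∈ rts P τ, x ∈ TT j := fun x hx => by
  refine hSP p _ n N (natDegree_map_le.trans hP) hN hc _ ?_
  rw [Polynomial.map_map, show (zo p).comp ι = j.comp (ie τ) from RingHom.ext h,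
    ← Polynomial.map_map, eval_map, eval₂_at_apply, (mem_rts.1 hx).2, map_zero]

lemma cg_cv {R : Type} [CommRing R] (k : ℕ) (e : R) (U V : R[X]) :
    ((k : R) ∣ e - 1 → Cg k (C e * U + C (1 - e) * V) U) ∧
      ((k : R) ∣ e → Cg k (C e * U + C (1 - e) * V) V) := by
  constructor <;> rintro ⟨w, hw⟩ <;> refine ⟨C w * (U - V), ?_⟩ <;>
    rw [← mul_assoc, ← C_mul, ← hw] <;> simp only [map_sub, map_one] <;> ring

theorem p_CG (hSP : S_SP) (hRA : S_RA) (hRC : S_RC) (hSYM : S_SYM) (hDIS : S_DIS) :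
    S_CG := by
  intro K M l r q N _ _ _ jl jr jq ι ε P fK nK nM KM hl hr hq hι e1 e0 dP hN cl cr cq
  have qp : q.Prime := Fact.out
  have ra : ∀ τ : K →ₐ[ℚ] Qbar, P.map (ie τ) ≠ 0 ∧ #(rts P τ) = q ∧
      ∀ a ∈ rts P τ, ∀ b ∈ rts P τ, ∃ σ : Gam, σ a = b ∧ ∀ x ∈ TT jr, σ x = x := fun τ => by
    obtain ⟨ι', h⟩ := exists_lift (j := jr) τ fun x => hr (KM (cg_mem' nK τ x))
    exact hRA r jr K τ ι' P q h qp.pos dP (map_T1 ι' q r ▸ cr.map ι')
  have st : ∀ s ∈ K.fixingSubgroup, ∀ τ, ∀ x ∈ rts P τ, s x ∈ rts P τ := fun s hs τ x hx => by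
    have := cg_rts P s τ hx
    rwa [show (s : Qbar →ₐ[ℚ] Qbar).comp τ = τ from
      AlgHom.ext fun y => hs ⟨_, cg_mem' nK τ y⟩] at this
  have fx : ∀ {p : ℕ} [Fact p.Prime] {j : Qbar →+* Om p} {s : Gam}, M ≤ TT j →
      (∀ x ∈ TT j, s x = x) → s ∈ M.fixingSubgroup := fun h h' x => h' _ (h x.2)
  have sym := hSYM M.fixingSubgroup (K →ₐ[ℚ] Qbar) (rts P) (fun τ => (ra τ).2.1.symm ▸ qp)
    (fun s hs => st s (IntermediateField.fixingSubgroup_le KM hs))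
    (fun τ a ha b hb => by
      obtain ⟨s, h1, h2⟩ := (ra τ).2.2 a ha b hb
      exact ⟨s, fx hr h2, h1⟩)
    fun τ => by
      obtain ⟨s, hs⟩ := cg_ext τ K.val
      have hs' : (s : Qbar →ₐ[ℚ] Qbar).comp τ = K.val := AlgHom.ext hs
      have h1 : ∀ τ' x, zo q (ι ((s : Qbar →ₐ[ℚ] Qbar).comp τ') x) =
          (jq.comp (s : Qbar →+* Qbar)) (ie τ' x) := fun τ' x => hι _ x
      have h2 : M ≤ TT (jq.comp (s : Qbar →+* Qbar)) := fun x hx => hq (cg_mem nM s hx)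
      have h3 : ∀ τ', Cg (q ^ 3) (P.map (ι τ'))
          (C (ι τ' ε) * T2 _ q + C (1 - ι τ' ε) * T0 _ q) := fun τ' => by
        simpa [map_T0, map_T2] using cq.map (ι τ')
      obtain ⟨σ, a1, a2⟩ := hRC q _ K τ _ P (h1 τ) (ra τ).1 dP (by
        rw [hs']
        exact ((h3 _).trans ((cg_cv _ _ _ _).1 (by exact_mod_cast e1))).of_dvd
          (pow_dvd_pow q (by norm_num)))
      refine ⟨σ, fx h2 a1, fun τ' ht x hx => a1 _ (cg_split hSP (h1 τ') dP (N := 3) ?_ ?_ x hx), a2⟩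
      · rw [Nat.div_self (by have := qp.two_le; omega)]
        norm_num
      · have h4 := e0 ((s : Qbar →ₐ[ℚ] Qbar).comp τ') fun e => ht (AlgHom.ext fun y =>
          s.injective ((DFunLike.congr_fun e y).trans (hs y).symm))
        exact (h3 _).trans ((cg_cv _ _ _ _).2 (by exact_mod_cast h4))
  have sub : ∀ τ, ∀ x ∈ rts P τ, x ∈ IntermediateField.adjoin ℚ (⋃ τ, (rts P τ : Set Qbar)) :=
    fun τ x hx => IntermediateField.subset_adjoin _ _ (Set.mem_iUnion.2 ⟨τ, hx⟩)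
  have fin : (⋃ τ, (rts P τ : Set Qbar)).Finite := Set.finite_iUnion fun τ => finite_toSet _
  have := fin.to_subtype
  refine ⟨IntermediateField.adjoin ℚ (⋃ τ, (rts P τ : Set Qbar)),
    IntermediateField.finiteDimensional_adjoin fun x _ => int_Q x, ?_, ?_, fun E KE EM => ?_,
    (ra _).2.1, fun α hα => ⟨sub _ _ hα, fun h => ?_⟩⟩
  · refine IntermediateField.normal_iff_forall_map_le'.2 fun s => ?_
    rw [IntermediateField.adjoin_map, IntermediateField.adjoin_le_iff]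
    rintro _ ⟨x, hx, rfl⟩
    obtain ⟨τ, hx⟩ := Set.mem_iUnion.1 hx
    exact sub _ _ (cg_rts P s τ hx)
  · rw [IntermediateField.adjoin_le_iff]
    refine Set.iUnion_subset fun τ x hx => ?_
    obtain ⟨ι', h⟩ := exists_lift (j := jl) τ fun x => hl (cg_mem' nK τ x)
    exact cg_split hSP h dP hN (map_T0 ι' q ▸ cl.map ι') x hx
  · refine hDIS E M _ EM fun s hs => ?_
    obtain ⟨σ, h1, h2⟩ := sym s (st s (IntermediateField.fixingSubgroup_le KE hs))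
    exact ⟨σ, h1, fun x hx => (Set.mem_iUnion.1 hx).elim fun τ => h2 τ x⟩
  · obtain ⟨b, hb, ne⟩ := exists_mem_ne ((ra K.val).2.1.symm ▸ qp.one_lt) α
    obtain ⟨s, h1, h2⟩ := (ra _).2.2 α hα b hb
    exact ne (h1.symm.trans (h2 _ (hr h)))

end sCG

section sCORE

lemma core_ineq {m e J q r L : ℕ} {c : ℝ} (hm : 0 < m) (he : e ≤ 2 * m) (hJ : J ≤ q) (hq : 0 < q)
    (hr : 0 < r) (hL : 0 < L) (hc : 1 ≤ c)
    (h : (3 * m ^ 2 : ℕ) * Real.log (12 * m * c * r ^ 2 * q ^ 4 * L) ≤ q) :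
    m * ((e + m : ℕ) * Real.log ((e + m : ℕ) * (2 * (J + 1) * (c * (L * r ^ 2 * q ^ 3 : ℕ))))) ≤
      (q : ℝ) := by
  have a1 : ((e + m : ℕ) : ℝ) ≤ 3 * m := by exact_mod_cast (by omega : e + m ≤ 3 * m)
  have a2 : (1 : ℝ) ≤ (e + m : ℕ) := by exact_mod_cast (by omega : 1 ≤ e + m)
  have a3 : (J : ℝ) + 1 ≤ 2 * q := by exact_mod_cast (by omega : J + 1 ≤ 2 * q)
  have a4 : (1 : ℝ) ≤ (L * r ^ 2 * q ^ 3 : ℕ) := Nat.one_le_cast.2 (Nat.succ_le_of_lt (by positivity))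
  have a5 : (1 : ℝ) ≤ (e + m : ℕ) * (2 * (J + 1) * (c * (L * r ^ 2 * q ^ 3 : ℕ))) :=
    one_le_mul_of_one_le_of_one_le a2 (one_le_mul_of_one_le_of_one_le
      (by linarith [(J.cast_nonneg : (0 : ℝ) ≤ J)]) (one_le_mul_of_one_le_of_one_le hc a4))
  have a6 : ((e + m : ℕ) : ℝ) * (2 * (J + 1) * (c * (L * r ^ 2 * q ^ 3 : ℕ))) ≤
      12 * m * c * r ^ 2 * q ^ 4 * L :=
    calc _ ≤ (3 * m : ℝ) * (2 * (2 * q) * (c * (L * r ^ 2 * q ^ 3 : ℕ))) := by gcongr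
      _ = _ := by push_cast; ring
  refine le_trans ?_ h
  calc _ ≤ (m : ℝ) * (3 * m * Real.log (12 * m * c * r ^ 2 * q ^ 4 * L)) := by
        have := Real.log_nonneg a5
        gcongr
    _ = _ := by push_cast; ring

theorem p_CORE (hMOD : S_MOD) (hSPL : S_SPL) (hCG : S_CG) (hIDEM : S_IDEM) (hCP : S_CP)
    (hCRT : S_CRT) (hCH : S_CH) (hNUM : S_NUM) :
    S_CORE := by
  intro K K' m N g fK nK fK' KK' hm hg
  obtain ⟨A, B, D, md⟩ := hMOD.1 K m g fK hg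
  obtain ⟨D', idem⟩ := hIDEM K fK
  obtain ⟨c, c1, cp⟩ := hCP K fK
  obtain ⟨ca, ca1, ba⟩ := exists_Bd A
  obtain ⟨cb', cb1, bb⟩ := exists_Bd B
  obtain ⟨l0, num⟩ := hNUM (3 * m ^ 2)
  obtain ⟨l, il, j, hl, hj⟩ := hSPL K' (N + D + l0) fK'
  refine ⟨l, il, j, by omega, hj, fun M fM nM KM => ?_⟩
  obtain ⟨r, ir, jr, hr, hjr⟩ := hSPL M l fM
  have lp := il.out
  have rp := ir.out
  have c2 : 1 ≤ c + ca + cb' := by linarith
  obtain ⟨n0, hn0⟩ := num l (by omega) (12 * m * (c + ca + cb') * r ^ 2) (by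
    have : (1 : ℝ) ≤ m := Nat.one_le_cast.2 hm
    have : (1 : ℝ) ≤ r ^ 2 := one_le_pow₀ (Nat.one_le_cast.2 rp.pos)
    exact one_le_mul_of_one_le_of_one_le (one_le_mul_of_one_le_of_one_le (by linarith) c2) this)
  obtain ⟨q, iq, jq, hq, hjq⟩ := hSPL M (n0 + r + D' + m) fM
  have qp := iq.out
  choose ι hι using fun τ : K →ₐ[ℚ] Qbar =>
    exists_lift (j := jq) τ fun x => hjq (KM (cg_mem' nK τ x))
  obtain ⟨ε, e1, e0⟩ := idem q jq ι (by omega) hι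
  obtain ⟨n, hn⟩ : ∃ n, n = 2 * ((q - 1) / (l - 1)) + 1 := ⟨_, rfl⟩
  have co : ∀ {a b : ℕ} (i k : ℕ), a.Prime → b.Prime → a < b → (a ^ i).Coprime (b ^ k) :=
    fun i k ha hb h => Nat.coprime_pow_primes i k ha hb h.ne
  obtain ⟨T, dT, t1, t2, t3⟩ := hCRT (𝓞 K) (l ^ n) (r ^ 2) (q ^ 3) q (T0 _ q) (T1 _ q r)
    (C ε * T2 _ q + C (1 - ε) * T0 _ q) (co _ _ lp rp hr) (co _ _ lp qp (by omega))
    (co _ _ rp qp (by omega)) (deg_T0 q) (deg_T1 q r) (natDegree_add_le_of_degree_le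
      ((natDegree_C_mul_le _ _).trans (deg_T2 qp.two_le)) ((natDegree_C_mul_le _ _).trans (deg_T0 q)))
  obtain ⟨J, e, h1, h2, h3⟩ : ∃ J e, m * J + e = q ∧ m ≤ e + 1 ∧ e ≤ 2 * m := by
    have a := Nat.div_add_mod (q + 1 - m) m
    have b := Nat.mod_lt (q + 1 - m) hm
    exact ⟨(q + 1 - m) / m, (q + 1 - m) % m + m - 1, by omega, by omega, by omega⟩
  have cd : ∀ {a : ℕ} (i : ℕ), a.Prime → D < a → D.Coprime (a ^ i) := fun i ha h =>
    (Nat.coprime_of_lt_prime md.pos.ne' h ha).symm.pow_right i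
  have kp : 0 < l ^ n * r ^ 2 * q ^ 3 := by
    have := lp.pos
    have := rp.pos
    have := qp.pos
    positivity
  obtain ⟨ρ, hρ, cg⟩ := cp m D (l ^ n * r ^ 2 * q ^ 3) e J g A B T md hm kp
    (((cd n lp (by omega)).mul_right (cd 2 rp (by omega))).mul_right (cd 3 qp (by omega))) h2
    (h1 ▸ dT)
  obtain ⟨L, fL, nL, lL, dis, card, mem⟩ := hCG K M l r q n j jr jq ι ε (cb ρ A B J) fK nK nM KM
    (KK'.trans hj) hjr hjq hι e1 e0 (h1 ▸ natDegree_cb (fun i => (hρ i).1) md.dA md.dB J)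
    (by omega) ((cg.of_dvd ((dvd_mul_right _ _).mul_right _)).trans t1)
    ((cg.of_dvd ((dvd_mul_left _ _).mul_right _)).trans t2)
    ((cg.of_dvd (dvd_mul_left _ _)).trans t3)
  have k1 : (1 : ℝ) ≤ (l ^ n * r ^ 2 * q ^ 3 : ℕ) := Nat.one_le_cast.2 kp
  obtain ⟨α, hα, hh⟩ := hCH K m D e J g A B ρ ((c + ca + cb') * (l ^ n * r ^ 2 * q ^ 3 : ℕ)) md hm
    (ba.mono (by nlinarith)) (bb.mono (by nlinarith))
    (fun i => ⟨(hρ i).1, (hρ i).2.mono (by nlinarith)⟩) (card_pos.1 (card ▸ qp.pos)) (by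
      rw [card]
      refine core_ineq hm h3 (by nlinarith) qp.pos rp.pos (pow_pos lp.pos n) c2 ?_
      rw [Nat.cast_pow l, hn]
      exact hn0 q (by omega))
  exact ⟨L, fL, nL, lL, dis, α, (mem α hα).1, (mem α hα).2, hh⟩

end sCORE

end Pool.Agent.P.MP_8d2e9f_nt.G
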