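import Pool.Agent.P.MP_8d2e9f_nt.G.Iface

/-! Steps IDEM, RED, SPAN, CP, CRT, ELIM, CH, NUM. -/

namespace Pool.Agent.P.MP_8d2e9f_nt.G

open Polynomial Finset NumberField
open scoped Classical

section sIDEM

lemma idem_sep {K : IF} (hK : Fd K) (τ : K →ₐ[ℚ] Qbar) : ∃ (θ : 𝓞 K) (q : ℤ[X]) (r : ℤ),
    τ ≠ K.val → r ≠ 0 ∧ (ie K.val θ - ie τ θ) *
      q.eval₂ (Int.castRingHom _) (ie K.val θ - ie τ θ) = r := by
  by_cases h : τ = K.val
  · exact ⟨0, 0, 0, fun e => (e h).elim⟩
  obtain ⟨θ, hθ⟩ : ∃ θ : 𝓞 K, ie K.val θ - ie τ θ ≠ 0 := by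
    by_contra e
    push Not at e
    refine h (AlgHom.coe_ringHom_injective (IsLocalization.ringHom_ext (nonZeroDivisors (𝓞 K)) ?_))
    exact RingHom.ext fun x => (sub_eq_zero.1 (e x)).symm
  obtain ⟨t, ht, r, r0, e⟩ := IsAlgebraic.exists_nonzero_eq_adjoin_mul
    ((ie_int K.val θ).sub (ie_int τ θ)).isAlgebraic (mem_nonZeroDivisors_of_ne_zero hθ)
  rw [Algebra.adjoin_singleton_eq_range_aeval] at ht
  obtain ⟨q, rfl⟩ := ht
  exact ⟨θ, q, r, fun _ => ⟨r0, by
    rw [Subsingleton.elim (Int.castRingHom Qbar) (algebraMap ℤ Qbar)]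
    exact e⟩⟩

lemma idem_appr {p : ℕ} [Fact p.Prime] (z : ℤ_[p]) : ∃ a : ℕ, (p : ℤ_[p]) ^ 3 ∣ z - a :=
  ⟨_, Ideal.mem_span_singleton.1 (PadicInt.appr_spec 3 z)⟩

lemma idem_aeval {R S : Type} [CommRing R] [CommRing S] (f : R →+* S) (x : R) (q : ℤ[X]) :
    f (q.eval₂ (Int.castRingHom R) x) = q.eval₂ (Int.castRingHom S) (f x) := by
  rw [hom_eval₂, Subsingleton.elim (f.comp _) (Int.castRingHom S)]

theorem p_IDEM :
    S_IDEM := by
  intro K hK
  choose θ q r hr using idem_sep hK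
  refine ⟨∑ τ, (r τ).natAbs, fun p _ j ι hp hι => ?_⟩
  have hu : ∀ τ, τ ≠ K.val → IsUnit (ι K.val (θ τ) - ι τ (θ τ)) := fun τ h => by
    obtain ⟨r0, e⟩ := hr τ h
    have e1 : (ι K.val (θ τ) - ι τ (θ τ)) *
        (q τ).eval₂ (Int.castRingHom _) (ι K.val (θ τ) - ι τ (θ τ)) = r τ := by
      apply zo_inj
      have e2 := congrArg j e
      rw [map_mul, map_intCast, idem_aeval, map_sub] at e2
      rw [map_mul, map_intCast, idem_aeval, map_sub, hι K.val, hι τ]
      exact e2
    suffices h0 : IsUnit (r τ : ℤ_[p]) from isUnit_of_mul_isUnit_left (e1 ▸ h0 :)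
    refine PadicInt.isUnit_iff.2 (le_antisymm (PadicInt.norm_le_one _) (not_lt.1 fun h1 => ?_))
    have h2 := Nat.le_of_dvd (Int.natAbs_pos.2 r0)
      (Int.natCast_dvd.1 ((PadicInt.norm_int_lt_one_iff_dvd _).1 h1))
    exact ((single_le_sum (f := fun τ => (r τ).natAbs) (fun _ _ => Nat.zero_le _)
      (mem_univ τ)).trans_lt hp).not_ge h2
  choose a ha using fun τ => idem_appr (ι τ (θ τ))
  have h1 : IsUnit (ι K.val (∏ τ ∈ univ.erase K.val, (θ τ - a τ))) := by
    rw [map_prod, IsUnit.prod_iff]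
    intro τ h
    by_contra h2
    refine (IsLocalRing.mem_maximalIdeal _).1 ?_ (hu τ (ne_of_mem_erase h))
    have h3 : ι τ (θ τ) - a τ ∈ IsLocalRing.maximalIdeal ℤ_[p] := by
      rw [PadicInt.maximalIdeal_eq_span_p, Ideal.mem_span_singleton]
      exact (dvd_pow_self _ three_ne_zero).trans (ha τ)
    have h4 := sub_mem ((IsLocalRing.mem_maximalIdeal _).2 h2) h3
    rwa [map_sub, map_natCast, sub_sub_sub_cancel_right] at h4
  obtain ⟨w, hw⟩ := h1.exists_left_inv
  obtain ⟨c, hc⟩ := idem_appr w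
  refine ⟨c * ∏ τ ∈ univ.erase K.val, (θ τ - a τ), ?_, fun τ h => ?_⟩
  · rw [map_mul, map_natCast, ← hw, ← sub_mul]
    exact (dvd_sub_comm.1 hc).mul_right _
  · rw [map_mul, map_prod]
    refine Dvd.dvd.mul_left ((?_ : _ ∣ _).trans (dvd_prod_of_mem _ (mem_erase.2 ⟨h, mem_univ τ⟩))) _
    rw [map_sub, map_natCast]
    exact ha τ

end sIDEM

section sRED

theorem p_RED :
    S_RED := by
  intro K hK
  let b := RingOfIntegers.basis K
  choose c hc using fun i => exists_bd (RingOfIntegers.isIntegral (b i))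
  refine ⟨1 + ∑ i, |c i|, le_add_of_nonneg_right (sum_nonneg fun _ _ => abs_nonneg _),
    fun k hk x => ⟨∑ i, (b.repr x i % k) • b i, ⟨-∑ i, (b.repr x i / k) • b i, ?_⟩,
      fun φ => ?_⟩⟩
  · conv_lhs => rw [← b.sum_repr x]
    rw [b.repr_sum_self, ← sum_sub_distrib, mul_neg, mul_sum, ← sum_neg_distrib]
    refine sum_congr rfl fun i _ => ?_
    rw [← sub_smul, Int.emod_def, sub_sub_cancel_left, neg_smul, mul_smul, zsmul_eq_mul (a := _)
      (n := (k : ℤ)), Int.cast_natCast]
  · have hk' : (0 : ℤ) < k := Nat.cast_pos.2 hk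
    rw [map_sum, add_mul, sum_mul]
    refine le_add_of_nonneg_of_le (by positivity) ((norm_sum_le _ _).trans
      (sum_le_sum fun i _ => ?_))
    rw [map_zsmul, zsmul_eq_mul, norm_mul, mul_comm, Complex.norm_intCast]
    refine mul_le_mul ((hc i φ).trans (le_abs_self _)) ?_ (abs_nonneg _) (abs_nonneg _)
    rw [← Int.cast_abs, abs_of_nonneg (Int.emod_nonneg _ hk'.ne')]
    exact_mod_cast (Int.emod_lt_of_pos _ hk').le

end sRED

section sSPAN

theorem p_SPAN :
    S_SPAN := by
  intro R _ A B m e J T hm hA hB he hT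
  induction J generalizing T with
  | zero => exact ⟨fun _ => T, fun _ => by simpa using hT, by simp [cb]⟩
  | succ J ih =>
    obtain ⟨U, V, hU, hV, h⟩ := bez hm hA hB (s := m * J + e) (by omega) T
      (hT.trans_eq (by ring))
    obtain ⟨r, h1, h2⟩ := ih U hU
    obtain ⟨r', h3, h4⟩ := ih V hV
    refine ⟨fun j => (if j = 0 then 0 else r (j - 1)) + (if j ≤ J then r' j else 0),
      fun j => natDegree_add_le_of_degree_le ?_ ?_, ?_⟩
    · split_ifs
      exacts [by simp, h1 _]
    · split_ifs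
      exacts [h3 _, by simp]
    have h5 : cb (fun j => if j = 0 then 0 else r (j - 1)) A B (J + 1) = A * cb r A B J := by
      rw [cb, sum_range_succ', cb, mul_sum]
      simp only [Nat.succ_ne_zero, if_false, if_true, zero_mul, add_zero, Nat.add_sub_cancel,
        Nat.add_sub_add_right]
      exact sum_congr rfl fun j _ => by ring
    have h6 : cb (fun j => if j ≤ J then r' j else 0) A B (J + 1) = B * cb r' A B J := by
      rw [cb, sum_range_succ, cb, mul_sum, if_neg (by omega), zero_mul, zero_mul, add_zero]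
      refine sum_congr rfl fun j hj => ?_
      have := Nat.lt_succ_iff.1 (mem_range.1 hj)
      rw [if_pos this, Nat.succ_sub this, pow_succ]
      ring
    calc _ = A * cb r A B J + B * cb r' A B J := by
          rw [← h5, ← h6]
          simp only [cb, add_mul, sum_add_distrib]
      _ = C (resultant A B m m ^ J) * (A * U + B * V) := by rw [h2, h4]; ring
      _ = _ := by rw [h, pow_succ, map_mul, mul_assoc]

end sSPAN

section sCP

theorem p_CP (hRED : S_RED) (hSPAN : S_SPAN) :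
    S_CP := by
  intro K hK
  obtain ⟨c, hc, hred⟩ := hRED K hK
  refine ⟨c, hc, fun m D k e J g A B T hM hm hk hD he hT => ?_⟩
  choose red h1 h2 using hred k hk
  obtain ⟨w, hw⟩ := hM.dvd
  obtain ⟨a, b, hab⟩ : IsCoprime ((D : 𝓞 K) ^ J) (k : 𝓞 K) :=
    (Nat.Coprime.cast (R := 𝓞 K) hD).pow_left
  obtain ⟨r, h3, h4⟩ := hSPAN _ A B m e J (C (a * w ^ J) * T) hm hM.dA hM.dB he
    ((natDegree_C_mul_le _ _).trans hT)
  let r' : ℕ → (𝓞 K)[X] := fun j => ∑ i ∈ range (e + 1), monomial i (red ((r j).coeff i))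
  have h5 : ∀ j i, (r' j).coeff i = if i < e + 1 then red ((r j).coeff i) else 0 := fun j i => by
    simp [r', coeff_monomial]
  refine ⟨r', fun j => ⟨natDegree_le_iff_coeff_eq_zero.2 fun i hi => by
    rw [h5, if_neg (by omega)], fun φ i => ?_⟩, Cg.trans (T := cb r A B J) ?_ ?_⟩
  · rw [h5]
    split_ifs
    exacts [h2 _ φ, by simpa using by positivity]
  · rw [Cg, cb, cb, ← sum_sub_distrib]
    refine dvd_sum fun j _ => ?_
    rw [← sub_mul, ← sub_mul]
    refine (Dvd.dvd.mul_right (cg_iff.2 fun i => ?_) _).mul_right _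
    rw [h5]
    split_ifs with h
    · exact h1 _
    · rw [coeff_eq_zero_of_natDegree_lt ((h3 j).trans_lt (by omega)), sub_zero]
      exact dvd_zero _
  · refine ⟨-(C b * T), ?_⟩
    rw [h4, ← mul_assoc, ← map_mul, mul_left_comm, ← mul_pow, ← hw, eq_sub_of_add_eq hab]
    simp only [map_sub, map_one, map_mul]
    ring

end sCP

section sCRT

lemma crt_two {R : Type} [CommRing R] {a b n : ℕ} (h : a.Coprime b) {U V : R[X]}
    (hU : U.natDegree ≤ n) (hV : V.natDegree ≤ n) :
    ∃ T : R[X], T.natDegree ≤ n ∧ C (a : R) ∣ T - U ∧ C (b : R) ∣ T - V := by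
  obtain ⟨u, v, e⟩ := h.cast (R := R)
  have e' := congrArg (C : R →+* R[X]) e
  rw [map_add, map_mul, map_mul, map_one] at e'
  refine ⟨C (v * b) * U + C (u * a) * V, natDegree_add_le_of_degree_le
    ((natDegree_C_mul_le _ _).trans hU) ((natDegree_C_mul_le _ _).trans hV),
    ⟨C u * (V - U), ?_⟩, ⟨C v * (U - V), ?_⟩⟩
  · rw [map_mul, map_mul]
    linear_combination U * e'
  · rw [map_mul, map_mul]
    linear_combination V * e'

theorem p_CRT :
    S_CRT := by
  intro R _ a b c n U V W hab hac hbc hU hV hW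
  obtain ⟨S, h1, h2, h3⟩ := crt_two hbc hV hW
  obtain ⟨T, h4, h5, h6⟩ := crt_two (hab.mul_right hac) hU h1
  rw [Nat.cast_mul, map_mul] at h6
  refine ⟨T, h4, h5, ?_, ?_⟩
  · simpa [Cg] using (dvd_of_mul_right_dvd h6).add h2
  · simpa [Cg] using (dvd_of_mul_left_dvd h6).add h3

end sCRT

section sELIM

open Real MeasureTheory Set Filter in
lemma elim_mahler_pos (p : ℂ[X]) {b : ℝ} (hb : 0 < b) (h : ∀ z : ℂ, ‖z‖ = 1 → ‖p.eval z‖ ≤ b) :
    p.mahlerMeasure ≤ b := by
  by_cases hp : p = 0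
  · simp [hp, hb.le]
  rw [show b = rexp (circleAverage (fun _ ↦ log b) 0 1)
    by simp [circleAverage_def, mul_assoc, exp_log hb], mahlerMeasure_def_of_ne_zero hp,
    circleAverage_def, smul_eq_mul]
  gcongr
  apply intervalIntegral.integral_mono_ae_restrict (by positivity)
    p.intervalIntegrable_mahlerMeasure (by simp)
  rw [EventuallyLE, eventually_iff_exists_mem]
  use {x : ℝ | eval (circleMap 0 1 x) p ≠ 0}
  constructor
  · rw [mem_ae_iff, compl_def, Measure.restrict_apply' (by simp)]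
    apply (Finite.of_sdiff _ <| finite_singleton (2 * π)).measure_zero
    simp only [ne_eq, mem_ofPred_eq, Decidable.not_not, inter_sdiff_assoc, Icc_sdiff_right]
    rw [ofPred_inter_eq_sep]
    apply Finite.of_finite_image (f := circleMap 0 1) ((Multiset.finite_toSet p.roots).subset _)
      <| fun _ h _ k l ↦ injOn_circleMap_of_abs_sub_le' one_ne_zero (by linarith) h.1 k.1 l
    simp [hp]
  · intro x hx
    exact log_le_log (norm_pos_iff.2 hx) (h _ (by simp))

lemma elim_mahler (p : ℂ[X]) {b : ℝ} (h : ∀ z : ℂ, ‖z‖ = 1 → ‖p.eval z‖ ≤ b) :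
    p.mahlerMeasure ≤ b := by
  have hb : 0 ≤ b := (norm_nonneg _).trans (h 1 norm_one)
  exact le_of_forall_pos_le_add fun ε hε =>
    elim_mahler_pos p (by positivity) fun z hz => (h z hz).trans (by linarith)

lemma elim_res_le (f g : ℂ[X]) (e m : ℕ) {b : ℝ} (hb : 0 ≤ b) (hf : ∀ i, ‖f.coeff i‖ ≤ b)
    (hg : ∀ i, ‖g.coeff i‖ ≤ b) : ‖resultant f g e m‖ ≤ ((e + m : ℕ) * b) ^ (e + m) := by
  have h := Matrix.det_le (A := sylvester f g e m) (abv := NormedField.toAbsoluteValue ℂ) (x := b)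
    fun i j => by
      change ‖sylvester f g e m i j‖ ≤ b
      induction j using Fin.addCases <;>
        simp only [sylvester, Matrix.of_apply, Fin.addCases_left, Fin.addCases_right] <;>
        split_ifs <;> first | exact hf _ | exact hg _ | simpa using hb
  rw [Fintype.card_fin, nsmul_eq_mul] at h
  refine le_trans h ?_
  rw [mul_pow]
  gcongr
  exact_mod_cast Nat.factorial_le_pow _

/-- The first polynomial after specialization. -/
noncomputable def elim_A {F : Type} [CommRing F] (r : ℕ → F[X]) (J : ℕ) (y : F) : F[X] :=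
  ∑ j ∈ range (J + 1), r j * C (y ^ j)

lemma elim_eval {O F : Type} [CommRing O] [CommRing F] (r : ℕ → O[X]) (A B : O[X]) (m e J : ℕ)
    (ψ : O →+* F) (y : F) :
    ((resultant (elim_A (fun j => (r j).map C) J X) (A.map C - C X * B.map C) e m).map ψ).eval y =
      resultant (elim_A (fun j => (r j).map ψ) J y) (A.map ψ - C y * B.map ψ) e m := by
  obtain ⟨ev, k, k', k''⟩ : ∃ ev : O[X] →+* F, ev.comp C = ψ ∧ ev X = y ∧
      ∀ p : O[X], (p.map ψ).eval y = ev p :=
    ⟨eval₂RingHom ψ y, RingHom.ext fun a => by simp, by simp, fun p => by simp [eval_map]⟩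
  have e1 : (elim_A (fun j => (r j).map C) J X).map ev = elim_A (fun j => (r j).map ψ) J y := by
    simp only [elim_A, Polynomial.map_sum, Polynomial.map_mul, Polynomial.map_map, map_C, k, k',
      map_pow ev]
  have e2 : (A.map C - C X * B.map C).map ev = A.map ψ - C y * B.map ψ := by
    simp only [Polynomial.map_sub, Polynomial.map_mul, Polynomial.map_map, map_C, k, k']
  rw [k'', ← resultant_map_map, e1, e2]

lemma elim_deg {F : Type} [CommRing F] {r : ℕ → F[X]} {e : ℕ} (hr : ∀ j, (r j).natDegree ≤ e)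
    (J : ℕ) (y : F) : (elim_A r J y).natDegree ≤ e :=
  natDegree_sum_le_of_forall_le _ _ fun j _ => (natDegree_mul_C_le _ _).trans (hr j)

lemma elim_deg' {F : Type} [CommRing F] {A B : F[X]} {m : ℕ} (hA : A.natDegree ≤ m)
    (hB : B.natDegree ≤ m) (y : F) : (A - C y * B).natDegree ≤ m :=
  (natDegree_sub_le _ _).trans (max_le hA ((natDegree_C_mul_le _ _).trans hB))

lemma elim_cb {F : Type} [CommRing F] (r : ℕ → F[X]) (A B : F[X]) (J : ℕ) {y α : F}
    (h : A.eval α = y * B.eval α) :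
    (cb r A B J).eval α = B.eval α ^ J * (elim_A r J y).eval α := by
  simp only [cb, elim_A, eval_finsetSum, eval_mul, eval_pow, eval_C, h, mul_sum]
  refine sum_congr rfl fun j hj => ?_
  obtain ⟨k, rfl⟩ := Nat.exists_eq_add_of_le (Nat.lt_succ_iff.1 (mem_range.1 hj))
  rw [add_tsub_cancel_left]
  ring

lemma elim_zero {F : Type} [Field F] {r : ℕ → F[X]} {A B : F[X]} {m e : ℕ} (J : ℕ) (hm : 0 < m)
    (hA : A.natDegree ≤ m) (hB : B.natDegree ≤ m) (hr : ∀ j, (r j).natDegree ≤ e) {α : F}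
    (h : (cb r A B J).eval α = 0) (h' : B.eval α ≠ 0) :
    resultant (elim_A r J (A.eval α / B.eval α)) (A - C (A.eval α / B.eval α) * B) e m = 0 := by
  have k : A.eval α = A.eval α / B.eval α * B.eval α := (div_mul_cancel₀ _ h').symm
  obtain ⟨p, q, -, -, hpq⟩ := exists_mul_add_mul_eq_C_resultant _ _ (elim_deg hr J _)
    (elim_deg' hA hB (A.eval α / B.eval α)) (Or.inr hm.ne')
  rw [elim_cb r A B J k, mul_eq_zero, or_iff_right (pow_ne_zero _ h')] at h
  have := congrArg (eval α) hpq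
  rw [eval_add, eval_mul, eval_mul, h, eval_sub, eval_mul, eval_C, ← k, eval_C] at this
  simpa using this.symm

lemma elim_ne {F : Type} [Field F] [IsAlgClosed F] {r : ℕ → F[X]} {A B : F[X]} {m e : ℕ} (J : ℕ)
    (hA : A.natDegree ≤ m) (hB : B.natDegree ≤ m) (hr : ∀ j, (r j).natDegree ≤ e)
    (hv : ∀ v, v ≠ 0 → vm A B m v ≠ 0) (h : cb r A B J ≠ 0) :
    ∃ y, resultant (elim_A r J y) (A - C y * B) e m ≠ 0 := by
  obtain ⟨y, hy⟩ := Infinite.exists_notMem_finset (insert (A.coeff m / B.coeff m)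
    ((cb r A B J).roots.toFinset.image fun ξ => A.eval ξ / B.eval ξ))
  simp only [mem_insert, mem_image, Multiset.mem_toFinset, mem_roots h, not_or, not_exists,
    not_and] at hy
  have key : ∀ a b : F, (a, b) ≠ 0 → a = y * b → a / b = y := fun a b hab e => by
    have : b ≠ 0 := fun hb => hab (by simp [e, hb])
    rw [e, mul_div_cancel_right₀ _ this]
  have c1 : (A - C y * B).coeff m ≠ 0 := fun e => by
    have := hv (1, 0) (by simp)
    simp only [vm, hv_inf, one_pow, mul_one] at this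
    rw [coeff_sub, coeff_C_mul, sub_eq_zero] at e
    exact hy.1 (key _ _ this e).symm
  have c2 : IsCoprime (elim_A r J y) (A - C y * B) := by
    rw [isCoprime_iff_aeval_ne_zero_of_isAlgClosed (k := F) F]
    intro a
    by_contra! hc
    obtain ⟨h1, h2⟩ := hc
    rw [coe_aeval_eq_eval] at h1 h2
    rw [eval_sub, eval_mul, eval_C, sub_eq_zero] at h2
    have := hv (a, 1) (by simp)
    simp only [vm, hv_one hA, hv_one hB] at this
    exact hy.2 a (by rw [IsRoot, elim_cb r A B J h2, h1, mul_zero]) (key _ _ this h2)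
  have c3 : (A - C y * B).natDegree = m :=
    le_antisymm (elim_deg' hA hB y) (le_natDegree_of_ne_zero c1)
  obtain ⟨k, hk⟩ := Nat.exists_eq_add_of_le (elim_deg hr J y)
  have c4 := resultant_ne_zero _ _ c2
  rw [c3] at c4
  refine ⟨y, ?_⟩
  rw [hk, resultant_add_left_deg _ _ _ _ _ le_rfl]
  exact mul_ne_zero (mul_ne_zero (pow_ne_zero _ (by simp)) (pow_ne_zero _ c1)) c4

theorem p_ELIM :
    S_ELIM := by
  intro O _ r A B m e J hm hA hB hr
  refine ⟨resultant (elim_A (fun j => (r j).map C) J X) (A.map C - C X * B.map C) e m,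
    fun ψ α h h' => ?_, fun ψ h h' h0 => ?_, fun c hcA hcB hcr φ => ?_⟩
  · rw [elim_eval]
    rw [map_cb] at h
    exact elim_zero J hm (natDegree_map_le.trans hA) (natDegree_map_le.trans hB)
      (fun j => natDegree_map_le.trans (hr j)) h h'
  · rw [map_cb] at h'
    obtain ⟨y, hy⟩ := elim_ne J (natDegree_map_le.trans hA) (natDegree_map_le.trans hB)
      (fun j => natDegree_map_le.trans (hr j)) (fun v hv => vm_ne hm hA hB ψ h hv) h'
    rw [← elim_eval, h0, eval_zero] at hy
    exact hy rfl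
  · have hc : 0 ≤ c := (norm_nonneg _).trans (hcA φ 0)
    have hJ : (0 : ℝ) ≤ J := Nat.cast_nonneg J
    refine elim_mahler _ fun z hz => ?_
    rw [elim_eval]
    refine elim_res_le _ _ e m (by positivity) (fun i => ?_) fun i => ?_
    · rw [elim_A, finsetSum_coeff]
      refine (norm_sum_le_of_le _ (n := fun _ => c) fun j _ => ?_).trans ?_
      · rw [coeff_mul_C, norm_mul, norm_pow, hz, one_pow, mul_one, coeff_map]
        exact hcr j φ i
      · rw [sum_const, card_range, nsmul_eq_mul]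
        push_cast
        nlinarith
    · rw [coeff_sub, coeff_C_mul, coeff_map, coeff_map]
      refine (norm_sub_le _ _).trans ?_
      rw [norm_mul, hz, one_mul]
      nlinarith [hcA φ i, hcB φ i]

end sELIM

section sCH

theorem p_CH (hFIB : S_FIB) (hMH : S_MH) (hELIM : S_ELIM) :
    S_CH := by
  intro K m D e J g A B r c M hm hA hB hr hne hc
  have hD := M.res_ne (ie K.val) (Nat.cast_ne_zero.2 M.pos.ne')
  have dA : (A.map (ie K.val)).natDegree ≤ m := natDegree_map_le.trans M.dA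
  have dB : (B.map (ie K.val)).natDegree ≤ m := natDegree_map_le.trans M.dB
  choose f f1 f2 using (hFIB ⊤ m g ⟨_, _, fun _ => trivial, fun _ => trivial, dA, dB,
    fun v hv => vm_ne hm M.dA M.dB _ hD hv, M.eq⟩).1 hm
  obtain ⟨R, r1, r2, r3⟩ := hELIM _ r A B m e J hm M.dA M.dB fun j => (hr j).1
  by_contra h
  push Not at h
  set S := rts (cb r A B J) K.val
  let q : Qbar → Qbar := fun α => (A.map (ie K.val)).eval α / (B.map (ie K.val)).eval α
  have k : ∀ α ∈ S, (B.map (ie K.val)).eval α ≠ 0 ∧ g (some α) = some (q α) := fun α a => by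
    have b := h α a
    rw [M.eq, im_some dA dB] at b ⊢
    split_ifs at b ⊢ with c
    · exact absurd b (by simp [weilHeight])
    · exact ⟨c, rfl⟩
  have h1 : #S ≤ m * #(S.image q) := card_le_mul_card_image _ _ fun y _ =>
    (card_le_card fun α a => f2 (some y) α (by
      rw [(k α (mem_filter.1 a).1).2, (mem_filter.1 a).2])).trans (f1 _)
  have h2 := hMH (R.map (ie K.val)) (S.image q) _ (r2 _ hD (mem_rts.1 hne.choose_spec).1)
    (fun i => by rw [coeff_map]; exact ie_int _ _)
    (fun φ => by rw [Polynomial.map_map]; exact r3 c hA hB (fun j => (hr j).2) _)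
    (forall_mem_image.2 fun α a => r1 _ α (mem_rts.1 a).2 (k α a).1)
  have h3 : ∑ _x ∈ S.image q, (1 : ℝ) < _ := (sum_lt_sum_of_nonempty (hne.image q)
    (forall_mem_image.2 fun α a => (k α a).2 ▸ h α a)).trans_le h2
  rw [Real.log_pow, sum_const, nsmul_one] at h3
  have h4 : (#S : ℝ) ≤ m * #(S.image q) := by exact_mod_cast h1
  exact (hc.trans h4).not_gt (mul_lt_mul_of_pos_left h3 (Nat.cast_pos.2 hm))

end sCH

section sNUM

lemma num_ev (A B : ℝ) : ∃ m : ℕ, ∀ n : ℕ, m ≤ n → A * Real.log n + B ≤ n :=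
  Filter.eventually_atTop.1 ((tendsto_natCast_atTop_atTop.eventually
    (((Real.isLittleO_log_id_atTop.const_mul_left A).add
      (Asymptotics.isLittleO_const_id_atTop B)).bound one_pos)).mono fun n h => by
    simpa using (le_abs_self _).trans h)

theorem p_NUM :
    S_NUM := by
  intro a
  obtain ⟨l0, h0⟩ := num_ev (4 * a) 1
  refine ⟨l0 + 1, fun l hl c hc => ?_⟩
  obtain ⟨n0, h1⟩ := num_ev (8 * a) (2 * a * (Real.log c + Real.log l))
  refine ⟨n0 + 1, fun n hn => ?_⟩
  have l1 : (0 : ℝ) < l := Nat.cast_pos.2 (by omega)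
  have n1 : (0 : ℝ) < n := Nat.cast_pos.2 (by omega)
  have h2 : (((n - 1) / (l - 1) * (l - 1) : ℕ) : ℝ) ≤ n :=
    Nat.cast_le.2 ((Nat.div_mul_le_self _ _).trans (Nat.sub_le _ _))
  rw [Nat.cast_mul, Nat.cast_pred (n := l) (by omega)] at h2
  have h3 := mul_le_mul_of_nonneg_left (le_sub_iff_add_le.2 (h0 l (by omega)))
    (Nat.cast_nonneg (α := ℝ) ((n - 1) / (l - 1)))
  have h4 := h1 n (by omega)
  rw [Real.log_mul (by positivity) (by positivity), Real.log_mul (by positivity) (by positivity),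
    Real.log_pow, Real.log_pow, Nat.cast_succ (2 * _), Nat.cast_mul]
  push_cast
  linarith

end sNUM

end Pool.Agent.P.MP_8d2e9f_nt.G
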