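import Pool.Agent.P.MP_8d2e9f_nt.G.Iface

/-! Steps STEP, CNT, TOW, DYN, GAP, MAIN. -/

namespace Pool.Agent.P.MP_8d2e9f_nt.G

open Polynomial Finset NumberField
open scoped Classical

section sSTEP

theorem step_nc {K : IF} (hK : Fd K) {S : Set Qbar} (hS : S.Finite) :
    ∃ M : IF, Fd M ∧ Normal ℚ M ∧ K ≤ M ∧ ∀ x ∈ S, x ∈ M := by
  have := hS.to_subtype
  have : Fd (IntermediateField.adjoin ℚ S) :=
    IntermediateField.finiteDimensional_adjoin fun x _ => int_Q x
  have h := IntermediateField.le_normalClosure (K ⊔ IntermediateField.adjoin ℚ S)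
  exact ⟨_, normalClosure.is_finiteDimensional _ _ _, normalClosure.normal _ _ _, le_sup_left.trans h,
    fun x hx => (le_sup_right.trans h) (IntermediateField.subset_adjoin ℚ S hx)⟩

theorem p_STEP (hFIB : S_FIB) (hNOR : S_NOR) (hPER : S_PER) (hCORE : S_CORE) :
    S_STEP := by
  intro K K' Φ B g hK hn hK' hKK hΦ hd ⟨m, hm, hg⟩
  have := hΦ.to_subtype
  choose d d2 hd using fun φ : Φ => hd φ φ.2
  choose F N hF hP using fun φ : Φ => hPER (d φ) φ (d2 φ) (hd φ)
  obtain ⟨N0, hN⟩ := Finite.bddAbove_range N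
  obtain ⟨l, _, j, h1, h2, h3⟩ := hCORE K (K' ⊔ ⨆ φ, F φ) m N0 g hK hn inferInstance
    (hKK.trans le_sup_left) hm hg
  have hS : (⋃ φ : Φ, {t | some t ∈ pts (TT j) ∩ Function.periodicPts φ.1} ∪
      ⋃ y ∈ {y | y ∈ pts K' ∧ weilHeight y ≤ B}, {t | φ.1 (some t) = y}).Finite := by
    refine Set.finite_iUnion fun φ => .union ?_ ((hNOR K' B hK').biUnion fun y _ => ?_)
    · exact (hP φ l j ((hN ⟨φ, rfl⟩).trans_lt h1)
        (((le_iSup F φ).trans le_sup_right).trans h2)).preimage (Option.some_injective _).injOn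
    · obtain ⟨s, -, hs⟩ := (hFIB ⊤ _ _ (hd φ)).1 (by have := d2 φ; omega) y
      exact s.finite_toSet.subset hs
  obtain ⟨M, m1, m2, m3, m4⟩ := step_nc hK' hS
  obtain ⟨L, l1, l2, l3, l4, α, a1, a2, a3⟩ := h3 M m1 m2 (hKK.trans m3)
  refine ⟨L, l1, l2, fun E e1 e2 φ hφ x hx hs => ?_, α, a1, fun e => a2 (m3 (hKK e)), a3⟩
  rcases x with _ | t
  · exact none_mem_pts E
  refine some_mem_pts.2 (l4 E e1 (e2.trans m3) ⟨some_mem_pts.1 hx,
    m4 t (Set.mem_iUnion.2 ⟨⟨φ, hφ⟩, hs.imp (fun h => ⟨pts_mono ?_ hx, h⟩) fun h => ?_⟩)⟩)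
  · exact sup_le ((e2.trans le_sup_left).trans h2) l3
  · exact Set.mem_biUnion (x := φ (some t)) ⟨pts_mono e2 h.1, h.2⟩ rfl

end sSTEP

section sCNT

lemma cnt_vm (d : ℕ) (v : Qbar × Qbar) : vm (X ^ d) 1 d v = (v.1 ^ d, v.2 ^ d) := by
  rw [vm, ← pow_zero X, hv_X_pow le_rfl, hv_X_pow d.zero_le]
  simp

lemma cnt_rm (d : ℕ) : RM ⊥ d (im (X ^ d) 1 d) :=
  ⟨_, _, fun i => by rw [coeff_X_pow]; split_ifs; exacts [one_mem _, zero_mem _],
    fun i => by rw [coeff_one]; split_ifs; exacts [one_mem _, zero_mem _], natDegree_X_pow_le d,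
    by simp, fun v hv e => by
      rw [cnt_vm, Prod.mk_eq_zero] at e
      exact hv (Prod.ext (eq_zero_of_pow_eq_zero e.1) (eq_zero_of_pow_eq_zero e.2)), rfl⟩

theorem p_CNT :
    S_CNT := by
  have : Countable Qbar := Cardinal.mk_le_aleph0_iff.1
    ((Algebra.IsAlgebraic.cardinalMk_le_max ℚ Qbar).trans (by simp))
  have : Countable Qbar[X] := Cardinal.mk_le_aleph0_iff.1
    (Polynomial.cardinalMk_le_max.trans (by simp))
  refine ⟨?_, ?_, ?_⟩
  · obtain ⟨e, he⟩ := Set.Countable.exists_eq_range (s := {φ | ∃ d, 2 ≤ d ∧ RM ⊤ d φ})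
      ((Set.countable_range fun t : Qbar[X] × Qbar[X] × ℕ => im t.1 t.2.1 t.2.2).mono
        fun φ ⟨d, _, A, B, _, _, _, _, _, h⟩ => Set.mem_range.2 ⟨(A, B, d), h.symm⟩)
      ⟨_, 2, le_rfl, (cnt_rm 2).mono bot_le⟩
    refine ⟨fun i => e i.unpair.1, fun i => he.ge (Set.mem_range_self _), fun d φ a b n => ?_⟩
    obtain ⟨k, hk⟩ := he.le ⟨d, a, b⟩
    exact ⟨k.pair n, k.right_le_pair n, by simpa using hk⟩
  · obtain ⟨γ, hγ⟩ := exists_surjective_nat Qbar
    refine ⟨fun i => IntermediateField.adjoin ℚ (γ '' Set.Iio i), fun i j h =>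
      IntermediateField.adjoin.mono _ _ _ (Set.image_mono (Set.Iio_subset_Iio h)), fun i => ?_,
      fun E hE => ?_⟩
    · have := ((Set.finite_Iio i).image γ).to_subtype
      exact IntermediateField.finiteDimensional_adjoin fun x _ => int_Q x
    · obtain ⟨a, ha⟩ := Field.exists_primitive_element ℚ E
      obtain ⟨n, hn⟩ := hγ a
      refine ⟨n + 1, ?_⟩
      have h := (IntermediateField.lift_adjoin_simple _ E a).symm.trans
        ((congrArg IntermediateField.lift ha).trans (IntermediateField.lift_top _ E))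
      exact h.ge.trans (IntermediateField.adjoin.mono _ _ _
        (Set.singleton_subset_iff.2 ⟨n, n.lt_succ_self, hn⟩))
  · convert cnt_rm 1
    funext x
    rw [im, cnt_vm, pow_one, pow_one, pt_lf, id]

end sCNT

section sTOW

theorem p_TOW (hSTEP : S_STEP) (hCNT : S_CNT) :
    S_TOW := by
  obtain ⟨⟨e, e1, e2⟩, ⟨F, f1, f2, f3⟩, hid⟩ := hCNT
  have step : ∀ (i : ℕ) (K : {K : IF // Fd K ∧ Normal ℚ K}),
      ∃ K' : {K : IF // Fd K ∧ Normal ℚ K}, K.1 ≤ K'.1 ∧
        (∀ E, E ≤ F i → ∀ j ≤ i, ∀ x ∈ pts (K'.1 ⊔ E), Spc (e j) (K.1 ⊔ E) i x →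
          x ∈ pts (K.1 ⊔ E)) ∧ ((∃ m, 0 < m ∧ RM K.1 m (e i)) →
            ∃ α ∈ K'.1, α ∉ K.1 ∧ weilHeight (e i (some α)) ≤ 1) := by
    rintro i ⟨K, k1, k2⟩
    have := f2 i
    obtain ⟨L, l1, l2, l3, α, l4, l5, l6⟩ := hSTEP K (K ⊔ F i) (e '' Set.Iic i) i
      (if ∃ m, 0 < m ∧ RM K m (e i) then e i else id) k1 k2 inferInstance le_sup_left
      ((Set.finite_Iic i).image e) (by rintro _ ⟨j, -, rfl⟩; exact e1 j) (by
        split_ifs with c
        exacts [c, ⟨1, one_pos, hid.mono bot_le⟩])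
    refine ⟨⟨K ⊔ L, inferInstance, @IntermediateField.normal_sup ℚ Qbar _ _ _ K L k2 l2⟩, le_sup_left, fun E hE j hj x hx => ?_,
      fun c => ⟨α, (le_sup_right : L ≤ K ⊔ L) l4, l5, by rwa [if_pos c] at l6⟩⟩
    rw [sup_right_comm] at hx
    exact l3 _ le_sup_left (sup_le_sup_left hE K) _ ⟨j, hj, rfl⟩ x hx
  choose s s1 s2 s3 using step
  let K : ℕ → {K : IF // Fd K ∧ Normal ℚ K} :=
    fun n => Nat.rec ⟨⊥, inferInstance, .of_algEquiv (IntermediateField.botEquiv ℚ Qbar).symm⟩ s n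
  have hm : Monotone fun i => (K i).1 := monotone_nat_of_le_succ fun i => s1 i (K i)
  refine ⟨fun i => (K i).1, hm, fun i => (K i).2, fun E d φ B hE hd hφ => ?_,
    fun d n g hd hg => ?_⟩
  · obtain ⟨a, ha⟩ := f3 E hE
    obtain ⟨j, -, rfl⟩ := e2 d φ hd hφ 0
    obtain ⟨b, hb⟩ := exists_nat_ge B
    refine ⟨a + j + b, fun i hi x hx h => s2 i (K i) E (ha.trans (f1 (by omega))) j (by omega) x hx
      (h.imp_right fun h => ⟨h.1, h.2.trans (hb.trans (Nat.cast_le.2 (by omega)))⟩)⟩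
  · obtain ⟨i, hi, rfl⟩ := e2 d g hd (hg.mono le_top) n
    exact ⟨i, hi, s3 i (K i) ⟨d, by omega, hg.mono (hm hi)⟩⟩

end sTOW

section sDYN

lemma dyn_mem {E : ℕ → IF} (hE : Monotone E) {x : ProjLine} (hx : x ∈ pts (⨆ i, E i)) :
    ∃ k, x ∈ pts (E k) := by
  cases x with
  | none => exact ⟨0, none_mem_pts _⟩
  | some y =>
    rw [some_mem_pts, ← SetLike.mem_coe, IntermediateField.coe_iSup_of_directed hE.directed_le,
      Set.mem_iUnion] at hx
    exact hx.imp fun k hk => some_mem_pts.2 hk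

lemma dyn_desc {E : ℕ → IF} (hE : Monotone E) {φ : ProjLine → ProjLine} {B : ℝ} {n : ℕ}
    (h : ∀ i, n ≤ i → ∀ x ∈ pts (E (i + 1)), Spc φ (E i) B x → x ∈ pts (E i)) {i : ℕ} (hi : n ≤ i)
    {x : ProjLine} (hx : x ∈ pts (⨆ i, E i)) (hs : Spc φ (E i) B x) : x ∈ pts (E i) := by
  obtain ⟨k, hk⟩ := dyn_mem hE hx
  have key : ∀ m, i ≤ m → x ∈ pts (E m) → x ∈ pts (E i) := fun m hm => by
    induction m, hm using Nat.le_induction with
    | base => exact id
    | succ m hm ih =>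
      exact fun a => ih (h m (hi.trans hm) x a (hs.imp_right fun b => ⟨pts_mono (hE hm) b.1, b.2⟩))
  exact key (max k i) (le_max_right _ _) (pts_mono (hE (le_max_left _ _)) hk)

lemma dyn_pp {φ : ProjLine → ProjLine} {y : ProjLine} {k : ℕ} (hk : 0 < k) (h : φ^[k] y = y) :
    y ∈ PP φ := by
  refine ((Set.finite_lt_nat k).image fun i => φ^[i] y).subset ?_
  rintro _ ⟨i, rfl⟩
  exact ⟨i % k, Nat.mod_lt _ hk, Function.IsPeriodicPt.iterate_mod_apply h i⟩

theorem p_DYN (hHGT : S_HGT) (hCAN : S_CAN) (hNOR : S_NOR) :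
    S_DYN := by
  intro E d φ hE hfd hd hφ hB
  obtain ⟨C, hC⟩ := hHGT d φ (by omega) (hφ.mono le_top)
  obtain ⟨H, h1, h2⟩ := hCAN _ φ weilHeight d C hd hC
  have hd' : (2 : ℝ) ≤ d := by exact_mod_cast hd
  have hit : ∀ (a : ℕ) x, H (φ^[a] x) = d ^ a * H x := fun a x => by
    induction a with
    | zero => simp
    | succ a ih => rw [Function.iterate_succ_apply', h1, ih, pow_succ]; ring
  have hht : ∀ x, weilHeight x ≤ |H x| + C := fun x => by
    have := (abs_le.1 (h2 x)).1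
    have := le_abs_self (H x)
    linarith
  have hfin : (pts (⨆ i, E i) ∩ PP φ).Finite := by
    obtain ⟨n, hn⟩ := hB C
    have key : ∀ (a : ℕ) x, x ∈ pts (⨆ i, E i) → H x = 0 → φ^[a] x ∈ Function.periodicPts φ →
        x ∈ pts (E n) := fun a => by
      induction a with
      | zero => exact fun x hx _ h => dyn_desc hE hn le_rfl hx (Or.inl h)
      | succ a ih =>
        intro x hx h0 h
        have h3 : H (φ x) = 0 := by rw [h1, h0, mul_zero]
        refine dyn_desc hE hn le_rfl hx (Or.inr ⟨ih _ ((hφ.mono (le_iSup E 0)).mem hx) h3 h, ?_⟩)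
        simpa [h3] using hht (φ x)
    refine (hNOR (E n) C (hfd n)).subset fun x hx => ?_
    obtain ⟨a, b, hab, e⟩ := Set.Finite.exists_lt_map_eq_of_forall_mem
      (f := fun n : ℕ => φ^[n] x) (fun n => Set.mem_range_self n) hx.2
    have h0 : H x = 0 := by
      have h3 := congrArg H e
      rw [hit, hit] at h3
      exact (mul_eq_mul_right_iff.1 h3).resolve_left (pow_lt_pow_right₀ (by linarith) hab).ne
    refine ⟨key a x hx.1 h0 ⟨b - a, by omega, ?_⟩, by simpa [h0] using hht x⟩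
    change φ^[b - a] (φ^[a] x) = φ^[a] x
    rw [← Function.iterate_add_apply, Nat.sub_add_cancel hab.le, e]
  refine ⟨hfin, fun Y hY himg => hfin.subset fun y hy => ⟨hY hy, by_contra fun hnp => ?_⟩⟩
  have h3 : ∀ x ∈ Y, ∃ z ∈ Y, φ z = x := fun x hx => by
    rw [← himg] at hx
    exact hx
  choose! s hs hs' using h3
  let x : ℕ → ProjLine := fun i => s^[i] y
  have hxs : ∀ i, x (i + 1) = s (x i) := fun i => Function.iterate_succ_apply' s i y
  have hxY : ∀ i, x i ∈ Y := fun i => by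
    induction i with
    | zero => exact hy
    | succ i ih => rw [hxs]; exact hs _ ih
  have hxφ : ∀ i, φ (x (i + 1)) = x i := fun i => by rw [hxs]; exact hs' _ (hxY i)
  have hx0 : ∀ i, φ^[i] (x i) = y := fun i => by
    induction i with
    | zero => rfl
    | succ i ih => rw [Function.iterate_succ_apply, hxφ, ih]
  have hH : ∀ i, weilHeight (x i) ≤ |H y| + C := fun i => by
    have : |H (x i)| ≤ |H y| := by
      rw [← hx0 i, hit, abs_mul, abs_of_nonneg (by positivity : (0 : ℝ) ≤ d ^ i)]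
      exact le_mul_of_one_le_left (abs_nonneg _) (one_le_pow₀ (by linarith))
    linarith [hht (x i)]
  obtain ⟨n, hn⟩ := hB (|H y| + C)
  obtain ⟨m, hm⟩ := dyn_mem hE (hY hy)
  have hxE : ∀ i, x i ∈ pts (E (max m n)) := fun i => by
    induction i with
    | zero => exact pts_mono (hE (le_max_left _ _)) hm
    | succ i ih =>
      refine dyn_desc hE hn (le_max_right _ _) (hY (hxY _)) (Or.inr ?_)
      rw [hxφ]
      exact ⟨ih, hH i⟩
  obtain ⟨a, b, hab, e⟩ := Set.Finite.exists_lt_map_eq_of_forall_mem (f := x)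
    (fun i => (⟨hxE i, hH i⟩ : x i ∈ {x | x ∈ pts (E (max m n)) ∧ weilHeight x ≤ |H y| + C}))
    (hNOR _ _ (hfd _))
  refine hnp (dyn_pp (k := b - a) (by omega) ?_)
  have h4 := hx0 b
  rwa [← e, show b = (b - a) + a by omega, Function.iterate_add_apply, hx0 a] at h4

end sDYN

section sGAP

theorem p_GAP (hCOMP : S_COMP) (hHGT : S_HGT) (hCAN : S_CAN) :
    S_GAP := by
  intro K d n φ hK hd hφ hfin ht
  obtain ⟨C, hC⟩ := hHGT d φ (by omega) (hφ.mono le_top)
  obtain ⟨H, h1, h2⟩ := hCAN _ φ _ d C hd hC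
  refine ⟨H, h1, ⟨C, h2⟩, fun c hc => ?_⟩
  obtain ⟨m, hm⟩ := Filter.eventually_atTop.1 ((Filter.eventually_all_finite
    (p := fun x m => x ∈ pts (K m)) hfin).2 fun x hx => by
      rcases x with _ | x
      · simp
      · have h3 : x ∈ ((⨆ i, K i : IF) : Set Qbar) := some_mem_pts.1 hx.1
        rw [IntermediateField.coe_iSup_of_directed hK.directed_le, Set.mem_iUnion] at h3
        obtain ⟨i, hi⟩ := h3
        exact Filter.eventually_atTop.2 ⟨i, fun j hj => some_mem_pts.2 (hK hj hi)⟩)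
  have d1 : (1 : ℝ) < d := by exact_mod_cast hd
  obtain ⟨k, hk⟩ := pow_unbounded_of_one_lt ((1 + C) / c) d1
  have hk' : (1 + C) / c < (d : ℝ) ^ (k + 1) := hk.trans (pow_lt_pow_right₀ d1 k.lt_succ_self)
  obtain ⟨i, hi, α, a1, a2, a3⟩ := ht (d ^ (k + 1)) (max n m) φ^[k + 1]
    (hd.trans (Nat.le_self_pow k.succ_ne_zero d))
    (((hCOMP _ d φ hφ).2 _).mono (hK (le_max_left _ _)))
  have a4 : some α ∈ pts (⨆ i, K i) := some_mem_pts.2 (le_iSup K (i + 1) a1)
  refine ⟨_, a4, fun e => a2 (some_mem_pts.1 (hm i ((le_max_right _ _).trans hi) _ ⟨a4, e⟩)), ?_⟩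
  have it : ∀ (j : ℕ) x, H (φ^[j] x) = d ^ j * H x := fun j x => by
    induction j with
    | zero => simp
    | succ j ih => rw [Function.iterate_succ_apply', h1, ih, pow_succ', mul_assoc]
  have h4 := (abs_le.1 (h2 (φ^[k + 1] (some α)))).2
  rw [it] at h4
  rw [div_lt_iff₀ hc] at hk'
  exact lt_of_mul_lt_mul_left (a := (d : ℝ) ^ (k + 1)) (by linarith) (by positivity)

end sGAP

section sMAIN

lemma main_le (F : IF) (E : IntermediateField F Qbar) [FiniteDimensional F E] :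
    ∃ E0 : IF, Fd E0 ∧ ∀ x ∈ E, x ∈ F ⊔ E0 := by
  obtain ⟨s, rfl⟩ : E.FG := IntermediateField.essFiniteType_iff.1 inferInstance
  exact ⟨IntermediateField.adjoin ℚ s, IntermediateField.finiteDimensional_adjoin fun x _ => int_Q x,
    fun x hx => (IntermediateField.restrictScalars_adjoin_eq_sup ℚ F s).le hx⟩

lemma main_poly (p : Qbar[X]) : ratDegree (algebraMap Qbar[X] (RatFunc Qbar) p) = p.natDegree ∧
    ∀ x, ratMap (algebraMap Qbar[X] (RatFunc Qbar) p) (some x) = some (p.eval x) := by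
  refine ⟨?_, fun x => ?_⟩
  · simp [ratDegree, RatFunc.num_algebraMap, RatFunc.denom_algebraMap]
  · simp [ratMap, RatFunc.num_algebraMap, RatFunc.denom_algebraMap]

theorem p_MAIN (hRF : S_RF) (hMOD : S_MOD) (hTOW : S_TOW) (hDYN : S_DYN) (hGAP : S_GAP) :
    S_MAIN := by
  obtain ⟨K, mono, hK, h1, h2⟩ := hTOW
  have nK := fun i => (hK i).2
  have dyn : ∀ E0 : IF, Fd E0 → ∀ f : RatFunc Qbar, 2 ≤ ratDegree f →
      (pts ((⨆ i, K i) ⊔ E0) ∩ PrePer f).Finite ∧
        ∀ Y ⊆ pts ((⨆ i, K i) ⊔ E0), ratMap f '' Y = Y → Y.Finite := fun E0 f0 f hf => by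
    have r := hRF ⊤ f fun _ => ⟨trivial, trivial⟩
    obtain ⟨E1, f1, r1⟩ := hMOD.2 _ _ r
    have f2 : Fd (E0 ⊔ E1) := IntermediateField.finiteDimensional_sup _ _
    obtain ⟨a, b⟩ := hDYN (fun i => K i ⊔ (E0 ⊔ E1)) _ _ (fun i k h => sup_le_sup_right (mono h) _)
      (fun i => have := (hK i).1; IntermediateField.finiteDimensional_sup _ _) hf
      (r1.mono (le_sup_right.trans le_sup_right)) fun B => h1 _ _ _ B f2 hf r
    have le : pts ((⨆ i, K i) ⊔ E0) ⊆ pts (⨆ i, K i ⊔ (E0 ⊔ E1)) :=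
      pts_mono (sup_le (iSup_mono fun i => le_sup_left)
        (le_iSup_of_le 0 (le_sup_left.trans le_sup_right)))
    exact ⟨a.subset (Set.inter_subset_inter_left _ le), fun Y hY => b Y (hY.trans le)⟩
  have gap : ∀ f : RatFunc Qbar, DefinedOver (⨆ i, K i).toSubfield f → 2 ≤ ratDegree f →
      ∃ H, IsCanonicalHeight f H ∧ ∀ c : ℝ, 0 < c →
        ∃ α ∈ pointsOver (⨆ i, K i).toSubfield, α ∉ PrePer f ∧ H α < c := fun f hf hd => by
    have mem : ∀ y ∈ (⨆ n, K n), ∃ n, y ∈ K n := fun y hy => by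
      rwa [← SetLike.mem_coe, IntermediateField.coe_iSup_of_directed mono.directed_le,
        Set.mem_iUnion] at hy
    have lev : ∀ p : Qbar[X], (∀ i, p.coeff i ∈ ⨆ n, K n) → ∃ n, ∀ i, p.coeff i ∈ K n :=
      fun p hp => by
        choose c hc using fun i => mem _ (hp i)
        refine ⟨p.support.sup c, fun i => ?_⟩
        by_cases h : i ∈ p.support
        · exact mono (le_sup (f := c) h) (hc i)
        · rw [notMem_support_iff.1 h]
          exact zero_mem _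
    obtain ⟨a, ha⟩ := lev f.num fun i => (hf i).1
    obtain ⟨b, hb⟩ := lev f.denom fun i => (hf i).2
    obtain ⟨H, c1, c2, c3⟩ := hGAP K _ (max a b) _ mono hd (hRF _ f fun i =>
      ⟨mono (le_max_left a b) (ha i), mono (le_max_right a b) (hb i)⟩)
      ((dyn ⊥ inferInstance f hd).1.subset
        (Set.inter_subset_inter_left _ (pts_mono le_sup_left))) h2
    exact ⟨H, ⟨c1, c2⟩, c3⟩
  refine ⟨⨆ i, K i, isGalois_iff.2 ⟨IntermediateField.isSeparable_tower_bot ℚ _,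
    IntermediateField.normal_iSup ℚ Qbar K (h := nK)⟩, fun E _ => ?_, gap, fun h => ?_⟩
  · obtain ⟨E0, f0, le⟩ := main_le _ E
    have le' : pointsOver E.toSubfield ⊆ pts ((⨆ i, K i) ⊔ E0) := by
      rintro _ (rfl | ⟨x, hx, rfl⟩)
      · simp
      · exact some_mem_pts.2 (le x hx)
    refine ⟨fun f hf ⟨S, hS, him⟩ => by_contra fun hne => hS ?_, fun f hf =>
      ⟨(dyn E0 f0 f hf).1.subset (Set.inter_subset_inter_left _ le'),
        fun Y hY => (dyn E0 f0 f hf).2 Y (hY.trans le')⟩⟩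
    obtain ⟨d1, d2⟩ := main_poly (f.map E.toSubfield.subtype)
    refine Set.Finite.of_finite_image (f := fun x : E.toSubfield => (some x.1 : ProjLine))
      ((dyn E0 f0 _ (by rw [d1, natDegree_map]; omega)).2 _ ?_ ?_)
      fun x _ y _ e => Subtype.ext (Option.some.inj e)
    · rintro _ ⟨x, -, rfl⟩
      exact some_mem_pts.2 (le _ x.2)
    · conv_rhs => rw [← him]
      rw [Set.image_image, Set.image_image]
      refine Set.image_congr fun x _ => ?_
      rw [d2, eval_map]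
      exact congrArg some (eval₂_at_apply E.toSubfield.subtype x)
  · obtain ⟨d1, -⟩ := main_poly (X ^ 2)
    rw [natDegree_X_pow] at d1
    obtain ⟨H, c1, c2⟩ := gap (algebraMap Qbar[X] (RatFunc Qbar) (X ^ 2)) (fun i => by
      rw [RatFunc.num_algebraMap, RatFunc.denom_algebraMap, coeff_X_pow, coeff_one]
      constructor <;> split_ifs <;> simp) d1.ge
    obtain ⟨⟨c, hc, low⟩, -⟩ := h _ d1.ge H c1
    obtain ⟨α, a1, a2, a3⟩ := c2 c hc
    exact (low α a1 a2).not_gt a3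

end sMAIN

end Pool.Agent.P.MP_8d2e9f_nt.G
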