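import Pool.Agent.P.MP_8d2e9f_nt.G.MA
import Pool.Agent.P.MP_8d2e9f_nt.G.MB
import Pool.Agent.P.MP_8d2e9f_nt.G.MC
import Pool.Agent.P.MP_8d2e9f_nt.G.MD
import Pool.Agent.P.MP_8d2e9f_nt.G.ME

/-! Assembly. -/

namespace Pool.Agent.P.MP_8d2e9f_nt.G

theorem all_RF : S_RF := p_RF
theorem all_COMP : S_COMP := p_COMP
theorem all_FIB : S_FIB := p_FIB
theorem all_MOD : S_MOD := p_MOD
theorem all_LG : S_LG := p_LG
theorem all_HGT : S_HGT := p_HGT all_MOD all_LG
theorem all_CAN : S_CAN := p_CAN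
theorem all_NOR : S_NOR := p_NOR
theorem all_MH : S_MH := p_MH all_LG
theorem all_SPL : S_SPL := p_SPL
theorem all_PAD : S_PAD := p_PAD
theorem all_PER : S_PER := p_PER all_COMP all_FIB all_MOD all_PAD
theorem all_HEN : S_HEN := p_HEN
theorem all_SP : S_SP := p_SP all_HEN
theorem all_EIS : S_EIS := p_EIS
theorem all_SWP : S_SWP := p_SWP all_HEN all_EIS
theorem all_LOC : S_LOC := p_LOC
theorem all_RA : S_RA := p_RA all_EIS all_LOC
theorem all_RC : S_RC := p_RC all_SWP all_LOC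
theorem all_SYM : S_SYM := p_SYM
theorem all_DIS : S_DIS := p_DIS
theorem all_CG : S_CG := p_CG all_SP all_RA all_RC all_SYM all_DIS
theorem all_IDEM : S_IDEM := p_IDEM
theorem all_RED : S_RED := p_RED
theorem all_SPAN : S_SPAN := p_SPAN
theorem all_CP : S_CP := p_CP all_RED all_SPAN
theorem all_CRT : S_CRT := p_CRT
theorem all_ELIM : S_ELIM := p_ELIM
theorem all_CH : S_CH := p_CH all_FIB all_MH all_ELIM
theorem all_NUM : S_NUM := p_NUM
theorem all_CORE : S_CORE := p_CORE all_MOD all_SPL all_CG all_IDEM all_CP all_CRT all_CH all_NUM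
theorem all_STEP : S_STEP := p_STEP all_FIB all_NOR all_PER all_CORE
theorem all_CNT : S_CNT := p_CNT
theorem all_TOW : S_TOW := p_TOW all_STEP all_CNT
theorem all_DYN : S_DYN := p_DYN all_HGT all_CAN all_NOR
theorem all_GAP : S_GAP := p_GAP all_COMP all_HGT all_CAN
theorem all_MAIN : S_MAIN := p_MAIN all_RF all_MOD all_TOW all_DYN all_GAP

end Pool.Agent.P.MP_8d2e9f_nt.G
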