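import Pool.Agent.P.MP_8d2e9f_nt.G.Defs
import Pool.Agent.P.MP_8d2e9f_nt.Height
import Pool.Agent.P.MP_8d2e9f_nt.Orbit
import Pool.Agent.P.MP_8d2e9f_nt.Padic

/-! Binary forms, maps of the projective line, models and `p`-adic embeddings. -/

namespace Pool.Agent.P.MP_8d2e9f_nt.G

open Polynomial Finset NumberField
open scoped Classical

noncomputable section

instance : Algebra.IsAlgebraic ℚ Qbar := AlgebraicClosure.isAlgebraic ℚ

instance : IsAlgClosure ℚ Qbar := ⟨inferInstance, inferInstance⟩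

instance : IsGalois ℚ Qbar := inferInstance

/-- Subfields of `Qbar`. -/
abbrev IF : Type := IntermediateField ℚ Qbar

/-- The absolute Galois group. -/
abbrev Gam : Type := Qbar ≃ₐ[ℚ] Qbar

/-- Finite degree over `ℚ`. -/
abbrev Fd (E : IF) : Prop := FiniteDimensional ℚ E

instance (E : IF) [FiniteDimensional ℚ E] : NumberField E := {}

lemma int_Q (x : Qbar) : IsIntegral ℚ x := (Algebra.IsAlgebraic.isAlgebraic x).isIntegral

/-! ### Binary forms -/

section hv

variable {R S : Type} [CommRing R] [CommRing S]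

/-- The value of the form of degree `d` attached to `p`. -/
def hv (p : R[X]) (d : ℕ) (v : R × R) : R :=
  ∑ i ∈ range (d + 1), p.coeff i * v.1 ^ i * v.2 ^ (d - i)

/-- The map of the plane given by two forms of degree `d`. -/
def vm (A B : R[X]) (d : ℕ) (v : R × R) : R × R := (hv A d v, hv B d v)

variable {p q A B : R[X]} {d e : ℕ}

lemma hv_one (h : p.natDegree ≤ d) (x : R) : hv p d (x, 1) = p.eval x := by
  simp [hv, eval_eq_sum_range' (Nat.lt_succ_of_le h)]

lemma hv_inf (p : R[X]) (d : ℕ) (x : R) : hv p d (x, 0) = p.coeff d * x ^ d := by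
  rw [hv, sum_range_succ, sum_eq_zero fun i hi => by
    rw [zero_pow (Nat.sub_ne_zero_of_lt (mem_range.1 hi)), mul_zero]]
  simp

lemma hv_smul (p : R[X]) (d : ℕ) (c : R) (v : R × R) : hv p d (c • v) = c ^ d * hv p d v := by
  rw [hv, hv, mul_sum]
  refine sum_congr rfl fun i hi => ?_
  obtain ⟨k, rfl⟩ := Nat.exists_eq_add_of_le (Nat.lt_succ_iff.1 (mem_range.1 hi))
  simp only [Prod.smul_fst, Prod.smul_snd, smul_eq_mul, add_tsub_cancel_left]
  ring

lemma map_hv (f : R →+* S) (p : R[X]) (d : ℕ) (v : R × R) :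
    f (hv p d v) = hv (p.map f) d (Prod.map f f v) := by simp [hv]

lemma hv_add (p q : R[X]) (d : ℕ) (v : R × R) : hv (p + q) d v = hv p d v + hv q d v := by
  simp [hv, add_mul, sum_add_distrib]

lemma hv_sub (p q : R[X]) (d : ℕ) (v : R × R) : hv (p - q) d v = hv p d v - hv q d v := by
  simp [hv, sub_mul, sum_sub_distrib]

lemma hv_C_mul (c : R) (p : R[X]) (d : ℕ) (v : R × R) : hv (C c * p) d v = c * hv p d v := by
  simp [hv, mul_sum, mul_assoc]

lemma hv_sum {ι : Type} (s : Finset ι) (f : ι → R[X]) (d : ℕ) (v : R × R) :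
    hv (∑ i ∈ s, f i) d v = ∑ i ∈ s, hv (f i) d v := by
  simp only [hv, finsetSum_coeff, sum_mul]
  exact sum_comm

lemma hv_eq (p : R[X]) (d : ℕ) (v : R × R) :
    hv p d v = MvPolynomial.eval ![v.1, v.2] (p.homogenize d) := by
  rw [hv, homogenize, map_sum, Finset.Nat.sum_antidiagonal_eq_sum_range_succ_mk]
  refine sum_congr rfl fun i _ => ?_
  simp [MvPolynomial.eval_monomial, mul_assoc]

lemma hv_mul (hp : p.natDegree ≤ d) (hq : q.natDegree ≤ e) (v : R × R) :
    hv (p * q) (d + e) v = hv p d v * hv q e v := by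
  rw [hv_eq, hv_eq, hv_eq, homogenize_mul _ _ hp hq, map_mul]

lemma hv_pow (hp : p.natDegree ≤ d) (n : ℕ) (v : R × R) : hv (p ^ n) (n * d) v = hv p d v ^ n := by
  induction n with
  | zero => simp [hv]
  | succ n ih =>
    rw [pow_succ, pow_succ, Nat.succ_mul, hv_mul (natDegree_pow_le_of_le n hp) hp, ih]

lemma hv_X_pow {k : ℕ} (h : k ≤ d) (v : R × R) :
    hv (X ^ k : R[X]) d v = v.1 ^ k * v.2 ^ (d - k) := by
  rw [hv, sum_eq_single k (fun i _ hi => by simp [coeff_X_pow, hi]) (by simp; omega)]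
  simp

lemma vm_smul (A B : R[X]) (d : ℕ) (c : R) (v : R × R) :
    vm A B d (c • v) = c ^ d • vm A B d v := by simp [vm, hv_smul]

lemma map_vm (f : R →+* S) (A B : R[X]) (d : ℕ) (v : R × R) :
    Prod.map f f (vm A B d v) = vm (A.map f) (B.map f) d (Prod.map f f v) := by
  simp [vm, map_hv]

/-- Every polynomial of degree at most `s + d` is a combination, up to the resultant. -/
lemma bez (hd : 0 < d) (hA : A.natDegree ≤ d) (hB : B.natDegree ≤ d) {s : ℕ} (hs : d ≤ s + 1)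
    (T : R[X]) (hT : T.natDegree ≤ s + d) : ∃ U V : R[X], U.natDegree ≤ s ∧ V.natDegree ≤ s ∧
      A * U + B * V = C (resultant A B d d) * T := by
  have h0 : ∀ k < d + d, ∃ U V : R[X], U.natDegree ≤ d - 1 ∧ V.natDegree ≤ d - 1 ∧
      A * U + B * V = C (resultant A B d d) * X ^ k := fun k hk => by
    have hX : (X ^ k : R[X]) ∈ degreeLT R (d + d) :=
      mem_degreeLT.2 ((degree_X_pow_le k).trans_lt (by exact_mod_cast hk))
    have h := congrArg Subtype.val
      (DFunLike.congr_fun (sylveserMap_comp_adjSylvester A B hA hB) ⟨_, hX⟩)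
    have b : ∀ u : degreeLT R d, u.1.natDegree ≤ d - 1 := fun u => by
      rcases eq_or_ne u.1 0 with e | e
      · simp [e]
      · have := (natDegree_lt_iff_degree_lt e).2 (mem_degreeLT.1 u.2)
        omega
    exact ⟨_, _, b (adjSylvester A B ⟨_, hX⟩).2, b (adjSylvester A B ⟨_, hX⟩).1, by
      simpa [smul_eq_C_mul] using h⟩
  have h1 : ∀ k ≤ s + d, ∃ U V : R[X], U.natDegree ≤ s ∧ V.natDegree ≤ s ∧
      A * U + B * V = C (resultant A B d d) * X ^ k := fun k hk => by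
    rcases lt_or_ge k (d + d) with h | h
    · obtain ⟨U, V, a, b, c⟩ := h0 k h
      exact ⟨U, V, by omega, by omega, c⟩
    · obtain ⟨U, V, a, b, c⟩ := h0 (d + d - 1) (by omega)
      obtain ⟨t, rfl⟩ : ∃ t, k = t + (d + d - 1) := ⟨k - (d + d - 1), by omega⟩
      have g : ∀ W : R[X], W.natDegree ≤ d - 1 → (X ^ t * W).natDegree ≤ s := fun W hW =>
        (natDegree_mul_le_of_le (natDegree_X_pow_le t) hW).trans (by omega)
      exact ⟨_, _, g U a, g V b, by rw [pow_add]; linear_combination X ^ t * c⟩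
  choose! U V a b c using h1
  have g : ∀ W : ℕ → R[X], (∀ k ≤ s + d, (W k).natDegree ≤ s) →
      (∑ k ∈ range (s + d + 1), C (T.coeff k) * W k).natDegree ≤ s := fun W hW =>
    natDegree_sum_le_of_forall_le _ _ fun k hk =>
      (natDegree_C_mul_le _ _).trans (hW k (Nat.lt_succ_iff.1 (mem_range.1 hk)))
  refine ⟨_, _, g U a, g V b, ?_⟩
  conv_rhs => rw [T.as_sum_range_C_mul_X_pow' (Nat.lt_succ_of_le hT)]
  rw [mul_sum, mul_sum, mul_sum, ← sum_add_distrib]
  refine sum_congr rfl fun k hk => ?_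
  linear_combination C (T.coeff k) * c k (Nat.lt_succ_iff.1 (mem_range.1 hk))

/-- The two homogeneous identities of Bezout. -/
lemma bez_hv (hd : 0 < d) (hA : A.natDegree ≤ d) (hB : B.natDegree ≤ d) :
    ∃ U V U' V' : R[X], ∀ (S : Type) [CommRing S] (f : R →+* S) (v : S × S),
      hv (A.map f) d v * hv (U.map f) d v + hv (B.map f) d v * hv (V.map f) d v =
        f (resultant A B d d) * v.1 ^ (d + d) ∧
      hv (A.map f) d v * hv (U'.map f) d v + hv (B.map f) d v * hv (V'.map f) d v =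
        f (resultant A B d d) * v.2 ^ (d + d) := by
  have key : ∀ k ≤ d + d, ∃ U V : R[X], ∀ (S : Type) [CommRing S] (f : R →+* S) (v : S × S),
      hv (A.map f) d v * hv (U.map f) d v + hv (B.map f) d v * hv (V.map f) d v =
        f (resultant A B d d) * (v.1 ^ k * v.2 ^ (d + d - k)) := fun k hk => by
    obtain ⟨U, V, a, b, c⟩ := bez hd hA hB d.le_succ (X ^ k) ((natDegree_X_pow_le k).trans hk)
    refine ⟨U, V, fun S _ f v => ?_⟩
    have g : ∀ {W : R[X]}, W.natDegree ≤ d → (W.map f).natDegree ≤ d := fun h =>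
      natDegree_map_le.trans h
    rw [← hv_mul (g hA) (g a), ← hv_mul (g hB) (g b), ← hv_add, ← Polynomial.map_mul,
      ← Polynomial.map_mul, ← Polynomial.map_add, c, Polynomial.map_mul, map_C, hv_C_mul,
      Polynomial.map_pow, map_X, hv_X_pow hk]
  obtain ⟨U, V, h⟩ := key (d + d) le_rfl
  obtain ⟨U', V', h'⟩ := key 0 (Nat.zero_le _)
  exact ⟨U, V, U', V', fun S _ f v => ⟨by simpa using h S f v, by simpa using h' S f v⟩⟩

/-- The combination of the products `A ^ j * B ^ (J - j)`. -/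
def cb (r : ℕ → R[X]) (A B : R[X]) (J : ℕ) : R[X] :=
  ∑ j ∈ range (J + 1), r j * A ^ j * B ^ (J - j)

lemma map_cb (f : R →+* S) (r : ℕ → R[X]) (A B : R[X]) (J : ℕ) :
    (cb r A B J).map f = cb (fun j => (r j).map f) (A.map f) (B.map f) J := by
  simp [cb, Polynomial.map_sum]

lemma natDegree_cb {r : ℕ → R[X]} (hr : ∀ j, (r j).natDegree ≤ e) (hA : A.natDegree ≤ d)
    (hB : B.natDegree ≤ d) (J : ℕ) : (cb r A B J).natDegree ≤ d * J + e := by
  refine natDegree_sum_le_of_forall_le _ _ fun j hj => ?_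
  obtain ⟨k, rfl⟩ := Nat.exists_eq_add_of_le (Nat.lt_succ_iff.1 (mem_range.1 hj))
  refine (natDegree_mul_le_of_le (natDegree_mul_le_of_le (hr j) (natDegree_pow_le_of_le j hA))
    (natDegree_pow_le_of_le _ hB)).trans_eq ?_
  rw [add_tsub_cancel_left]
  ring

variable (R) in
/-- The polynomial with roots `0, ..., n - 1`. -/
def T0 (n : ℕ) : R[X] := ∏ a ∈ range n, (X - C (a : R))

variable (R) in
/-- An Eisenstein polynomial. -/
def T1 (n q : ℕ) : R[X] := X ^ n - C (q : R)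

variable (R) in
/-- An Eisenstein quadratic times the polynomial with roots `1, ..., n - 2`. -/
def T2 (n : ℕ) : R[X] := (X ^ 2 - C (n : R)) * ∏ a ∈ Ico 1 (n - 1), (X - C (a : R))

lemma map_T0 (f : R →+* S) (n : ℕ) : (T0 R n).map f = T0 S n := by
  simp [T0, Polynomial.map_prod]

lemma map_T1 (f : R →+* S) (n q : ℕ) : (T1 R n q).map f = T1 S n q := by simp [T1]

lemma map_T2 (f : R →+* S) (n : ℕ) : (T2 R n).map f = T2 S n := by
  simp [T2, Polynomial.map_prod]

lemma deg_prod (s : Finset ℕ) : (∏ a ∈ s, (X - C (a : R))).natDegree ≤ #s :=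
  (natDegree_prod_le _ _).trans ((sum_le_card_nsmul s _ 1 fun _ _ =>
    natDegree_X_sub_C_le _).trans_eq (by simp))

lemma deg_T0 (n : ℕ) : (T0 R n).natDegree ≤ n := (deg_prod _).trans_eq (card_range n)

lemma deg_T1 (n q : ℕ) : (T1 R n q).natDegree ≤ n := by
  rw [T1, natDegree_sub_C]
  exact natDegree_X_pow_le n

lemma deg_T2 {n : ℕ} (h : 2 ≤ n) : (T2 R n).natDegree ≤ n := by
  refine (natDegree_mul_le_of_le (m := 2) ?_ (deg_prod _)).trans (by simp; omega)
  rw [natDegree_sub_C]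
  exact natDegree_X_pow_le 2

/-- Congruence of polynomials modulo a natural number. -/
def Cg (k : ℕ) (P T : R[X]) : Prop := C (k : R) ∣ P - T

lemma Cg.map {k : ℕ} {P T : R[X]} (h : Cg k P T) (f : R →+* S) : Cg k (P.map f) (T.map f) := by
  simpa [Cg] using Polynomial.map_dvd f h

lemma Cg.of_dvd {k l : ℕ} {P T : R[X]} (h : Cg k P T) (hl : l ∣ k) : Cg l P T :=
  (_root_.map_dvd C (Nat.cast_dvd_cast hl)).trans h

lemma Cg.trans {k : ℕ} {P T W : R[X]} (h : Cg k P T) (h' : Cg k T W) : Cg k P W := by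
  simpa [Cg] using dvd_add h h'

lemma cg_iff {k : ℕ} {P T : R[X]} : Cg k P T ↔ ∀ i, (k : R) ∣ P.coeff i - T.coeff i := by
  simp only [Cg, C_dvd_iff_dvd_coeff, coeff_sub]

end hv

/-! ### Points of the projective line -/

section pt

variable {F K : Type} [Field F] [Field K]

/-- The point with homogeneous coordinates `v`. -/
def pt (v : F × F) : Option F := if v.2 = 0 then none else some (v.1 / v.2)

/-- Homogeneous coordinates of a point. -/
def lf : Option F → F × F
  | none => (1, 0)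
  | some x => (x, 1)

/-- The self-map of the projective line given by two forms of degree `d`. -/
def im (A B : F[X]) (d : ℕ) (x : Option F) : Option F := pt (vm A B d (lf x))

@[simp] lemma pt_lf (x : Option F) : pt (lf x) = x := by cases x <;> simp [pt, lf]

lemma lf_ne (x : Option F) : lf x ≠ 0 := by cases x <;> simp [lf]

lemma pt_smul {c : F} (hc : c ≠ 0) (v : F × F) : pt (c • v) = pt v := by
  simp [pt, hc, mul_div_mul_left]

lemma exists_smul {v : F × F} (h : v ≠ 0) : ∃ c : F, c ≠ 0 ∧ v = c • lf (pt v) := by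
  obtain ⟨a, b⟩ := v
  by_cases hb : b = 0
  · subst hb
    exact ⟨a, fun e => h (by simp [e]), by simp [pt, lf]⟩
  · exact ⟨b, hb, by simp [pt, lf, hb, mul_div_cancel₀]⟩

lemma im_pt (A B : F[X]) (d : ℕ) {v : F × F} (h : v ≠ 0) : im A B d (pt v) = pt (vm A B d v) := by
  obtain ⟨c, hc, e⟩ := exists_smul h
  conv_rhs => rw [e, vm_smul, pt_smul (pow_ne_zero _ hc)]
  rfl

lemma pt_eq_iff {v w : F × F} (h : v ≠ 0) (h' : w ≠ 0) : pt v = pt w ↔ v.1 * w.2 = v.2 * w.1 := by
  obtain ⟨a, b⟩ := v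
  obtain ⟨c, d⟩ := w
  by_cases hb : b = 0 <;> by_cases hd : d = 0 <;>
    simp_all [pt, div_eq_div_iff, mul_comm, Prod.ext_iff]

lemma map_pt (j : F →+* K) (v : F × F) : (pt v).map j = pt (Prod.map j j v) := by
  by_cases h : v.2 = 0 <;> simp [pt, h]

lemma map_lf (j : F →+* K) (x : Option F) : Prod.map j j (lf x) = lf (x.map j) := by
  cases x <;> simp [lf]

lemma map_im (j : F →+* K) (A B : F[X]) (d : ℕ) (x : Option F) :
    (im A B d x).map j = im (A.map j) (B.map j) d (x.map j) := by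
  rw [im, map_pt, map_vm, map_lf, im]

lemma im_some {A B : F[X]} {d : ℕ} (hA : A.natDegree ≤ d) (hB : B.natDegree ≤ d) (x : F) :
    im A B d (some x) = if B.eval x = 0 then none else some (A.eval x / B.eval x) := by
  simp only [im, pt, vm, lf, hv_one hA, hv_one hB]

lemma im_none (A B : F[X]) (d : ℕ) :
    im A B d none = if B.coeff d = 0 then none else some (A.coeff d / B.coeff d) := by
  simp only [im, pt, vm, lf, hv_inf, one_pow, mul_one]

/-- Forms with nonzero resultant have no common zero. -/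
lemma vm_ne {R : Type} [CommRing R] {A B : R[X]} {d : ℕ} (hd : 0 < d) (hA : A.natDegree ≤ d)
    (hB : B.natDegree ≤ d) (f : R →+* F) (h : f (resultant A B d d) ≠ 0) {v : F × F}
    (hv0 : v ≠ 0) : vm (A.map f) (B.map f) d v ≠ 0 := fun e => by
  obtain ⟨U, V, U', V', k⟩ := bez_hv hd hA hB
  obtain ⟨k1, k2⟩ := k F f v
  obtain ⟨e1, e2⟩ := Prod.ext_iff.1 e
  simp only [vm, Prod.fst_zero, Prod.snd_zero] at e1 e2
  rw [e1, e2, zero_mul, zero_mul, zero_add, eq_comm, mul_eq_zero, or_iff_right h] at k1 k2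
  exact hv0 (Prod.ext (eq_zero_of_pow_eq_zero k1) (eq_zero_of_pow_eq_zero k2))

end pt

/-! ### Rational maps over subfields of `Qbar` -/

/-- The points defined over `E`. -/
def pts (E : IF) : Set ProjLine := pointsOver E.toSubfield

@[simp] lemma none_mem_pts (E : IF) : none ∈ pts E := Or.inl rfl

@[simp] lemma some_mem_pts {E : IF} {x : Qbar} : some x ∈ pts E ↔ x ∈ E := by
  simp [pts, pointsOver]

lemma pts_mono {E E' : IF} (h : E ≤ E') : pts E ⊆ pts E' := by
  rintro (_ | x) hx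
  · simp
  · exact some_mem_pts.2 (h (some_mem_pts.1 hx))

/-- `φ` is a rational map of degree `d` defined over `E`. -/
def RM (E : IF) (d : ℕ) (φ : ProjLine → ProjLine) : Prop :=
  ∃ A B : Qbar[X], (∀ i, A.coeff i ∈ E) ∧ (∀ i, B.coeff i ∈ E) ∧ A.natDegree ≤ d ∧
    B.natDegree ≤ d ∧ (∀ v, v ≠ 0 → vm A B d v ≠ 0) ∧ φ = im A B d

lemma RM.mono {E E' : IF} {d : ℕ} {φ : ProjLine → ProjLine} (h : RM E d φ) (hE : E ≤ E') :
    RM E' d φ := by
  obtain ⟨A, B, a, b, c⟩ := h
  exact ⟨A, B, fun i => hE (a i), fun i => hE (b i), c⟩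

lemma RM.mem {E : IF} {d : ℕ} {φ : ProjLine → ProjLine} (h : RM E d φ) {x : ProjLine}
    (hx : x ∈ pts E) : φ x ∈ pts E := by
  obtain ⟨A, B, a, b, -, -, -, rfl⟩ := h
  have k : (lf x).1 ∈ E ∧ (lf x).2 ∈ E := by
    cases x
    · exact ⟨one_mem _, zero_mem _⟩
    · exact ⟨some_mem_pts.1 hx, one_mem _⟩
  have g : ∀ p : Qbar[X], (∀ i, p.coeff i ∈ E) → hv p d (lf x) ∈ E := fun p hp =>
    sum_mem fun i _ => mul_mem (mul_mem (hp i) (pow_mem k.1 _)) (pow_mem k.2 _)
  rw [im, pt]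
  split_ifs
  · simp
  · exact some_mem_pts.2 (div_mem (g A a) (g B b))

/-- The map of the ring of integers given by an embedding. -/
def ie {E : IF} (τ : E →ₐ[ℚ] Qbar) : 𝓞 E →+* Qbar := (τ : E →+* Qbar).comp (algebraMap (𝓞 E) E)

lemma ie_apply {E : IF} (τ : E →ₐ[ℚ] Qbar) (x : 𝓞 E) : ie τ x = τ x := rfl

lemma ie_inj {E : IF} (τ : E →ₐ[ℚ] Qbar) : Function.Injective (ie τ) :=
  (τ : E →+* Qbar).injective.comp (FaithfulSMul.algebraMap_injective _ _)

lemma ie_int {E : IF} (τ : E →ₐ[ℚ] Qbar) (x : 𝓞 E) : IsIntegral ℤ (ie τ x) :=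
  x.isIntegral_coe.map (τ : E →+* Qbar).toIntAlgHom

/-- An integral model of `φ` whose resultant divides `D`. -/
structure Mdl (E : IF) (d : ℕ) (φ : ProjLine → ProjLine) (A B : (𝓞 E)[X]) (D : ℕ) : Prop where
  dA : A.natDegree ≤ d
  dB : B.natDegree ≤ d
  pos : 0 < D
  dvd : resultant A B d d ∣ (D : 𝓞 E)
  eq : φ = im (A.map (ie E.val)) (B.map (ie E.val)) d

lemma Mdl.res_ne {E : IF} {d D : ℕ} {φ : ProjLine → ProjLine} {A B : (𝓞 E)[X]}
    (h : Mdl E d φ A B D) {S : Type} [CommRing S] (f : 𝓞 E →+* S) (hD : (D : S) ≠ 0) :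
    f (resultant A B d d) ≠ 0 := fun e => hD (by
  have := map_dvd f h.dvd
  rwa [e, zero_dvd_iff, map_natCast] at this)

/-- All complex values of all coefficients are at most `c`. -/
def Bd {O : Type} [CommRing O] (p : O[X]) (c : ℝ) : Prop := ∀ (φ : O →+* ℂ) i, ‖φ (p.coeff i)‖ ≤ c

lemma exists_bd {O : Type} [CommRing O] {x : O} (hx : IsIntegral ℤ x) :
    ∃ c : ℝ, ∀ φ : O →+* ℂ, ‖φ x‖ ≤ c := by
  obtain ⟨p, h1, h2⟩ := hx
  obtain ⟨c, hc⟩ := ((p.map (algebraMap ℤ ℂ)).roots.finite_toSet.image norm).bddAbove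
  refine ⟨c, fun φ => hc ⟨_, (mem_roots (h1.map _).ne_zero).2 ?_, rfl⟩⟩
  rw [IsRoot, eval_map, Subsingleton.elim (algebraMap ℤ ℂ) (φ.comp (algebraMap ℤ O)), ← hom_eval₂,
    h2, map_zero]

lemma exists_Bd {E : IF} (p : (𝓞 E)[X]) : ∃ c : ℝ, 1 ≤ c ∧ Bd p c := by
  choose c hc using fun i => exists_bd (RingOfIntegers.isIntegral (p.coeff i))
  obtain ⟨b, hb⟩ := (p.support.finite_toSet.image c).bddAbove
  refine ⟨max 1 b, le_max_left _ _, fun φ i => ?_⟩
  by_cases h : i ∈ p.support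
  · exact (hc i φ).trans ((hb ⟨i, h, rfl⟩).trans (le_max_right _ _))
  · simp [notMem_support_iff.1 h]

lemma Bd.mono {O : Type} [CommRing O] {p : O[X]} {c c' : ℝ} (h : Bd p c) (h' : c ≤ c') : Bd p c' :=
  fun φ i => (h φ i).trans h'

/-- The roots of a conjugate of `P`. -/
def rts {E : IF} (P : (𝓞 E)[X]) (τ : E →ₐ[ℚ] Qbar) : Finset Qbar := (P.map (ie τ)).roots.toFinset

lemma mem_rts {E : IF} {P : (𝓞 E)[X]} {τ : E →ₐ[ℚ] Qbar} {x : Qbar} :
    x ∈ rts P τ ↔ P.map (ie τ) ≠ 0 ∧ (P.map (ie τ)).eval x = 0 := by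
  rw [rts, Multiset.mem_toFinset, mem_roots', IsRoot]

/-- The points with finite forward orbit. -/
def PP (φ : ProjLine → ProjLine) : Set ProjLine := {α | (Set.range fun n : ℕ => φ^[n] α).Finite}

/-- A periodic point, or a preimage of a point of `E` of height at most `B`. -/
def Spc (φ : ProjLine → ProjLine) (E : IF) (B : ℝ) (x : ProjLine) : Prop :=
  x ∈ Function.periodicPts φ ∨ (φ x ∈ pts E ∧ weilHeight (φ x) ≤ B)

/-- The larger of the values at the two coordinates. -/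
def mx {L : Type} (u : L → ℝ) (v : L × L) : ℝ := max (u v.1) (u v.2)

/-! ### `p`-adic embeddings -/

/-- An algebraic closure of the `p`-adic field. -/
abbrev Om (p : ℕ) [Fact p.Prime] : Type := AlgebraicClosure ℚ_[p]

section padic

variable {p : ℕ} [Fact p.Prime]

variable (p) in
/-- The inclusion of the `p`-adic integers. -/
def zo : ℤ_[p] →+* Om p := (algebraMap ℚ_[p] (Om p)).comp (algebraMap ℤ_[p] ℚ_[p])

lemma zo_apply (x : ℤ_[p]) : zo p x = algebraMap ℚ_[p] (Om p) x := rfl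

lemma zo_inj : Function.Injective (zo p) :=
  (algebraMap ℚ_[p] (Om p)).injective.comp Subtype.val_injective

/-- The algebraic numbers that the embedding `j` sends to `p`-adic numbers. -/
def TT (j : Qbar →+* Om p) : IF :=
  ((algebraMap ℚ_[p] (Om p)).fieldRange.comap j).toIntermediateField fun x => ⟨x, by simp⟩

lemma mem_TT {j : Qbar →+* Om p} {x : Qbar} :
    x ∈ TT j ↔ ∃ z : ℚ_[p], algebraMap ℚ_[p] (Om p) z = j x := Iff.rfl

lemma int_TT {j : Qbar →+* Om p} {x : Qbar} (h : x ∈ TT j) (hx : IsIntegral ℤ x) :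
    ∃ z : ℤ_[p], zo p z = j x := by
  obtain ⟨z, e⟩ := h
  have h1 : IsIntegral ℤ (algebraMap ℚ_[p] (Om p) z) := e ▸ hx.map j.toIntAlgHom
  exact ⟨⟨z, norm_le_one_of_isIntegral ((isIntegral_algHom_iff
    (algebraMap ℚ_[p] (Om p)).toIntAlgHom (algebraMap ℚ_[p] (Om p)).injective).1 h1)⟩, e⟩

/-- The map of the ring of integers to the `p`-adic integers. -/
lemma exists_lift {j : Qbar →+* Om p} {E : IF} (τ : E →ₐ[ℚ] Qbar) (h : ∀ x, τ x ∈ TT j) :
    ∃ ι : 𝓞 E →+* ℤ_[p], ∀ x, zo p (ι x) = j (ie τ x) := by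
  choose f hf using fun x : 𝓞 E => int_TT (h x) (ie_int τ x)
  have hf' : ∀ x, zo p (f x) = j (ie τ x) := hf
  exact ⟨⟨⟨⟨f, zo_inj (by simp [hf'])⟩, fun x y => zo_inj (by simp [hf'])⟩,
    zo_inj (by simp [hf']), fun x y => zo_inj (by simp [hf'])⟩, hf'⟩

end padic

end

end Pool.Agent.P.MP_8d2e9f_nt.G
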