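import Mathlib

/-! Heights, rational maps and the properties (SB), (USB), (P) of subfields of `Qbar`. -/

namespace Pool.Agent.P.MP_8d2e9f_nt.G

/-- The fixed algebraic closure of `ℚ`. -/
abbrev Qbar : Type := AlgebraicClosure ℚ

/-- The projective line over `Qbar`: `some x` is the point `x`, and `none` is the point `∞`. -/
abbrev ProjLine : Type := Option Qbar

/-- The absolute logarithmic Weil height on the projective line (`h ∞ = 0`). -/
noncomputable def weilHeight : ProjLine → ℝ
  | none => 0
  | some x => NumberField.absLogHeight₁ x

/-- The degree of a rational function: the maximum of the degrees of its coprime numerator and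
denominator. -/
noncomputable def ratDegree (f : RatFunc Qbar) : ℕ := max f.num.natDegree f.denom.natDegree

open Classical in
/-- The self-map of the projective line given by a rational function `f = num / denom`
(in lowest terms). -/
noncomputable def ratMap (f : RatFunc Qbar) : ProjLine → ProjLine
  | none =>
    if f.denom.natDegree < f.num.natDegree then none
    else some (f.num.coeff f.denom.natDegree / f.denom.leadingCoeff)
  | some x => if f.denom.eval x = 0 then none else some (f.num.eval x / f.denom.eval x)

/-- `H` is the canonical height of `f`: `H (f α) = deg f * H α` and `H = h + O(1)`. -/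
def IsCanonicalHeight (f : RatFunc Qbar) (H : ProjLine → ℝ) : Prop :=
  (∀ α, H (ratMap f α) = ratDegree f * H α) ∧ ∃ C : ℝ, ∀ α, |H α - weilHeight α| ≤ C

/-- The preperiodic points of `f`: points with finite forward orbit. -/
def PrePer (f : RatFunc Qbar) : Set ProjLine :=
  {α | (Set.range fun n : ℕ => (ratMap f)^[n] α).Finite}

/-- The points of the projective line defined over the subfield `F`. -/
def pointsOver (F : Subfield Qbar) : Set ProjLine := {α | α = none ∨ ∃ x ∈ F, α = some x}

/-- The strong Bogomolov property (SB) of `F` relative to the height function `H` of `f`. -/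
def StrongBogomolov (F : Subfield Qbar) (f : RatFunc Qbar) (H : ProjLine → ℝ) : Prop :=
  (∃ c : ℝ, 0 < c ∧ ∀ α ∈ pointsOver F, α ∉ PrePer f → c ≤ H α) ∧
    (pointsOver F ∩ PrePer f).Finite

/-- Property (USB): (SB) relative to the canonical height of every `f` of degree at least 2. -/
def PropertyUSB (F : Subfield Qbar) : Prop :=
  ∀ f : RatFunc Qbar, 2 ≤ ratDegree f → ∀ H : ProjLine → ℝ, IsCanonicalHeight f H →
    StrongBogomolov F f H

/-- Property (P): a nonconstant `f ∈ F[x]` with `f(S) = S` for some infinite `S ⊆ F` has
degree one. -/
def PropertyP (F : Subfield Qbar) : Prop :=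
  ∀ f : Polynomial F, 0 < f.natDegree →
    (∃ S : Set F, S.Infinite ∧ (fun x => f.eval x) '' S = S) → f.natDegree = 1

/-- The rational function `f` lies in `F(x)`: its numerator and its monic denominator (in lowest
terms) have all coefficients in `F`. -/
def DefinedOver (F : Subfield Qbar) (f : RatFunc Qbar) : Prop :=
  ∀ i, f.num.coeff i ∈ F ∧ f.denom.coeff i ∈ F

end Pool.Agent.P.MP_8d2e9f_nt.G
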