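import Pool.Agent.P.MP_8d2e9f_nt.G.Base

/-! The intermediate statements. -/

namespace Pool.Agent.P.MP_8d2e9f_nt.G

open Polynomial Finset NumberField
open scoped Classical

/-! ### Rational maps and heights -/

-- deps:
def S_RF : Prop := ∀ (E : IF) (f : RatFunc Qbar), DefinedOver E.toSubfield f →
  RM E (ratDegree f) (ratMap f)

-- deps:
def S_COMP : Prop := ∀ (E : IF) (d : ℕ) (φ : ProjLine → ProjLine), RM E d φ →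
  (∀ d' ψ, RM E d' ψ → RM E (d * d') (φ ∘ ψ)) ∧ ∀ k, RM E (d ^ k) φ^[k]

-- deps:
def S_FIB : Prop := ∀ (E : IF) (d : ℕ) (φ : ProjLine → ProjLine), RM E d φ →
  (0 < d → ∀ y, ∃ s : Finset Qbar, #s ≤ d ∧ ∀ t, φ (some t) = y → t ∈ s) ∧
    (2 ≤ d → {x | φ x = x}.Finite)

-- deps:
def S_MOD : Prop :=
  (∀ (E : IF) (d : ℕ) (φ : ProjLine → ProjLine), Fd E → RM E d φ → ∃ A B D, Mdl E d φ A B D) ∧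
    ∀ (d : ℕ) (φ : ProjLine → ProjLine), RM ⊤ d φ → ∃ E, Fd E ∧ RM E d φ

-- deps:
def S_LG : Prop := ∀ (L : IF) [Fd L] (ι κ : Type) (s : Finset ι) (t : Finset κ) (w : ι → L × L)
  (v : κ → L × L) (a : L) (c : ℝ), a ≠ 0 → (∀ i ∈ s, w i ≠ 0) → (∀ k ∈ t, v k ≠ 0) →
  (∀ u : FinitePlace L, u a * ∏ i ∈ s, mx u (w i) ≤ ∏ k ∈ t, mx u (v k)) →
  (∀ φ : L →+* ℂ, ‖φ a‖ * ∏ i ∈ s, mx (fun x => ‖φ x‖) (w i) ≤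
    c * ∏ k ∈ t, mx (fun x => ‖φ x‖) (v k)) →
  ∑ i ∈ s, weilHeight (pt (((w i).1 : Qbar), ((w i).2 : Qbar))) ≤
    ∑ k ∈ t, weilHeight (pt (((v k).1 : Qbar), ((v k).2 : Qbar))) + Real.log c

-- deps: MOD LG
def S_HGT : Prop := ∀ (d : ℕ) (φ : ProjLine → ProjLine), 0 < d → RM ⊤ d φ →
  ∃ C : ℝ, ∀ x, |weilHeight (φ x) - d * weilHeight x| ≤ C

-- deps:
def S_CAN : Prop := ∀ (Y : Type) (φ : Y → Y) (h : Y → ℝ) (d : ℕ) (C : ℝ), 2 ≤ d →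
  (∀ x, |h (φ x) - d * h x| ≤ C) → ∃ H : Y → ℝ, (∀ x, H (φ x) = d * H x) ∧ ∀ x, |H x - h x| ≤ C

-- deps:
def S_NOR : Prop := ∀ (E : IF) (B : ℝ), Fd E → {x | x ∈ pts E ∧ weilHeight x ≤ B}.Finite

-- deps: LG
def S_MH : Prop := ∀ (R : Qbar[X]) (s : Finset Qbar) (B : ℝ), R ≠ 0 →
  (∀ i, IsIntegral ℤ (R.coeff i)) → (∀ φ : Qbar →+* ℂ, (R.map φ).mahlerMeasure ≤ B) →
  (∀ x ∈ s, R.eval x = 0) → ∑ x ∈ s, weilHeight (some x) ≤ Real.log B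

/-! ### Local statements -/

-- deps:
def S_SPL : Prop := ∀ (M : IF) (N : ℕ), Fd M →
  ∃ (p : ℕ) (_ : Fact p.Prime) (j : Qbar →+* Om p), N < p ∧ M ≤ TT j

-- deps:
def S_PAD : Prop := ∀ (p : ℕ) [Fact p.Prime], Odd p → ∃ N : ℕ, 0 < N ∧
  ∀ (A B : ℤ_[p][X]) (d : ℕ), 0 < d → A.natDegree ≤ d → B.natDegree ≤ d →
    IsUnit (resultant A B d d) → ∀ x ∈ Function.periodicPts
      (im (A.map (algebraMap ℤ_[p] ℚ_[p])) (B.map (algebraMap ℤ_[p] ℚ_[p])) d),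
      (im (A.map (algebraMap ℤ_[p] ℚ_[p])) (B.map (algebraMap ℤ_[p] ℚ_[p])) d)^[N] x = x

-- deps: COMP FIB MOD PAD
def S_PER : Prop := ∀ (d : ℕ) (φ : ProjLine → ProjLine), 2 ≤ d → RM ⊤ d φ →
  ∃ (K : IF) (N : ℕ), Fd K ∧ ∀ (p : ℕ) [Fact p.Prime] (j : Qbar →+* Om p), N < p → K ≤ TT j →
    (pts (TT j) ∩ Function.periodicPts φ).Finite

-- deps:
def S_HEN : Prop := ∀ (p : ℕ) [Fact p.Prime] (P E : ℤ_[p][X]) (s : Finset ℕ) (N : ℕ), 0 < N →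
  Cg (p ^ N) P (E * ∏ a ∈ s, (X - C (a : ℤ_[p]))) →
  (∀ a ∈ s, 1 < (p : ℝ) ^ N * ‖E.eval (a : ℤ_[p]) * ∏ c ∈ s.erase a, ((a : ℤ_[p]) - c)‖ ^ 2) →
  ∃ (z : ℕ → ℤ_[p]) (Q : ℤ_[p][X]), P = Q * ∏ a ∈ s, (X - C (z a)) ∧ Cg p Q E

-- deps: HEN
def S_SP : Prop := ∀ (p : ℕ) [Fact p.Prime] (P : ℤ_[p][X]) (n N : ℕ), P.natDegree ≤ n →
  2 * ((n - 1) / (p - 1)) < N → Cg (p ^ N) P (T0 _ n) →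
  ∀ z : Om p, (P.map (zo p)).eval z = 0 → ∃ w : ℚ_[p], algebraMap ℚ_[p] (Om p) w = z

-- deps:
def S_EIS : Prop := ∀ (p : ℕ) [Fact p.Prime] (Q : ℤ_[p][X]) (n : ℕ), 0 < n → Q.natDegree ≤ n →
  Cg p Q (X ^ n) → ¬ (p : ℤ_[p]) ^ 2 ∣ Q.coeff 0 →
  Irreducible (Q.map (algebraMap ℤ_[p] ℚ_[p])) ∧ Q.natDegree = n

-- deps: HEN EIS
def S_SWP : Prop := ∀ (p : ℕ) [Fact p.Prime] (P : ℤ_[p][X]), P.natDegree ≤ p →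
  Cg (p ^ 2) P (T2 _ p) → ∃ Q : ℚ_[p][X], Irreducible Q ∧ Q.natDegree = 2 ∧
    Q ∣ P.map (algebraMap ℤ_[p] ℚ_[p]) ∧ ∀ z : Om p, (P.map (zo p)).eval z = 0 →
      (∃ w : ℚ_[p], algebraMap ℚ_[p] (Om p) w = z) ∨ aeval z Q = 0

-- deps:
def S_LOC : Prop := ∀ (p : ℕ) [Fact p.Prime] (j : Qbar →+* Om p) (Q : ℚ_[p][X]) (a b : Qbar),
  Irreducible Q → aeval (j a) Q = 0 → aeval (j b) Q = 0 →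
  ∃ σ : Gam, σ a = b ∧ ∀ x ∈ TT j, σ x = x

-- deps: EIS LOC
def S_RA : Prop := ∀ (p : ℕ) [Fact p.Prime] (j : Qbar →+* Om p) (K : IF) (τ : K →ₐ[ℚ] Qbar)
  (ι : 𝓞 K →+* ℤ_[p]) (P : (𝓞 K)[X]) (n : ℕ), (∀ x, zo p (ι x) = j (ie τ x)) → 0 < n →
  P.natDegree ≤ n → Cg (p ^ 2) (P.map ι) (T1 _ n p) → P.map (ie τ) ≠ 0 ∧ #(rts P τ) = n ∧
    ∀ a ∈ rts P τ, ∀ b ∈ rts P τ, ∃ σ : Gam, σ a = b ∧ ∀ x ∈ TT j, σ x = x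

-- deps: SWP LOC
def S_RC : Prop := ∀ (p : ℕ) [Fact p.Prime] (j : Qbar →+* Om p) (K : IF) (τ : K →ₐ[ℚ] Qbar)
  (ι : 𝓞 K →+* ℤ_[p]) (P : (𝓞 K)[X]), (∀ x, zo p (ι x) = j (ie τ x)) → P.map (ie τ) ≠ 0 →
  P.natDegree ≤ p → Cg (p ^ 2) (P.map ι) (T2 _ p) → ∃ σ : Gam, (∀ x ∈ TT j, σ x = x) ∧
    ∃ a ∈ rts P τ, ∃ b ∈ rts P τ, a ≠ b ∧ σ a = b ∧ ∀ x ∈ rts P τ, x ≠ a → x ≠ b → σ x = x

/-! ### Galois theory -/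

-- deps:
def S_SYM : Prop := ∀ (H : Subgroup Gam) (I : Type) [Fintype I] (R : I → Finset Qbar),
  (∀ i, (#(R i)).Prime) → (∀ σ ∈ H, ∀ i, ∀ x ∈ R i, σ x ∈ R i) →
  (∀ i, ∀ a ∈ R i, ∀ b ∈ R i, ∃ σ ∈ H, σ a = b) →
  (∀ i, ∃ σ ∈ H, (∀ k, k ≠ i → ∀ x ∈ R k, σ x = x) ∧
    ∃ a ∈ R i, ∃ b ∈ R i, a ≠ b ∧ σ a = b ∧ ∀ x ∈ R i, x ≠ a → x ≠ b → σ x = x) →
  ∀ s : Gam, (∀ i, ∀ x ∈ R i, s x ∈ R i) → ∃ σ ∈ H, ∀ i, ∀ x ∈ R i, σ x = s x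

-- deps:
def S_DIS : Prop := ∀ (E M : IF) (S : Set Qbar), E ≤ M →
  (∀ s ∈ E.fixingSubgroup, ∃ σ ∈ M.fixingSubgroup, ∀ x ∈ S, σ x = s x) →
  (E ⊔ IntermediateField.adjoin ℚ S) ⊓ M ≤ E

-- deps: SP RA RC SYM DIS
def S_CG : Prop := ∀ (K M : IF) (l r q N : ℕ) [Fact l.Prime] [Fact r.Prime] [Fact q.Prime]
  (jl : Qbar →+* Om l) (jr : Qbar →+* Om r) (jq : Qbar →+* Om q)
  (ι : (K →ₐ[ℚ] Qbar) → 𝓞 K →+* ℤ_[q]) (ε : 𝓞 K) (P : (𝓞 K)[X]), Fd K → Normal ℚ K → Normal ℚ M →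
  K ≤ M → K ≤ TT jl → M ≤ TT jr → M ≤ TT jq → (∀ τ x, zo q (ι τ x) = jq (ie τ x)) →
  (q : ℤ_[q]) ^ 3 ∣ ι K.val ε - 1 → (∀ τ, τ ≠ K.val → (q : ℤ_[q]) ^ 3 ∣ ι τ ε) →
  P.natDegree ≤ q → 2 * ((q - 1) / (l - 1)) < N → Cg (l ^ N) P (T0 _ q) →
  Cg (r ^ 2) P (T1 _ q r) → Cg (q ^ 3) P (C ε * T2 _ q + C (1 - ε) * T0 _ q) →
  ∃ L : IF, Fd L ∧ Normal ℚ L ∧ L ≤ TT jl ∧ (∀ E, K ≤ E → E ≤ M → (E ⊔ L) ⊓ M ≤ E) ∧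
    #(rts P K.val) = q ∧ ∀ α ∈ rts P K.val, α ∈ L ∧ α ∉ M

/-! ### The polynomial -/

-- deps:
def S_IDEM : Prop := ∀ K : IF, Fd K → ∃ D : ℕ, ∀ (p : ℕ) [Fact p.Prime] (j : Qbar →+* Om p)
  (ι : (K →ₐ[ℚ] Qbar) → 𝓞 K →+* ℤ_[p]), D < p → (∀ τ x, zo p (ι τ x) = j (ie τ x)) →
  ∃ ε : 𝓞 K, (p : ℤ_[p]) ^ 3 ∣ ι K.val ε - 1 ∧ ∀ τ, τ ≠ K.val → (p : ℤ_[p]) ^ 3 ∣ ι τ ε

-- deps:
def S_RED : Prop := ∀ K : IF, Fd K → ∃ c : ℝ, 1 ≤ c ∧ ∀ k : ℕ, 0 < k → ∀ x : 𝓞 K, ∃ y : 𝓞 K,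
  (k : 𝓞 K) ∣ y - x ∧ ∀ φ : 𝓞 K →+* ℂ, ‖φ y‖ ≤ c * k

-- deps:
def S_SPAN : Prop := ∀ (R : Type) [CommRing R] (A B : R[X]) (m e J : ℕ) (T : R[X]), 0 < m →
  A.natDegree ≤ m → B.natDegree ≤ m → m ≤ e + 1 → T.natDegree ≤ m * J + e →
  ∃ r : ℕ → R[X], (∀ j, (r j).natDegree ≤ e) ∧ cb r A B J = C (resultant A B m m ^ J) * T

-- deps: RED SPAN
def S_CP : Prop := ∀ K : IF, Fd K → ∃ c : ℝ, 1 ≤ c ∧ ∀ (m D k e J : ℕ) (g : ProjLine → ProjLine)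
  (A B T : (𝓞 K)[X]), Mdl K m g A B D → 0 < m → 0 < k → D.Coprime k → m ≤ e + 1 →
  T.natDegree ≤ m * J + e → ∃ r : ℕ → (𝓞 K)[X], (∀ j, (r j).natDegree ≤ e ∧ Bd (r j) (c * k)) ∧
    Cg k (cb r A B J) T

-- deps:
def S_CRT : Prop := ∀ (R : Type) [CommRing R] (a b c n : ℕ) (U V W : R[X]), a.Coprime b →
  a.Coprime c → b.Coprime c → U.natDegree ≤ n → V.natDegree ≤ n → W.natDegree ≤ n →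
  ∃ T : R[X], T.natDegree ≤ n ∧ Cg a T U ∧ Cg b T V ∧ Cg c T W

-- deps:
def S_ELIM : Prop := ∀ (O : Type) [CommRing O] (r : ℕ → O[X]) (A B : O[X]) (m e J : ℕ), 0 < m →
  A.natDegree ≤ m → B.natDegree ≤ m → (∀ j, (r j).natDegree ≤ e) → ∃ R : O[X],
    (∀ (ψ : O →+* Qbar) (α : Qbar), ((cb r A B J).map ψ).eval α = 0 → (B.map ψ).eval α ≠ 0 →
      (R.map ψ).eval ((A.map ψ).eval α / (B.map ψ).eval α) = 0) ∧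
    (∀ ψ : O →+* Qbar, ψ (resultant A B m m) ≠ 0 → (cb r A B J).map ψ ≠ 0 → R.map ψ ≠ 0) ∧
    ∀ c : ℝ, Bd A c → Bd B c → (∀ j, Bd (r j) c) → ∀ φ : O →+* ℂ,
      (R.map φ).mahlerMeasure ≤ ((e + m : ℕ) * (2 * (J + 1) * c)) ^ (e + m)

-- deps: FIB MH ELIM
def S_CH : Prop := ∀ (K : IF) (m D e J : ℕ) (g : ProjLine → ProjLine) (A B : (𝓞 K)[X])
  (r : ℕ → (𝓞 K)[X]) (c : ℝ), Mdl K m g A B D → 0 < m → Bd A c → Bd B c →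
  (∀ j, (r j).natDegree ≤ e ∧ Bd (r j) c) → (rts (cb r A B J) K.val).Nonempty →
  m * ((e + m : ℕ) * Real.log ((e + m : ℕ) * (2 * (J + 1) * c))) ≤ #(rts (cb r A B J) K.val) →
  ∃ α ∈ rts (cb r A B J) K.val, weilHeight (g (some α)) ≤ 1

-- deps:
def S_NUM : Prop := ∀ a : ℕ, ∃ l0 : ℕ, ∀ l : ℕ, l0 ≤ l → ∀ c : ℝ, 1 ≤ c → ∃ n0 : ℕ, ∀ n : ℕ, n0 ≤ n →
  a * Real.log (c * n ^ 4 * l ^ (2 * ((n - 1) / (l - 1)) + 1)) ≤ n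

/-! ### The tower -/

-- deps: MOD SPL CG IDEM CP CRT CH NUM
def S_CORE : Prop := ∀ (K K' : IF) (m N : ℕ) (g : ProjLine → ProjLine), Fd K → Normal ℚ K → Fd K' →
  K ≤ K' → 0 < m → RM K m g → ∃ (l : ℕ) (_ : Fact l.Prime) (j : Qbar →+* Om l), N < l ∧
    K' ≤ TT j ∧ ∀ M : IF, Fd M → Normal ℚ M → K ≤ M → ∃ L : IF, Fd L ∧ Normal ℚ L ∧ L ≤ TT j ∧
      (∀ E, K ≤ E → E ≤ M → (E ⊔ L) ⊓ M ≤ E) ∧ ∃ α ∈ L, α ∉ M ∧ weilHeight (g (some α)) ≤ 1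

-- deps: FIB NOR PER CORE
def S_STEP : Prop := ∀ (K K' : IF) (Φ : Set (ProjLine → ProjLine)) (B : ℝ)
  (g : ProjLine → ProjLine), Fd K → Normal ℚ K → Fd K' → K ≤ K' → Φ.Finite →
  (∀ φ ∈ Φ, ∃ d, 2 ≤ d ∧ RM ⊤ d φ) → (∃ m, 0 < m ∧ RM K m g) → ∃ L : IF, Fd L ∧ Normal ℚ L ∧
    (∀ E, K ≤ E → E ≤ K' → ∀ φ ∈ Φ, ∀ x ∈ pts (E ⊔ L), Spc φ E B x → x ∈ pts E) ∧
    ∃ α ∈ L, α ∉ K ∧ weilHeight (g (some α)) ≤ 1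

-- deps:
def S_CNT : Prop :=
  (∃ e : ℕ → ProjLine → ProjLine, (∀ i, ∃ d, 2 ≤ d ∧ RM ⊤ d (e i)) ∧
    ∀ d φ, 2 ≤ d → RM ⊤ d φ → ∀ n, ∃ i, n ≤ i ∧ e i = φ) ∧
  (∃ K : ℕ → IF, Monotone K ∧ (∀ i, Fd (K i)) ∧ ∀ E, Fd E → ∃ i, E ≤ K i) ∧ RM ⊥ 1 id

-- deps: STEP CNT
def S_TOW : Prop := ∃ K : ℕ → IF, Monotone K ∧ (∀ i, Fd (K i) ∧ Normal ℚ (K i)) ∧
  (∀ (E : IF) (d : ℕ) (φ : ProjLine → ProjLine) (B : ℝ), Fd E → 2 ≤ d → RM ⊤ d φ → ∃ n, ∀ i, n ≤ i →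
    ∀ x ∈ pts (K (i + 1) ⊔ E), Spc φ (K i ⊔ E) B x → x ∈ pts (K i ⊔ E)) ∧
  ∀ (d n : ℕ) (g : ProjLine → ProjLine), 2 ≤ d → RM (K n) d g →
    ∃ i, n ≤ i ∧ ∃ α ∈ K (i + 1), α ∉ K i ∧ weilHeight (g (some α)) ≤ 1

-- deps: HGT CAN NOR
def S_DYN : Prop := ∀ (E : ℕ → IF) (d : ℕ) (φ : ProjLine → ProjLine), Monotone E →
  (∀ i, Fd (E i)) → 2 ≤ d → RM (E 0) d φ →
  (∀ B : ℝ, ∃ n, ∀ i, n ≤ i → ∀ x ∈ pts (E (i + 1)), Spc φ (E i) B x → x ∈ pts (E i)) →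
  (pts (⨆ i, E i) ∩ PP φ).Finite ∧ ∀ Y ⊆ pts (⨆ i, E i), φ '' Y = Y → Y.Finite

-- deps: COMP HGT CAN
def S_GAP : Prop := ∀ (K : ℕ → IF) (d n : ℕ) (φ : ProjLine → ProjLine), Monotone K → 2 ≤ d →
  RM (K n) d φ → (pts (⨆ i, K i) ∩ PP φ).Finite →
  (∀ (d n : ℕ) (g : ProjLine → ProjLine), 2 ≤ d → RM (K n) d g →
    ∃ i, n ≤ i ∧ ∃ α ∈ K (i + 1), α ∉ K i ∧ weilHeight (g (some α)) ≤ 1) →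
  ∃ H : ProjLine → ℝ, (∀ x, H (φ x) = d * H x) ∧ (∃ C : ℝ, ∀ x, |H x - weilHeight x| ≤ C) ∧
    ∀ c : ℝ, 0 < c → ∃ α ∈ pts (⨆ i, K i), α ∉ PP φ ∧ H α < c

-- deps: RF MOD TOW DYN GAP
def S_MAIN : Prop := ∃ F : IntermediateField ℚ Qbar, IsGalois ℚ F ∧
  (∀ E : IntermediateField F Qbar, FiniteDimensional F E →
    PropertyP E.toSubfield ∧ ∀ f : RatFunc Qbar, 2 ≤ ratDegree f →
      (pointsOver E.toSubfield ∩ PrePer f).Finite ∧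
        ∀ X ⊆ pointsOver E.toSubfield, ratMap f '' X = X → X.Finite) ∧
  (∀ f : RatFunc Qbar, DefinedOver F.toSubfield f → 2 ≤ ratDegree f →
    ∃ H, IsCanonicalHeight f H ∧
      ∀ c : ℝ, 0 < c → ∃ α ∈ pointsOver F.toSubfield, α ∉ PrePer f ∧ H α < c) ∧
  ¬ PropertyUSB F.toSubfield

end Pool.Agent.P.MP_8d2e9f_nt.G
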