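import Pool.Agent.P.MP_8d2e9f_nt.G.Iface

/-! Steps RF, COMP, FIB, MOD, LG, HGT, CAN, NOR, MH. -/

namespace Pool.Agent.P.MP_8d2e9f_nt.G

open Polynomial Finset NumberField
open scoped Classical

section sRF

theorem p_RF :
    S_RF := by
  intro E f h
  have hA : f.num.natDegree ≤ ratDegree f := le_max_left _ _
  have hB : f.denom.natDegree ≤ ratDegree f := le_max_right _ _
  have hm : f.denom.leadingCoeff ≠ 0 := leadingCoeff_ne_zero.2 f.denom_ne_zero
  refine ⟨f.num, f.denom, fun i => (h i).1, fun i => (h i).2, hA, hB, fun v hv0 => ?_,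
    funext fun x => ?_⟩
  · obtain ⟨c, hc, e⟩ := exists_smul hv0
    rw [e, vm_smul]
    refine smul_ne_zero (pow_ne_zero _ hc) fun h0 => ?_
    obtain ⟨h1, h2⟩ := Prod.mk_eq_zero.1 h0
    generalize pt v = x at h1 h2
    cases x with
    | none =>
      simp only [lf, hv_inf, one_pow, mul_one] at h1 h2
      rcases lt_or_ge f.denom.natDegree f.num.natDegree with e | e
      · rw [ratDegree, max_eq_left e.le, coeff_natDegree, leadingCoeff_eq_zero] at h1
        simp [h1] at e
      · rw [ratDegree, max_eq_right e] at h2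
        exact hm h2
    | some x =>
      simp only [lf, hv_one hA, hv_one hB] at h1 h2
      obtain ⟨a, b, e⟩ := f.isCoprime_num_denom
      simpa [h1, h2] using congrArg (eval x) e
  · cases x with
    | none =>
      rw [im_none, ratMap]
      split_ifs with e e' e'
      · rfl
      · exact absurd (coeff_eq_zero_of_natDegree_lt (e.trans_le hA)) e'
      · rw [ratDegree, max_eq_right (not_lt.1 e)] at e'
        exact absurd e' hm
      · rw [ratDegree, max_eq_right (not_lt.1 e)]
        rfl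
    | some x => rw [im_some hA hB, ratMap]

end sRF

section sCOMP

lemma comp_mem {E : IF} {p : Qbar[X]} :
    p ∈ lifts (algebraMap E Qbar) ↔ ∀ i, p.coeff i ∈ E := by
  rw [lifts_iff_coeff_lifts]
  exact forall_congr' fun i => ⟨fun ⟨x, e⟩ => e ▸ x.2, fun h => ⟨⟨_, h⟩, rfl⟩⟩

lemma comp_one {E : IF} {d d' : ℕ} {A G1 G2 : Qbar[X]} (a : ∀ i, A.coeff i ∈ E)
    (g1 : ∀ i, G1.coeff i ∈ E) (g2 : ∀ i, G2.coeff i ∈ E) (n1 : G1.natDegree ≤ d')
    (n2 : G2.natDegree ≤ d') : ∃ A' : Qbar[X], (∀ i, A'.coeff i ∈ E) ∧ A'.natDegree ≤ d * d' ∧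
      ∀ v, hv A' (d * d') v = hv A d (vm G1 G2 d' v) := by
  have e : ∀ i ∈ range (d + 1), i * d' + (d - i) * d' = d * d' := fun i hi => by
    rw [← add_mul, Nat.add_sub_cancel' (Nat.lt_succ_iff.1 (mem_range.1 hi))]
  refine ⟨∑ i ∈ range (d + 1), C (A.coeff i) * (G1 ^ i * G2 ^ (d - i)), comp_mem.1 (sum_mem
    fun i _ => mul_mem (C_mem_lifts _ (⟨_, a i⟩ : E))
      (mul_mem (pow_mem (comp_mem.2 g1) _) (pow_mem (comp_mem.2 g2) _))),
    natDegree_sum_le_of_forall_le _ _ fun i hi => (natDegree_C_mul_le _ _).trans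
      ((natDegree_mul_le_of_le (natDegree_pow_le_of_le i n1)
        (natDegree_pow_le_of_le _ n2)).trans_eq (e i hi)), fun v => ?_⟩
  rw [hv_sum, hv]
  refine sum_congr rfl fun i hi => ?_
  rw [hv_C_mul, ← e i hi, hv_mul (natDegree_pow_le_of_le i n1) (natDegree_pow_le_of_le _ n2),
    hv_pow n1, hv_pow n2, mul_assoc]
  rfl

lemma comp_two {E : IF} {d d' : ℕ} {φ ψ : ProjLine → ProjLine} (h : RM E d φ) (h' : RM E d' ψ) :
    RM E (d * d') (φ ∘ ψ) := by
  obtain ⟨A, B, a, b, -, -, c, rfl⟩ := h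
  obtain ⟨G1, G2, g1, g2, n1, n2, c', rfl⟩ := h'
  obtain ⟨A', a1, a2, a3⟩ := comp_one (d := d) a g1 g2 n1 n2
  obtain ⟨B', b1, b2, b3⟩ := comp_one (d := d) b g1 g2 n1 n2
  have e : ∀ v, vm A' B' (d * d') v = vm A B d (vm G1 G2 d' v) := fun v => Prod.ext (a3 v) (b3 v)
  refine ⟨A', B', a1, b1, a2, b2, fun v hv => e v ▸ c _ (c' v hv), funext fun x => ?_⟩
  rw [Function.comp_apply, im.eq_1 G1, im_pt _ _ _ (c' _ (lf_ne x)), im, e]

lemma comp_id (E : IF) : RM E 1 id := by
  have e : ∀ v : Qbar × Qbar, vm X 1 1 v = v := fun v => Prod.ext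
    (by simpa [vm] using hv_X_pow (k := 1) le_rfl v)
    (by simpa [vm] using hv_X_pow (k := 0) zero_le_one v)
  exact ⟨X, 1, comp_mem.1 (X_mem_lifts _), comp_mem.1 (one_mem _), natDegree_X_le, by simp,
    fun v hv => (e v).symm ▸ hv, funext fun x => by rw [im, e, pt_lf, id]⟩

theorem p_COMP :
    S_COMP := fun E d φ h => ⟨fun _ _ => comp_two h, fun k => by
  induction k with
  | zero => exact comp_id E
  | succ k ih => exact comp_two ih h⟩

end sCOMP

section sFIB

lemma fib_zero (p : Qbar[X]) {d : ℕ} (hd : 0 < d) (hp : p.natDegree ≤ d) :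
    ∃ v : Qbar × Qbar, v ≠ 0 ∧ hv p d v = 0 := by
  rcases Nat.eq_zero_or_pos p.natDegree with h | h
  · refine ⟨(1, 0), by simp, ?_⟩
    rw [hv_inf, coeff_eq_zero_of_natDegree_lt (h ▸ hd), zero_mul]
  · obtain ⟨x, hx⟩ := IsAlgClosed.exists_root p (natDegree_pos_iff_degree_pos.1 h).ne'
    exact ⟨(x, 1), by simp, (hv_one hp x).trans hx⟩

theorem p_FIB :
    S_FIB := by
  rintro E d φ ⟨A, B, -, -, hA, hB, hne, rfl⟩
  have key : ∀ (t : Qbar) (y : Option Qbar), im A B d (some t) = y →
      A.eval t * (lf y).2 = B.eval t * (lf y).1 := fun t y h => by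
    rw [im, ← pt_lf y, pt_eq_iff (hne _ (lf_ne _)) (lf_ne y)] at h
    simpa only [vm, lf, hv_one hA, hv_one hB] using h
  refine ⟨fun hd y => ?_, fun hd => ?_⟩
  · set Q : Qbar[X] := C (lf y).2 * A - C (lf y).1 * B with hQ
    have hQ0 : Q ≠ 0 := fun e => by
      have h1 : ∀ v, (lf y).2 * hv A d v = (lf y).1 * hv B d v := fun v => by
        have := congrArg (fun p => hv p d v) e
        simp only [hQ, hv_sub, hv_C_mul] at this
        rw [← sub_eq_zero, this]
        simp [hv]
      by_cases h2 : (lf y).2 = 0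
      · have h3 : (lf y).1 ≠ 0 := fun h3 => lf_ne y (Prod.ext h3 h2)
        obtain ⟨v, v0, hv0⟩ := fib_zero A hd hA
        have h4 := h1 v
        rw [h2, zero_mul, eq_comm, mul_eq_zero, or_iff_right h3] at h4
        exact hne v v0 (Prod.ext hv0 h4)
      · obtain ⟨v, v0, hv0⟩ := fib_zero B hd hB
        have h4 := h1 v
        rw [hv0, mul_zero, mul_eq_zero, or_iff_right h2] at h4
        exact hne v v0 (Prod.ext h4 hv0)
    have hdeg : Q.natDegree ≤ d := (natDegree_sub_le _ _).trans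
      (max_le ((natDegree_C_mul_le _ _).trans hA) ((natDegree_C_mul_le _ _).trans hB))
    refine ⟨Q.roots.toFinset, (Multiset.toFinset_card_le _).trans ((card_roots' Q).trans hdeg),
      fun t ht => ?_⟩
    rw [Multiset.mem_toFinset, mem_roots hQ0, IsRoot, hQ, eval_sub, eval_C_mul, eval_C_mul]
    linear_combination key t y ht
  · have hQ0 : A - X * B ≠ 0 := fun e => by
      rw [sub_eq_zero] at e
      rcases Nat.eq_zero_or_pos B.natDegree with h | h
      · refine hne (1, 0) (by simp) (Prod.ext ?_ ?_)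
        · have h1 : A.natDegree < d := by
            rw [e]
            exact ((natDegree_mul_le_of_le natDegree_X_le h.le).trans_lt (by omega))
          simp only [vm, hv_inf, coeff_eq_zero_of_natDegree_lt h1, zero_mul, Prod.fst_zero]
        · have h1 : B.natDegree < d := by omega
          simp only [vm, hv_inf, coeff_eq_zero_of_natDegree_lt h1, zero_mul, Prod.snd_zero]
      · obtain ⟨x, hx⟩ := IsAlgClosed.exists_root B (natDegree_pos_iff_degree_pos.1 h).ne'
        refine hne (x, 1) (by simp) (Prod.ext ?_ ?_)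
        · simp only [vm, hv_one hA, Prod.fst_zero]
          rw [e, eval_mul, hx.eq_zero, mul_zero]
        · simp only [vm, hv_one hB, Prod.snd_zero]
          exact hx
    refine (((A - X * B).roots.finite_toSet.image some).insert none).subset ?_
    rintro (_ | t) ht
    · exact Set.mem_insert _ _
    · refine Set.mem_insert_of_mem _ ⟨t, (mem_roots hQ0).2 ?_, rfl⟩
      have h1 := key t _ ht
      rw [IsRoot, eval_sub, eval_mul, eval_X]
      simp only [lf] at h1
      linear_combination h1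

end sFIB

section sMOD

lemma mod_res {A B : Qbar[X]} {d : ℕ} (hA : A.natDegree ≤ d) (hB : B.natDegree ≤ d)
    (h : ∀ v, v ≠ 0 → vm A B d v ≠ 0) : resultant A B d d ≠ 0 := by
  have h1 : resultant A B ≠ 0 := resultant_ne_zero _ _
    ((isCoprime_iff_aeval_ne_zero_of_isAlgClosed Qbar Qbar A B).2 fun a => by
      by_contra e
      simp only [not_or, not_not, coe_aeval_eq_eval] at e
      exact h (a, 1) (by simp) (by simp [vm, hv_one hA, hv_one hB, e.1, e.2]))
  have h2 : A.coeff d ≠ 0 ∨ B.coeff d ≠ 0 := by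
    by_contra e
    simp only [not_or, not_not] at e
    exact h (1, 0) (by simp) (by simp [vm, hv_inf, e.1, e.2])
  rcases h2 with e | e
  · obtain rfl := le_antisymm hA (le_natDegree_of_ne_zero e)
    obtain ⟨k, hk⟩ := Nat.exists_eq_add_of_le hB
    have := resultant_add_right_deg A B A.natDegree _ k le_rfl
    rw [← hk] at this
    rw [this]
    exact mul_ne_zero (pow_ne_zero _ e) h1
  · obtain rfl := le_antisymm hB (le_natDegree_of_ne_zero e)
    obtain ⟨k, hk⟩ := Nat.exists_eq_add_of_le hA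
    have := resultant_add_left_deg A B _ B.natDegree k le_rfl
    rw [← hk] at this
    rw [this]
    exact mul_ne_zero (mul_ne_zero (pow_ne_zero _ (neg_ne_zero.2 one_ne_zero)) (pow_ne_zero _ e)) h1

lemma mod_lift {E : IF} {A : Qbar[X]} (hA : ∀ i, A.coeff i ∈ E) {c : ℤ}
    (h : ∀ z ∈ A.coeffs, IsIntegral ℤ (c • z)) :
    ∃ A' : (𝓞 E)[X], A'.map (ie E.val) = C (c : Qbar) * A := by
  refine (mem_lifts _).1 ((lifts_iff_coeff_lifts _).2 fun i => ?_)
  rw [coeff_C_mul, ← zsmul_eq_mul]
  refine ⟨⟨⟨_, zsmul_mem (hA i) c⟩, (isIntegral_algHom_iff (E.val : E →+* Qbar).toIntAlgHom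
    (E.val : E →+* Qbar).injective).1 ?_⟩, rfl⟩
  rcases eq_or_ne (A.coeff i) 0 with e | e
  · simpa [e] using isIntegral_zero
  · exact h _ (coeff_mem_coeffs e)

theorem p_MOD :
    S_MOD := by
  refine ⟨?_, ?_⟩
  · rintro E d φ hE ⟨A, B, a, b, dA, dB, h, rfl⟩
    have : Algebra.IsAlgebraic ℤ Qbar := (IsFractionRing.comap_isAlgebraic_iff (K := ℚ)).2 inferInstance
    obtain ⟨c, c0, hc⟩ := Algebra.IsAlgebraic.exists_integral_multiples ℤ (A.coeffs ∪ B.coeffs)
    obtain ⟨A', eA⟩ := mod_lift a fun z hz => hc z (mem_union_left _ hz)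
    obtain ⟨B', eB⟩ := mod_lift b fun z hz => hc z (mem_union_right _ hz)
    have c1 : (c : Qbar) ≠ 0 := Int.cast_ne_zero.2 c0
    have k : ∀ v, vm (C (c : Qbar) * A) (C (c : Qbar) * B) d v = (c : Qbar) • vm A B d v :=
      fun v => by simp only [vm, hv_C_mul, Prod.smul_mk, smul_eq_mul]
    have dA' := (natDegree_C_mul_le (c : Qbar) A).trans dA
    have dB' := (natDegree_C_mul_le (c : Qbar) B).trans dB
    have r := mod_res dA' dB' fun v hv => by rw [k]; exact smul_ne_zero c1 (h v hv)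
    rw [← eA, natDegree_map_eq_of_injective (ie_inj E.val)] at dA'
    rw [← eB, natDegree_map_eq_of_injective (ie_inj E.val)] at dB'
    rw [← eA, ← eB, resultant_map_map] at r
    refine ⟨A', B', Ideal.absNorm (Ideal.span {resultant A' B' d d}), dA', dB',
      Nat.pos_of_ne_zero fun e => r ?_, Ideal.mem_span_singleton.1 (Ideal.absNorm_mem _),
      funext fun x => by rw [eA, eB, im, im, k, pt_smul c1]⟩
    rw [Ideal.span_singleton_eq_bot.1 (Ideal.absNorm_eq_zero_iff.1 e), map_zero]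
  · rintro d φ ⟨A, B, -, -, h⟩
    have k : ∀ p : Qbar[X], p.coeffs ⊆ A.coeffs ∪ B.coeffs → ∀ i,
        p.coeff i ∈ IntermediateField.adjoin ℚ (↑(A.coeffs ∪ B.coeffs) : Set Qbar) := fun p hp i => by
      rcases eq_or_ne (p.coeff i) 0 with e | e
      · rw [e]
        exact zero_mem _
      · exact IntermediateField.subset_adjoin _ _ (hp (coeff_mem_coeffs e))
    exact ⟨_, IntermediateField.finiteDimensional_adjoin fun x _ => int_Q x, A, B,
      k A subset_union_left, k B subset_union_right, h⟩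

end sMOD

section sLG

section lg

variable {K : Type} [Field K] [NumberField K] {w : K × K}

omit [Field K] [NumberField K] in
lemma lg_sup (u : K → ℝ) (w : K × K) : ⨆ i, u (![w.1, w.2] i) = mx u w := by
  refine le_antisymm (ciSup_le fun i => ?_) (max_le (Finite.le_ciSup_of_le 0 le_rfl)
    (Finite.le_ciSup_of_le 1 le_rfl))
  fin_cases i
  exacts [le_max_left _ _, le_max_right _ _]

lemma lg_H (h : w ≠ 0) : Height.mulHeight ![w.1, w.2] =
    (∏ φ : K →+* ℂ, mx (fun x => ‖φ x‖) w) * ∏ᶠ u : FinitePlace K, mx u w := by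
  have h' : ![w.1, w.2] ≠ 0 := fun e => h (Prod.ext (congrFun e 0) (congrFun e 1))
  rw [NumberField.mulHeight_eq h', prod_place_eq_prod_emb fun v => ⨆ i, v (![w.1, w.2] i)]
  simp only [lg_sup]
  rfl

lemma lg_fin (h : w ≠ 0) : (fun u : FinitePlace K => mx u w).HasFiniteMulSupport := by
  obtain ⟨a, b⟩ := w
  rcases eq_or_ne a 0 with rfl | ha
  · have hb : b ≠ 0 := fun e => h (by rw [e]; rfl)
    simpa [mx] using FinitePlace.hasFiniteMulSupport hb
  rcases eq_or_ne b 0 with rfl | hb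
  · simpa [mx] using FinitePlace.hasFiniteMulSupport ha
  refine ((FinitePlace.hasFiniteMulSupport ha).union
    (FinitePlace.hasFiniteMulSupport hb)).subset fun u hu => by_contra fun e => hu ?_
  simp only [Set.mem_union, Function.mem_mulSupport, not_or, not_not] at e
  simp only [mx, e.1, e.2, max_self]

lemma lg_prod {ι : Type} (s : Finset ι) (w : ι → K × K) (h : ∀ i ∈ s, w i ≠ 0) :
    (fun u : FinitePlace K => ∏ i ∈ s, mx u (w i)).HasFiniteMulSupport ∧
    ∏ i ∈ s, Height.mulHeight ![(w i).1, (w i).2] =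
      (∏ φ : K →+* ℂ, ∏ i ∈ s, mx (fun x => ‖φ x‖) (w i)) *
        ∏ᶠ u : FinitePlace K, ∏ i ∈ s, mx u (w i) := by
  refine ⟨(s.finite_toSet.biUnion fun i hi => lg_fin (h i hi)).subset
    (Finset.mulSupport_prod s fun i (u : FinitePlace K) => mx u (w i)), ?_⟩
  rw [finprod_prod_comm _ _ fun i hi => lg_fin (h i hi), prod_comm, ← prod_mul_distrib]
  exact prod_congr rfl fun i hi => lg_H (h i hi)

end lg

lemma lg_wh (L : IF) [Fd L] (w : L × L) : weilHeight (pt ((w.1 : Qbar), (w.2 : Qbar))) =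
    Real.log (Height.mulHeight ![w.1, w.2]) / Module.finrank ℚ L := by
  rw [← Height.mulHeight₁_div_eq_mulHeight, pt]
  split_ifs with h
  · rw [show w.2 = 0 from Subtype.ext h, div_zero, Height.mulHeight₁_zero, Real.log_one, zero_div]
    rfl
  · exact absLogHeight₁_eq L _ (w.1 / w.2).2

theorem p_LG :
    S_LG := by
  intro L _ ι κ s t w v a c ha hw hv h1 h2
  have nn : ∀ {u : L → ℝ}, (∀ x, 0 ≤ u x) → ∀ {μ : Type} (r : Finset μ) (z : μ → L × L),
      0 ≤ ∏ i ∈ r, mx u (z i) := fun h _ r z => prod_nonneg fun i _ => le_max_of_le_left (h _)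
  obtain ⟨f1, e1⟩ := lg_prod s w hw
  obtain ⟨f2, e2⟩ := lg_prod t v hv
  have e3 := prod_abs_eq_one ha
  rw [prod_place_eq_prod_emb fun v => v a] at e3
  have k1 := finprod_le_finprod ((FinitePlace.hasFiniteMulSupport ha).mul f1)
    (fun u => mul_nonneg (apply_nonneg u a) (nn (apply_nonneg u) s w)) f2 h1
  have k2 := prod_le_prod (s := univ)
    (fun φ _ => mul_nonneg (norm_nonneg _) (nn (fun _ => norm_nonneg _) s w)) fun φ _ => h2 φ
  simp only [Pi.mul_apply] at k1
  rw [finprod_mul_distrib (FinitePlace.hasFiniteMulSupport ha) f1] at k1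
  rw [prod_mul_distrib, prod_mul_distrib, prod_const, card_univ, Embeddings.card] at k2
  have p1 : 0 < ∏ i ∈ s, Height.mulHeight ![(w i).1, (w i).2] :=
    prod_pos fun _ _ => Height.mulHeight_pos _
  have k3 : ∏ i ∈ s, Height.mulHeight ![(w i).1, (w i).2] ≤
      c ^ Module.finrank ℚ L * ∏ k ∈ t, Height.mulHeight ![(v k).1, (v k).2] := by
    have g1 := mul_nonneg (prod_nonneg (s := univ) fun (φ : L →+* ℂ) _ => norm_nonneg (φ a))
      (prod_nonneg (s := univ) fun (φ : L →+* ℂ) _ => nn (fun x => norm_nonneg (φ x)) s w)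
    have := mul_le_mul k2 k1 (mul_nonneg (finprod_nonneg fun u => apply_nonneg u a)
      (finprod_nonneg fun u => nn (apply_nonneg u) s w)) (g1.trans k2)
    rw [mul_mul_mul_comm, ← e1, mul_assoc (c ^ _), ← e2] at this
    exact ((one_mul _).symm.trans (congrArg (· * _) e3.symm)).trans_le this
  have hn : (0 : ℝ) < Module.finrank ℚ L := by exact_mod_cast Module.finrank_pos
  have hc : c ^ Module.finrank ℚ L ≠ 0 := fun e => by
    rw [e, zero_mul] at k3
    exact k3.not_gt p1
  have k4 := Real.log_le_log p1 k3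
  rw [Real.log_mul hc (prod_ne_zero_iff.2 fun _ _ => Height.mulHeight_ne_zero _), Real.log_pow,
    Real.log_prod fun _ _ => Height.mulHeight_ne_zero _,
    Real.log_prod fun _ _ => Height.mulHeight_ne_zero _] at k4
  simp only [lg_wh, ← sum_div]
  rw [div_add' _ _ _ hn.ne', div_le_div_iff_of_pos_right hn]
  linarith

end sLG

section sHGT

section

variable {L : Type} [Field L] (u : AbsoluteValue L ℝ) {d : ℕ} {v : L × L}

lemma hgt_term (v : L × L) {c : ℝ} {p : L[X]} (h : ∀ i, u (p.coeff i) ≤ c) :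
    ∀ i ∈ range (d + 1), u (p.coeff i * v.1 ^ i * v.2 ^ (d - i)) ≤ c * mx u v ^ d := fun i hi => by
  obtain ⟨k, rfl⟩ := Nat.exists_eq_add_of_le (Nat.lt_succ_iff.1 (mem_range.1 hi))
  have := (u.nonneg _).trans (h 0)
  have := (u.nonneg _).trans (le_max_left (u v.1) (u v.2))
  rw [add_tsub_cancel_left, map_mul, map_mul, map_pow, map_pow, pow_add, ← mul_assoc, mx]
  gcongr
  exacts [h i, le_max_left _ _, le_max_right _ _]

lemma hgt_low {T K : ℝ} (hT : ∀ a b c, u a ≤ c → u b ≤ c → u (a + b) ≤ T * c) (h0 : v ≠ 0)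
    {r : L} {w a b : L × L} (ha : mx u a ≤ K * mx u v ^ d) (hb : mx u b ≤ K * mx u v ^ d)
    (e1 : w.1 * a.1 + w.2 * a.2 = r * v.1 ^ (d + d))
    (e2 : w.1 * b.1 + w.2 * b.2 = r * v.2 ^ (d + d)) :
    u r * mx u v ^ d ≤ T * K * mx u w := by
  have p : 0 < mx u v := by
    by_contra! k
    exact h0 (Prod.ext (u.nonpos_iff.1 ((le_max_left _ _).trans k))
      (u.nonpos_iff.1 ((le_max_right _ _).trans k)))
  have k : ∀ a : L × L, mx u a ≤ K * mx u v ^ d →
      u (w.1 * a.1 + w.2 * a.2) ≤ T * (mx u w * (K * mx u v ^ d)) := fun a h => by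
    have q := (u.nonneg _).trans (le_max_left (u w.1) (u w.2))
    refine hT _ _ _ ?_ ?_ <;> rw [map_mul]
    · exact mul_le_mul (le_max_left _ _) ((le_max_left _ _).trans h) (u.nonneg _) q
    · exact mul_le_mul (le_max_right _ _) ((le_max_right _ _).trans h) (u.nonneg _) q
  have k1 := k a ha
  have k2 := k b hb
  rw [e1, map_mul, map_pow] at k1
  rw [e2, map_mul, map_pow] at k2
  refine le_of_mul_le_mul_right ?_ (pow_pos p d)
  rw [mul_assoc, ← pow_add]
  refine le_trans ?_ ((max_le k1 k2).trans_eq (by ring))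
  rcases max_choice (u v.1) (u v.2) with h | h <;> rw [mx, h]
  exacts [le_max_left _ _, le_max_right _ _]

end

theorem p_HGT (hMOD : S_MOD) (hLG : S_LG) :
    S_HGT := by
  intro d φ hd h
  obtain ⟨E, hE, h⟩ := hMOD.2 d φ h
  obtain ⟨A, B, D, h⟩ := hMOD.1 E d φ hE h
  obtain ⟨U, V, U', V', hb⟩ := bez_hv hd h.dA h.dB
  choose b b1 b2 using exists_Bd (E := E)
  obtain ⟨c, hc⟩ := ({A, B, U, V, U', V'} : Finset (𝓞 E)[X]).finite_toSet.image b |>.bddAbove
  replace hc : ∀ p ∈ ({A, B, U, V, U', V'} : Finset (𝓞 E)[X]), Bd p c := fun p hp =>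
    (b2 p).mono (hc ⟨p, hp, rfl⟩)
  refine ⟨max (Real.log ((d + 1) * c)) (Real.log (2 * ((d + 1) * c))), fun x => ?_⟩
  let L : IF := E ⊔ IntermediateField.adjoin ℚ {(lf x).1, (lf x).2}
  have := IntermediateField.finiteDimensional_adjoin (K := ℚ) (S := {(lf x).1, (lf x).2})
    fun x _ => int_Q x
  have m : ∀ y ∈ ({(lf x).1, (lf x).2} : Set Qbar), y ∈ L := fun y hy =>
    (le_sup_right : _ ≤ L) (IntermediateField.subset_adjoin _ _ hy)
  let v : L × L := (⟨_, m (lf x).1 (by simp)⟩, ⟨_, m (lf x).2 (by simp)⟩)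
  let f : 𝓞 E →+* L := (IntermediateField.inclusion (le_sup_left : E ≤ L) : E →+* L).comp
    (algebraMap (𝓞 E) E)
  have v0 : v ≠ 0 := fun e => lf_ne x (Prod.ext (congrArg (·.1.1) e) (congrArg (·.2.1) e))
  have r0 := h.res_ne f (Nat.cast_ne_zero.2 h.pos.ne')
  have w0 := vm_ne hd h.dA h.dB f r0 v0
  have e1 : pt ((v.1 : Qbar), (v.2 : Qbar)) = x := pt_lf x
  have e2 : pt (((vm (A.map f) (B.map f) d v).1 : Qbar), ((vm (A.map f) (B.map f) d v).2 : Qbar)) =
      φ x := by
    have := map_vm (L.val : L →+* Qbar) (A.map f) (B.map f) d v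
    rw [Polynomial.map_map, Polynomial.map_map] at this
    rw [h.eq]
    exact congrArg pt this
  have n1 : ∀ (u : FinitePlace L) (p q : (𝓞 E)[X]),
      mx u (vm (p.map f) (q.map f) d v) ≤ 1 * mx u v ^ d := fun u p q => by
    have k : ∀ p : (𝓞 E)[X], u (hv (p.map f) d v) ≤ 1 * mx u v ^ d := fun p => by
      have t := hgt_term u.1 (d := d) v (c := 1) (p := p.map f) fun i => by
        rw [coeff_map, ← u.coe_apply, ← u.norm_embedding_eq]
        exact FinitePlace.norm_le_one L u.maximalIdeal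
          ⟨_, (RingOfIntegers.isIntegral (p.coeff i)).map f.toIntAlgHom⟩
      exact sum_induction _ (fun y => u y ≤ 1 * mx u v ^ d)
        (fun a b ha hb => (u.add_le a b).trans (max_le ha hb))
        ((map_zero u).le.trans ((apply_nonneg u _).trans (t 0 (by simp)))) t
    exact max_le (k p) (k q)
  have n2 : ∀ (ψ : L →+* ℂ) (p q : (𝓞 E)[X]), Bd p c → Bd q c →
      mx (place ψ) (vm (p.map f) (q.map f) d v) ≤ (d + 1) * c * mx (place ψ) v ^ d := by
    intro ψ p q hp hq
    have k : ∀ p : (𝓞 E)[X], Bd p c →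
        place ψ (hv (p.map f) d v) ≤ (d + 1) * c * mx (place ψ) v ^ d := fun p hp => by
      refine ((place ψ).sum_le _ _).trans ((sum_le_card_nsmul _ _ _ (hgt_term _ v fun i => by
        rw [coeff_map]
        exact hp (ψ.comp f) i)).trans_eq ?_)
      simp [mul_assoc]
    exact max_le (k p hp) (k q hq)
  have up := hLG L Unit ℕ {()} (range d) (fun _ => vm (A.map f) (B.map f) d v) (fun _ => v) 1
    ((d + 1) * c) one_ne_zero (fun _ _ => w0) (fun _ _ => v0)
    (fun u => by simpa using n1 u A B) fun ψ => by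
      rw [map_one, norm_one, one_mul, prod_singleton, prod_const, card_range]
      exact n2 ψ A B (hc _ (by simp)) (hc _ (by simp))
  have lo := hLG L ℕ Unit (range d) {()} (fun _ => v) (fun _ => vm (A.map f) (B.map f) d v) _
    (2 * ((d + 1) * c)) r0 (fun _ _ => v0) (fun _ _ => w0)
    (fun u => by
      rw [prod_singleton, prod_const, card_range]
      exact (hgt_low u.1 (T := 1) (fun a b c ha hb => by
        rw [one_mul]; exact (u.add_le a b).trans (max_le ha hb)) v0 (n1 u U V) (n1 u U' V')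
        (hb L f v).1 (hb L f v).2).trans_eq (by rw [one_mul, one_mul]; rfl))
    fun ψ => by
      rw [prod_singleton, prod_const, card_range]
      exact hgt_low (place ψ) (fun a b c ha hb => ((place ψ).add_le a b).trans (by linarith)) v0
        (n2 ψ U V (hc _ (by simp)) (hc _ (by simp))) (n2 ψ U' V' (hc _ (by simp)) (hc _ (by simp)))
        (hb L f v).1 (hb L f v).2
  rw [sum_singleton, sum_const, card_range, nsmul_eq_mul, e1, e2] at up lo
  rw [abs_le]
  constructor <;> linarith [le_max_left (Real.log ((d + 1) * c)) (Real.log (2 * ((d + 1) * c))),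
    le_max_right (Real.log ((d + 1) * c)) (Real.log (2 * ((d + 1) * c)))]

end sHGT

section sCAN

theorem p_CAN :
    S_CAN := by
  intro Y φ h d C hd hC
  have d2 : (2 : ℝ) ≤ d := by exact_mod_cast hd
  have d0 : (0 : ℝ) < d := by linarith
  have key : ∀ x n, dist (h (φ^[n] x) / (d : ℝ) ^ n) (h (φ^[n + 1] x) / (d : ℝ) ^ (n + 1)) ≤
      C / 2 / 2 ^ n := fun x n => by
    have h1 := hC (φ^[n] x)
    have C0 : 0 ≤ C := (abs_nonneg _).trans h1
    have e : h (φ^[n + 1] x) / (d : ℝ) ^ (n + 1) - h (φ^[n] x) / (d : ℝ) ^ n =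
        (h (φ (φ^[n] x)) - d * h (φ^[n] x)) / (d : ℝ) ^ (n + 1) := by
      rw [Function.iterate_succ_apply']
      field_simp
      ring
    rw [dist_comm, Real.dist_eq, e, abs_div, abs_of_pos (pow_pos d0 _), div_div, ← pow_succ']
    exact div_le_div₀ C0 h1 (by positivity) (pow_le_pow_left₀ (by norm_num) d2 _)
  choose H hH using fun x => cauchySeq_tendsto_of_complete (cauchySeq_of_le_geometric_two (key x))
  refine ⟨H, fun x => ?_, fun x => ?_⟩
  · refine tendsto_nhds_unique (hH (φ x))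
      ((((Filter.tendsto_add_atTop_iff_nat 1).2 (hH x)).const_mul (d : ℝ)).congr fun n => ?_)
    rw [Function.iterate_succ_apply, pow_succ]
    field_simp
  · have := dist_le_of_le_geometric_two_of_tendsto₀ (key x) (hH x)
    rwa [dist_comm, Real.dist_eq, pow_zero, div_one] at this

end sCAN

section sNOR

theorem p_NOR :
    S_NOR := by
  intro E B hE
  refine (((finite_setOfPred_logHeight₁_le E (B * Module.finrank ℚ E)).image
    fun x : E => (some x.1 : ProjLine)).insert none).subset ?_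
  rintro (_ | x) ⟨h1, h2⟩
  · exact Or.inl rfl
  · have h3 := some_mem_pts.1 h1
    refine Or.inr ⟨⟨x, h3⟩, ?_, rfl⟩
    rw [weilHeight, absLogHeight₁_eq E x h3,
      div_le_iff₀ (Nat.cast_pos.2 Module.finrank_pos)] at h2
    exact h2

end sNOR

section sMH

lemma mh_fin {L : Type} [Field L] (v : AbsoluteValue L ℝ) (hv : IsNonarchimedean v)
    (s : Finset L) (Q : L[X]) :
    v Q.leadingCoeff * ∏ b ∈ s, max (v b) (v 1) ≤ ((∏ b ∈ s, (X - C b)) * Q).gaussNorm v 1 := by
  induction s using Finset.induction_on with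
  | empty => simpa using Q.le_gaussNorm v zero_le_one Q.natDegree
  | insert b s hb ih =>
    rw [prod_insert hb, prod_insert hb, mul_assoc, gaussNorm_mul hv zero_lt_one, mul_left_comm]
    refine mul_le_mul (max_le ?_ ?_) ih (mul_nonneg (v.nonneg _) (prod_nonneg fun _ _ =>
      le_max_of_le_left (v.nonneg _))) (gaussNorm_nonneg _ _ zero_le_one)
    · have := (X - C b).le_gaussNorm v zero_le_one 0
      simpa using this
    · have := (X - C b).le_gaussNorm v zero_le_one 1
      simpa [coeff_C] using this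

lemma mh_inf {L : Type} [Field L] (φ : L →+* ℂ) (s : Finset L) (Q : L[X]) :
    ‖φ Q.leadingCoeff‖ * ∏ b ∈ s, max ‖φ b‖ ‖φ 1‖ ≤
      (((∏ b ∈ s, (X - C b)) * Q).map φ).mahlerMeasure := by
  induction s using Finset.induction_on with
  | empty => simpa using (Q.map φ).leadingCoeff_le_mahlerMeasure
  | insert b s hb ih =>
    rw [prod_insert hb, prod_insert hb, mul_assoc, Polynomial.map_mul, mahlerMeasure_mul,
      mul_left_comm, Polynomial.map_sub, map_X, map_C, mahlerMeasure_X_sub_C, map_one, norm_one,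
      max_comm]
    rw [map_one, norm_one] at ih
    exact mul_le_mul_of_nonneg_left ih (le_max_of_le_left zero_le_one)

theorem p_MH (hLG : S_LG) :
    S_MH := by
  intro R s B hR hint hB hs
  let L : IF := IntermediateField.adjoin ℚ ((R.coeffs ∪ s : Finset Qbar) : Set Qbar)
  have : Fd L := IntermediateField.finiteDimensional_adjoin fun x _ => int_Q x
  have hL : ∀ x ∈ R.coeffs ∪ s, x ∈ L := fun x hx => IntermediateField.subset_adjoin _ _ hx
  obtain ⟨R', hR'⟩ : R ∈ lifts (algebraMap L Qbar) := (lifts_iff_coeffs_subset_range R).2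
    fun x hx => ⟨⟨x, hL x (mem_union_left _ hx)⟩, rfl⟩
  rw [coe_mapRingHom] at hR'
  have hR0 : R' ≠ 0 := fun h => hR (by rw [← hR', h, Polynomial.map_zero])
  let s' : Finset L := s.subtype (· ∈ L)
  obtain ⟨Q, hQ⟩ : ∏ b ∈ s', (X - C b) ∣ R' := by
    refine Finset.prod_dvd_of_coprime (fun a _ b _ h => pairwise_coprime_X_sub_C
      Function.injective_id h) fun b hb => dvd_iff_isRoot.2 ?_
    refine (algebraMap L Qbar).injective ?_
    rw [← eval₂_at_apply, ← eval_map, hR', map_zero]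
    exact hs _ (mem_subtype.1 hb)
  have hQ0 : Q ≠ 0 := fun h => hR0 (by rw [hQ, h, mul_zero])
  have key := hLG L L L s' ∅ (fun b => (b, 1)) (fun b => (b, 1)) Q.leadingCoeff B
    (leadingCoeff_ne_zero.2 hQ0) (fun _ _ => by simp) (by simp) (fun u => ?_) (fun φ => ?_)
  · rw [sum_empty, zero_add] at key
    refine le_trans (le_of_eq ?_) key
    rw [← sum_subtype_of_mem (p := (· ∈ L)) _ fun x hx => hL x (mem_union_right _ hx)]
    exact sum_congr rfl fun x _ => by simp [pt]
  · refine (mh_fin u.1 (fun x y => u.add_le x y) s' Q).trans ?_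
    obtain ⟨i, hi⟩ := R'.exists_eq_gaussNorm u.1 1
    rw [← hQ, hi, one_pow, mul_one, prod_empty]
    have h1 : IsIntegral ℤ (R'.coeff i) := by
      rw [← isIntegral_algebraMap_iff (algebraMap L Qbar).injective, ← coeff_map, hR']
      exact hint i
    have h2 := FinitePlace.norm_le_one L u.maximalIdeal (⟨_, h1⟩ : 𝓞 L)
    rwa [u.norm_embedding_eq] at h2
  · let := φ.toAlgebra
    let ψ : Qbar →ₐ[L] ℂ := IsAlgClosed.lift
    refine (mh_inf φ s' Q).trans ?_
    have e : φ = (ψ : Qbar →+* ℂ).comp (algebraMap L Qbar) := RingHom.ext fun x =>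
      (ψ.commutes x).symm
    rw [← hQ, prod_empty, mul_one, e, ← Polynomial.map_map, hR']
    exact hB _

end sMH

end Pool.Agent.P.MP_8d2e9f_nt.G
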